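import Pool.Agent.Lib.P0036f5d.MkE

/-!
# D14: the information bits and acceptance

As `P0036f5b/BitsA.lean`, but simpler, since `RD` and `AcD` are defined by what the trees decide:
`eval_aR` (the information bit of the code `x < Z.N` read in the block `t` is `x ∈ Z.RD w t`), `eval_mkT`
(MkE.lean) for `stT` (`lo = 0`, `hi = Z.bl ≤ r`) and for `acT` (`lo = 0`, `hi = r`), `DT.eval_orN`.
`r < Z.bl` means `t = 0`.
-/

set_option autoImplicit false

namespace Pool.Agent.P0036f5d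

open Relation Pool.Agent.P0036f5v2 Pool.Agent.P0036f5w Pool.Agent.P0036f5g Pool.Agent.P0036f5k
  Pool.Agent.P0036f5b Classical

variable {A Q M : Type}

namespace BitsAAux

theorem sl_pos {Z : PD A Q M} (hZ : Z.Ok) : 0 < Z.sl := by
  have := hZ.hK
  show 0 < (Z.mx + 1) * (Z.K * Z.K)
  positivity

theorem sl_add {Z : PD A Q M} (hZ : Z.Ok) : Z.sl + Z.N ≤ Z.bl := by
  have h1 := sl_pos hZ
  have h2 : (Z.N + 1) * Z.sl ≤ 2 ^ Z.mx * Z.sl := Nat.mul_le_mul_right _ hZ.hN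
  have h3 : Z.N * 1 ≤ Z.N * Z.sl := Nat.mul_le_mul_left _ h1
  have h4 : (Z.N + 1) * Z.sl = Z.N * Z.sl + Z.sl := by ring
  show Z.sl + Z.N ≤ 2 ^ Z.mx * Z.sl
  omega

theorem mem_zero {Z : PD A Q M} {w : List A} {x : ℕ} :
    x ∈ Z.RD w 0 ↔ x < Z.N ∧ Sle (ini Z.S) (Z.info x) := Iff.rfl

theorem mem_succ {Z : PD A Q M} {w : List A} {t y : ℕ} :
    y ∈ Z.RD w (t + 1) ↔ y < Z.N ∧ ∃ x ∈ Z.RD w t,
      Z.MkR (w.drop (t * Z.bl)) Z.d 0 Z.bl (Z.info x) (Z.info y) := Iff.rfl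

theorem lt_of_mem {Z : PD A Q M} {w : List A} {t x : ℕ} (h : x ∈ Z.RD w t) : x < Z.N := by
  cases t with
  | zero => exact (mem_zero.1 h).1
  | succ t => exact (mem_succ.1 h).1

/-- reading an information bit -/
theorem eval_aR {Z : PD A Q M} (hZ : Z.Ok) {w : List A} {t r : ℕ} {v : ℕ → Sy A}
    (hr : Z.bl ≤ r) (hv : Z.Vw w (t * Z.bl) r v) {x : ℕ} (hx : x < Z.N) :
    (PD.aR (r - (Z.sl + x)) : DT (Sy A)).eval v = true ↔ x ∈ Z.RD w t := by
  have h1 := sl_add hZ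
  obtain ⟨c, -, h2⟩ := hv (Z.sl + x) (by omega)
  have h3 : (PD.aR (r - (Z.sl + x)) : DT (Sy A)).eval v =
      (Z.note w (t * Z.bl + (Z.sl + x))).1 := by
    show (DT.ret (match v (r - (Z.sl + x)) with
      | some (_, b) => b.1
      | none => false)).eval v = _
    rw [h2]
    rfl
  rw [h3]
  have h4 : (t * Z.bl + (Z.sl + x)) % Z.bl = Z.sl + x := by
    rw [Nat.mul_comm, Nat.mul_add_mod]
    exact Nat.mod_eq_of_lt (by omega)
  have h5 : (t * Z.bl + (Z.sl + x)) / Z.bl = t := by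
    rw [Nat.mul_comm, Nat.mul_add_div (by omega)]
    rw [Nat.div_eq_of_lt (by omega), Nat.add_zero]
  show decide (Z.rbit w (t * Z.bl + (Z.sl + x))) = true ↔ _
  rw [decide_eq_true_iff]
  unfold PD.rbit
  rw [h4, h5]
  have h6 : Z.sl + x - Z.sl = x := by omega
  rw [h6]
  constructor
  · exact fun h => h.2.2
  · exact fun h => ⟨by omega, hx, h⟩

/-- acceptance from an information -/
theorem eval_acT {Z : PD A Q M} (hZ : Z.Ok) {w : List A} {t r : ℕ} {v : ℕ → Sy A}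
    (hr : r < 2 * Z.bl) (hw : t * Z.bl + r ≤ w.length) (hv : Z.Vw w (t * Z.bl) r v)
    (x : Inf Q) :
    (Z.acT r x).eval v = true ↔
      ∃ z < Z.N, Ac Z.S (Z.info z) ∧ Z.MkR (w.drop (t * Z.bl)) Z.d 0 r x (Z.info z) := by
  unfold PD.acT
  rw [DT.eval_orN]
  constructor
  · rintro ⟨z, hz, h⟩
    by_cases h1 : Ac Z.S (Z.info z)
    · rw [if_pos h1] at h
      exact ⟨z, hz, h1, (PD.eval_mkT hZ hv hr hw _ _ _ _ _ (Nat.zero_le _) le_rfl).1 h⟩
    · rw [if_neg h1] at h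
      exact absurd h (by simp [DT.eval])
  · rintro ⟨z, hz, h1, h2⟩
    refine ⟨z, hz, ?_⟩
    rw [if_pos h1]
    exact (PD.eval_mkT hZ hv hr hw _ _ _ _ _ (Nat.zero_le _) le_rfl).2 h2

end BitsAAux

open BitsAAux

namespace PD

theorem eval_rT {Z : PD A Q M} (hZ : Z.Ok) {w : List A} {t r : ℕ} {v : ℕ → Sy A}
    (hr : r < 2 * Z.bl) (ht : t = 0 ∨ Z.bl ≤ r) (hw : t * Z.bl + r ≤ w.length)
    (hv : Z.Vw w (t * Z.bl) r v) :
    (Z.rT r).eval v = true ↔ Z.rbit w (t * Z.bl + r) := by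
  have hadd := sl_add hZ
  have hsl := sl_pos hZ
  unfold rT
  by_cases h1 : r < Z.bl
  · rw [if_pos h1]
    have h0 : t = 0 := ht.resolve_right (by omega)
    subst h0
    show decide _ = true ↔ _
    rw [decide_eq_true_iff]
    unfold rbit
    rw [Nat.zero_mul, Nat.zero_add, Nat.mod_eq_of_lt h1, Nat.div_eq_of_lt h1, mem_zero]
    constructor
    · rintro ⟨h2, h3, h4⟩
      exact ⟨h2, h3, h3, h4⟩
    · rintro ⟨h2, h3, _, h4⟩
      exact ⟨h2, h3, h4⟩
  · rw [if_neg h1]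
    have h4 : (t * Z.bl + r) % Z.bl = r - Z.bl := by
      rw [show t * Z.bl + r = Z.bl * (t + 1) + (r - Z.bl) by
        rw [Nat.mul_add, Nat.mul_comm Z.bl t]; omega, Nat.mul_add_mod]
      exact Nat.mod_eq_of_lt (by omega)
    have h5 : (t * Z.bl + r) / Z.bl = t + 1 := by
      rw [show t * Z.bl + r = Z.bl * (t + 1) + (r - Z.bl) by
        rw [Nat.mul_add, Nat.mul_comm Z.bl t]; omega, Nat.mul_add_div (by omega),
        Nat.div_eq_of_lt (by omega), Nat.add_zero]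
    unfold rbit
    rw [h4, h5]
    by_cases h2 : Z.sl ≤ r - Z.bl ∧ r - Z.bl - Z.sl < Z.N
    · rw [if_pos h2, DT.eval_orN, mem_succ]
      have hmk : ∀ x y : Inf Q, (Z.stT r x y).eval v = true ↔
          Z.MkR (w.drop (t * Z.bl)) Z.d 0 Z.bl x y := fun x y =>
        eval_mkT hZ hv hr hw _ _ _ _ _ (Nat.zero_le _) (by omega)
      constructor
      · rintro ⟨x, hx, h3⟩
        rw [DT.eval_and, Bool.and_eq_true] at h3
        exact ⟨h2.1, h2.2, h2.2, x, (eval_aR hZ (by omega) hv hx).1 h3.1, (hmk _ _).1 h3.2⟩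
      · rintro ⟨-, -, -, x, hx, h3⟩
        refine ⟨x, lt_of_mem hx, ?_⟩
        rw [DT.eval_and, Bool.and_eq_true]
        exact ⟨(eval_aR hZ (by omega) hv (lt_of_mem hx)).2 hx, (hmk _ _).2 h3⟩
    · rw [if_neg h2]
      constructor
      · intro h
        exact absurd h (by simp [DT.eval])
      · rintro ⟨h3, h4, -⟩
        exact absurd ⟨h3, h4⟩ h2

theorem eval_fT {Z : PD A Q M} (hZ : Z.Ok) {w : List A} {t r : ℕ} {v : ℕ → Sy A}
    (hr : r < 2 * Z.bl) (ht : t = 0 ∨ Z.bl ≤ r) (hv : Z.Vw w (t * Z.bl) r v)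
    (hw : w.length = t * Z.bl + r) :
    (Z.fT r).eval v = true ↔ Z.AcD w t r := by
  have hadd := sl_add hZ
  have hsl := sl_pos hZ
  unfold fT AcD
  by_cases h1 : r < Z.bl
  · rw [if_pos h1, DT.eval_orN]
    have h0 : t = 0 := ht.resolve_right (by omega)
    subst h0
    constructor
    · rintro ⟨x, hx, h3⟩
      by_cases h4 : Z.st0 x
      · rw [if_pos h4] at h3
        exact ⟨x, mem_zero.2 ⟨hx, h4⟩, (eval_acT hZ hr hw.ge hv _).1 h3⟩
      · rw [if_neg h4] at h3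
        exact absurd h3 (by simp [DT.eval])
    · rintro ⟨x, hx, h3⟩
      obtain ⟨hx1, hx2⟩ := mem_zero.1 hx
      refine ⟨x, hx1, ?_⟩
      have h4 : Z.st0 x := hx2
      rw [if_pos h4]
      exact (eval_acT hZ hr hw.ge hv _).2 h3
  · rw [if_neg h1, DT.eval_orN]
    constructor
    · rintro ⟨x, hx, h3⟩
      rw [DT.eval_and, Bool.and_eq_true] at h3
      exact ⟨x, (eval_aR hZ (by omega) hv hx).1 h3.1, (eval_acT hZ hr hw.ge hv _).1 h3.2⟩
    · rintro ⟨x, hx, h3⟩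
      refine ⟨x, lt_of_mem hx, ?_⟩
      rw [DT.eval_and, Bool.and_eq_true]
      exact ⟨(eval_aR hZ (by omega) hv (lt_of_mem hx)).2 hx, (eval_acT hZ hr hw.ge hv _).2 h3⟩

end PD

end Pool.Agent.P0036f5d
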