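import Pool.Agent.Lib.P0036f5d.MinF

/-!
# D3: the bound `k + K * (sqrt (2 k) + 1)`

Let `N = Nat.card V`, `s_q` the number of `e ∈ W` with `ph e = q`; their sources are distinct
(`src_ne`).  Count the pairs `(e, f) ∈ W × W` with `ph e = ph f`, `e ≠ f` (their number is
`∑ q < k, s_q (s_q - 1)`): the map `(e, f) ↦ (e.1, f.1)` into `V × V` is at most 2-to-1: suppose three
pairs `(e_i, f_i)`, `i = 1, 2, 3`, with the same sources `u ≠ v`; by `src_ne` the phases `q_i = ph e_i`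
are distinct, say `q_1 < q_2 < q_3`; in each phase exactly one of `Bf e_i f_i`, `Bf f_i e_i` holds
(`bf_or`), so the same one holds for two indices `i < j`: contradiction to `bf_rev` (with `e = e_j`,
`e' = e_i`, or with the roles of `e` and `f` exchanged).  (Equivalently: for every pair `(u, v)` the
set of phases is a set of numbers with at most two elements, as a set of three numbers contains two on
which a 2-colouring is constant.)
So `∑ s_q (s_q - 1) ≤ 2 N ^ 2`, and with `B = W.card = ∑ s_q` (`ph_lt`,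
`Finset.card_eq_sum_card_fiberwise`), `B ^ 2 ≤ k * ∑ s_q ^ 2` (`sq_sum_le_card_mul_sum_sq`)
`≤ k (B + 2 N ^ 2)`.  If `B > k + N (r + 1)`, `r = Nat.sqrt (2 k)`, then
`B (B - k) > N (r + 1) * N (r + 1) ≥ 2 k N ^ 2` (`Nat.sqrt_lt'` / `Nat.lt_succ_sqrt`), contradiction.
-/

set_option autoImplicit false

namespace Pool.Agent.P0036f5d

open Relation Classical

variable {V : Type}

namespace CntAAux

theorem no_both (Z : MinSys V) {e f e' f' : V × V} (he : e ∈ Z.W) (hf : f ∈ Z.W)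
    (he' : e' ∈ Z.W) (hf' : f' ∈ Z.W) (hp : Z.ph e = Z.ph f) (hp' : Z.ph e' = Z.ph f')
    (h1 : e.1 = e'.1) (h2 : f.1 = f'.1) (hne : ¬ (e = e' ∧ f = f')) (h : Z.Bf e f)
    (h' : Z.Bf e' f') : False := by
  rcases lt_trichotomy (Z.ph e) (Z.ph e') with hlt | heq | hgt
  · exact bf_rev Z he' hf' he hf hp' hp hlt h1.symm h2.symm h' h
  · exact hne ⟨src_ne Z he he' heq h1, src_ne Z hf hf' (by rw [← hp, heq, hp']) h2⟩
  · exact bf_rev Z he hf he' hf' hp hp' hgt h1 h2 h h'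

/-- the pairs of different edges of one phase -/
noncomputable def prs (Z : MinSys V) : Finset ((V × V) × (V × V)) :=
  (Z.W ×ˢ Z.W).filter fun x => Z.ph x.1 = Z.ph x.2 ∧ x.1 ≠ x.2

theorem mem_prs {Z : MinSys V} {x : (V × V) × (V × V)} :
    x ∈ prs Z ↔ (x.1 ∈ Z.W ∧ x.2 ∈ Z.W) ∧ Z.ph x.1 = Z.ph x.2 ∧ x.1 ≠ x.2 := by
  unfold prs
  rw [Finset.mem_filter, Finset.mem_product]

theorem fib (Z : MinSys V) (c : V × V) :
    ((prs Z).filter fun x => (x.1.1, x.2.1) = c).card ≤ 2 := by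
  by_contra hcon
  rw [not_le, Finset.two_lt_card] at hcon
  obtain ⟨x, hx, y, hy, z, hz, hxy, hxz, hyz⟩ := hcon
  rw [Finset.mem_filter, mem_prs] at hx hy hz
  obtain ⟨⟨⟨x1, x2⟩, x3, x4⟩, x5⟩ := hx
  obtain ⟨⟨⟨y1, y2⟩, y3, y4⟩, y5⟩ := hy
  obtain ⟨⟨⟨z1, z2⟩, z3, z4⟩, z5⟩ := hz
  have nx : ∀ {a b : (V × V) × (V × V)}, a ≠ b → ¬ (a.1 = b.1 ∧ a.2 = b.2) :=
    fun h1 h2 => h1 (Prod.ext h2.1 h2.2)
  have nx' : ∀ {a b : (V × V) × (V × V)}, a ≠ b → ¬ (a.2 = b.2 ∧ a.1 = b.1) :=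
    fun h1 h2 => h1 (Prod.ext h2.2 h2.1)
  have exy1 : x.1.1 = y.1.1 := (congrArg Prod.fst x5).trans (congrArg Prod.fst y5).symm
  have exy2 : x.2.1 = y.2.1 := (congrArg Prod.snd x5).trans (congrArg Prod.snd y5).symm
  have exz1 : x.1.1 = z.1.1 := (congrArg Prod.fst x5).trans (congrArg Prod.fst z5).symm
  have exz2 : x.2.1 = z.2.1 := (congrArg Prod.snd x5).trans (congrArg Prod.snd z5).symm
  have eyz1 : y.1.1 = z.1.1 := (congrArg Prod.fst y5).trans (congrArg Prod.fst z5).symm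
  have eyz2 : y.2.1 = z.2.1 := (congrArg Prod.snd y5).trans (congrArg Prod.snd z5).symm
  rcases bf_or Z x1 x2 x4 x3 with hX | hX <;> rcases bf_or Z y1 y2 y4 y3 with hY | hY <;>
    rcases bf_or Z z1 z2 z4 z3 with hZ | hZ
  · exact no_both Z x1 x2 y1 y2 x3 y3 exy1 exy2 (nx hxy) hX hY
  · exact no_both Z x1 x2 y1 y2 x3 y3 exy1 exy2 (nx hxy) hX hY
  · exact no_both Z x1 x2 z1 z2 x3 z3 exz1 exz2 (nx hxz) hX hZ
  · exact no_both Z y2 y1 z2 z1 y3.symm z3.symm eyz2 eyz1 (nx' hyz) hY hZ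
  · exact no_both Z y1 y2 z1 z2 y3 z3 eyz1 eyz2 (nx hyz) hY hZ
  · exact no_both Z x2 x1 z2 z1 x3.symm z3.symm exz2 exz1 (nx' hxz) hX hZ
  · exact no_both Z x2 x1 y2 y1 x3.symm y3.symm exy2 exy1 (nx' hxy) hX hY
  · exact no_both Z x2 x1 y2 y1 x3.symm y3.symm exy2 exy1 (nx' hxy) hX hY

theorem card_prs [Finite V] (Z : MinSys V) : (prs Z).card ≤ 2 * (Nat.card V * Nat.card V) := by
  have := Fintype.ofFinite V
  have h1 := Finset.card_le_mul_card_image (f := fun x : (V × V) × (V × V) => (x.1.1, x.2.1))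
    (prs Z) 2 (fun c _ => fib Z c)
  have h2 : ((prs Z).image fun x : (V × V) × (V × V) => (x.1.1, x.2.1)).card ≤
      Nat.card V * Nat.card V := by
    refine (Finset.card_le_univ _).trans ?_
    rw [Fintype.card_prod, Nat.card_eq_fintype_card]
  exact h1.trans (Nat.mul_le_mul_left 2 h2)

/-- the number of edges of the phase `q` -/
noncomputable def sz (Z : MinSys V) (q : ℕ) : ℕ := (Z.W.filter fun e => Z.ph e = q).card

theorem sum_sz (Z : MinSys V) : Z.W.card = ∑ q ∈ Finset.range Z.k, sz Z q :=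
  Finset.card_eq_sum_card_fiberwise fun e he => Finset.mem_coe.2 (Finset.mem_range.2
    (Z.ph_lt e he))

theorem sum_sq (Z : MinSys V) :
    ∑ q ∈ Finset.range Z.k, sz Z q ^ 2 ≤ Z.W.card + (prs Z).card := by
  have h1 : ((Z.W ×ˢ Z.W).filter fun x => Z.ph x.1 = Z.ph x.2).card =
      ∑ q ∈ Finset.range Z.k, sz Z q ^ 2 := by
    rw [Finset.card_eq_sum_card_fiberwise (f := fun x : (V × V) × (V × V) => Z.ph x.1)
      (t := Finset.range Z.k)]
    · refine Finset.sum_congr rfl fun q _ => ?_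
      unfold sz
      rw [sq, ← Finset.card_product]
      refine congrArg Finset.card ?_
      ext x
      simp only [Finset.mem_filter, Finset.mem_product]
      constructor
      · rintro ⟨⟨⟨h1, h2⟩, h3⟩, h4⟩
        exact ⟨⟨h1, h4⟩, h2, by rw [← h3, h4]⟩
      · rintro ⟨⟨h1, h2⟩, h3, h4⟩
        exact ⟨⟨⟨h1, h3⟩, by rw [h2, h4]⟩, h2⟩
    · intro x hx
      have hx1 := (Finset.mem_product.1 (Finset.mem_filter.1 (Finset.mem_coe.1 hx)).1).1
      exact Finset.mem_coe.2 (Finset.mem_range.2 (Z.ph_lt _ hx1))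
  have h2 : ((Z.W ×ˢ Z.W).filter fun x => Z.ph x.1 = Z.ph x.2) ⊆
      (Z.W.image fun e => (e, e)) ∪ prs Z := by
    intro x hx
    rw [Finset.mem_filter, Finset.mem_product] at hx
    obtain ⟨⟨h3, h4⟩, h5⟩ := hx
    rw [Finset.mem_union, mem_prs]
    by_cases h6 : x.1 = x.2
    · left
      rw [Finset.mem_image]
      exact ⟨x.1, h3, Prod.ext rfl h6⟩
    · right
      exact ⟨⟨h3, h4⟩, h5, h6⟩
  rw [← h1]
  exact (Finset.card_le_card h2).trans ((Finset.card_union_le _ _).trans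
    (Nat.add_le_add_right Finset.card_image_le _))

theorem arith {B k N : ℕ} (h : B ^ 2 ≤ k * (B + 2 * (N * N))) :
    B ≤ k + N * (Nat.sqrt (2 * k) + 1) := by
  by_contra hcon
  rw [not_le] at hcon
  have h2 : 2 * k < (Nat.sqrt (2 * k) + 1) * (Nat.sqrt (2 * k) + 1) := Nat.lt_succ_sqrt (2 * k)
  generalize Nat.sqrt (2 * k) + 1 = r at hcon h2
  obtain ⟨t, ht⟩ := Nat.exists_eq_add_of_lt hcon
  have h3 : (N * r + 1 + t) * (N * r + 1 + t) ≤ 2 * k * (N * N) := by
    have h4 : B * (k + (N * r + 1 + t)) ≤ k * B + 2 * k * (N * N) := by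
      have h5 : k + (N * r + 1 + t) = B := by omega
      rw [h5, ← sq]
      refine h.trans (le_of_eq ?_)
      ring
    have h6 : B * (N * r + 1 + t) ≤ 2 * k * (N * N) := by
      rw [mul_add, mul_comm B k] at h4
      exact Nat.le_of_add_le_add_left h4
    exact (Nat.mul_le_mul_right _ (by omega)).trans h6
  have h7 : 2 * k * (N * N) ≤ r * r * (N * N) := Nat.mul_le_mul_right _ h2.le
  have h8 : (N * r) * (N * r) < (N * r + 1 + t) * (N * r + 1 + t) :=
    Nat.mul_self_lt_mul_self (by omega)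
  have h9 : r * r * (N * N) = (N * r) * (N * r) := by ring
  omega

end CntAAux

open CntAAux

theorem card_leA [Finite V] (Z : MinSys V) :
    Z.W.card ≤ Z.k + Nat.card V * (Nat.sqrt (2 * Z.k) + 1) := by
  refine arith ?_
  have h1 := sq_sum_le_card_mul_sum_sq (s := Finset.range Z.k) (f := sz Z)
  rw [← sum_sz, Finset.card_range] at h1
  exact h1.trans (Nat.mul_le_mul_left _ ((sum_sq Z).trans (Nat.add_le_add_left (card_prs Z) _)))

end Pool.Agent.P0036f5d
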