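import Pool.Agent.Lib.P0036f5d.MinF

/-!
# D4: edges that are not inner

Let `N = Nat.card V`, `W1 = Z.W.filter (¬ Z.Inn ·)`, `r_u` the number of `e ∈ W1` with `e.1 = u`.
The pairs `(e, e') ∈ W1 × W1` with `e.1 = e'.1` and `ph e' < ph e` are mapped injectively by
`(e, e') ↦ (ph e', ph e)` into `{(p, q) | p < q < k}`: if `(e, e')` and `(f, f')` have the same image then
`e = f` by `src_unique`, and `e' = f'` by `src_ne` (`e'.1 = e.1 = f.1 = f'.1`).  For `e ≠ e'` with the same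
source the phases are different (`src_ne`), so `∑ u, r_u (r_u - 1) = 2 #pairs ≤ k (k - 1) ≤ k ^ 2`.
With `B = W1.card = ∑ u, r_u`: `B ^ 2 ≤ N ∑ r_u ^ 2 ≤ N (B + k ^ 2)`.  If `B > N + k (s + 1)`,
`s = Nat.sqrt N`, then `B (B - N) > k (s + 1) * k (s + 1) ≥ k ^ 2 N`, contradiction.
-/

set_option autoImplicit false

namespace Pool.Agent.P0036f5d

open Relation Classical

variable {V : Type}

namespace CntCAux

/-- the edges that are not inner -/
noncomputable def W1 (Z : MinSys V) : Finset (V × V) := Z.W.filter fun e => ¬ Z.Inn e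

theorem mem_W1 {Z : MinSys V} {e : V × V} : e ∈ W1 Z ↔ e ∈ Z.W ∧ ¬ Z.Inn e := by
  unfold W1
  rw [Finset.mem_filter]

/-- the pairs of different edges with the same source -/
noncomputable def prs (Z : MinSys V) : Finset ((V × V) × (V × V)) :=
  (W1 Z ×ˢ W1 Z).filter fun x => x.1.1 = x.2.1 ∧ x.1 ≠ x.2

theorem mem_prs {Z : MinSys V} {x : (V × V) × (V × V)} :
    x ∈ prs Z ↔ (x.1 ∈ W1 Z ∧ x.2 ∈ W1 Z) ∧ x.1.1 = x.2.1 ∧ x.1 ≠ x.2 := by
  unfold prs
  rw [Finset.mem_filter, Finset.mem_product]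

theorem inj (Z : MinSys V) {x y : (V × V) × (V × V)} (hx : x ∈ prs Z) (hy : y ∈ prs Z)
    (h1 : Z.ph x.1 = Z.ph y.1) (h2 : Z.ph x.2 = Z.ph y.2) : x = y := by
  obtain ⟨⟨hx1, hx2⟩, hx3, hx4⟩ := mem_prs.1 hx
  obtain ⟨⟨hy1, hy2⟩, hy3, hy4⟩ := mem_prs.1 hy
  rw [mem_W1] at hx1 hx2 hy1 hy2
  rcases lt_trichotomy (Z.ph x.1) (Z.ph x.2) with hlt | heq | hgt
  · have h3 : x.2 = y.2 := src_unique Z hx2.1 hy2.1 hx1.1 hy1.1 hx2.2 hy2.2 h2 h1 hlt hx3.symm
      hy3.symm
    have h4 : x.1 = y.1 := src_ne Z hx1.1 hy1.1 h1 (by rw [hx3, hy3, h3])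
    exact Prod.ext h4 h3
  · exact absurd (src_ne Z hx1.1 hx2.1 heq hx3) hx4
  · have h3 : x.1 = y.1 := src_unique Z hx1.1 hy1.1 hx2.1 hy2.1 hx1.2 hy1.2 h1 h2 hgt hx3 hy3
    have h4 : x.2 = y.2 := src_ne Z hx2.1 hy2.1 h2 (by rw [← hx3, ← hy3, h3])
    exact Prod.ext h3 h4

theorem card_prs (Z : MinSys V) : (prs Z).card ≤ Z.k * Z.k := by
  have h1 : (prs Z).card ≤ (Finset.range Z.k ×ˢ Finset.range Z.k).card := by
    refine Finset.card_le_card_of_injOn (fun x => (Z.ph x.1, Z.ph x.2)) ?_ ?_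
    · intro x hx
      obtain ⟨⟨hx1, hx2⟩, -⟩ := mem_prs.1 (Finset.mem_coe.1 hx)
      rw [mem_W1] at hx1 hx2
      exact Finset.mem_coe.2 (Finset.mem_product.2
        ⟨Finset.mem_range.2 (Z.ph_lt _ hx1.1), Finset.mem_range.2 (Z.ph_lt _ hx2.1)⟩)
    · intro x hx y hy hxy
      have h3 := congrArg Prod.fst hxy
      have h4 := congrArg Prod.snd hxy
      exact inj Z (Finset.mem_coe.1 hx) (Finset.mem_coe.1 hy) h3 h4
  rwa [Finset.card_product, Finset.card_range] at h1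

/-- the number of edges with the source `u` -/
noncomputable def sz (Z : MinSys V) (u : V) : ℕ := ((W1 Z).filter fun e => e.1 = u).card

theorem sum_sz [Fintype V] (Z : MinSys V) : (W1 Z).card = ∑ u : V, sz Z u :=
  Finset.card_eq_sum_card_fiberwise fun _ _ => Finset.mem_coe.2 (Finset.mem_univ _)

theorem sum_sq [Fintype V] (Z : MinSys V) :
    ∑ u : V, sz Z u ^ 2 ≤ (W1 Z).card + (prs Z).card := by
  have h1 : ((W1 Z ×ˢ W1 Z).filter fun x => x.1.1 = x.2.1).card = ∑ u : V, sz Z u ^ 2 := by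
    rw [Finset.card_eq_sum_card_fiberwise (f := fun x : (V × V) × (V × V) => x.1.1)
      (t := (Finset.univ : Finset V))]
    · refine Finset.sum_congr rfl fun q _ => ?_
      unfold sz
      rw [sq, ← Finset.card_product]
      refine congrArg Finset.card ?_
      ext x
      simp only [Finset.mem_filter, Finset.mem_product]
      constructor
      · rintro ⟨⟨⟨h1, h2⟩, h3⟩, h4⟩
        exact ⟨⟨h1, h4⟩, h2, by rw [← h3, h4]⟩
      · rintro ⟨⟨h1, h2⟩, h3, h4⟩
        exact ⟨⟨⟨h1, h3⟩, by rw [h2, h4]⟩, h2⟩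
    · intro x _
      exact Finset.mem_coe.2 (Finset.mem_univ _)
  have h2 : ((W1 Z ×ˢ W1 Z).filter fun x => x.1.1 = x.2.1) ⊆
      ((W1 Z).image fun e => (e, e)) ∪ prs Z := by
    intro x hx
    rw [Finset.mem_filter, Finset.mem_product] at hx
    obtain ⟨⟨h3, h4⟩, h5⟩ := hx
    rw [Finset.mem_union, mem_prs]
    by_cases h6 : x.1 = x.2
    · left
      rw [Finset.mem_image]
      exact ⟨x.1, h3, Prod.ext rfl h6⟩
    · right
      exact ⟨⟨h3, h4⟩, h5, h6⟩
  rw [← h1]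
  exact (Finset.card_le_card h2).trans ((Finset.card_union_le _ _).trans
    (Nat.add_le_add_right Finset.card_image_le _))

theorem arith {B k N : ℕ} (h : B ^ 2 ≤ N * (B + k * k)) :
    B ≤ N + k * (Nat.sqrt N + 1) := by
  by_contra hcon
  rw [not_le] at hcon
  have h2 : N < (Nat.sqrt N + 1) * (Nat.sqrt N + 1) := Nat.lt_succ_sqrt N
  generalize Nat.sqrt N + 1 = r at hcon h2
  obtain ⟨t, ht⟩ := Nat.exists_eq_add_of_lt hcon
  have h3 : (k * r + 1 + t) * (k * r + 1 + t) ≤ N * (k * k) := by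
    have h4 : B * (N + (k * r + 1 + t)) ≤ N * B + N * (k * k) := by
      have h5 : N + (k * r + 1 + t) = B := by omega
      rw [h5, ← sq]
      refine h.trans (le_of_eq ?_)
      ring
    have h6 : B * (k * r + 1 + t) ≤ N * (k * k) := by
      rw [mul_add, mul_comm B N] at h4
      exact Nat.le_of_add_le_add_left h4
    exact (Nat.mul_le_mul_right _ (by omega)).trans h6
  have h7 : N * (k * k) ≤ r * r * (k * k) := Nat.mul_le_mul_right _ h2.le
  have h8 : (k * r) * (k * r) < (k * r + 1 + t) * (k * r + 1 + t) :=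
    Nat.mul_self_lt_mul_self (by omega)
  have h9 : r * r * (k * k) = (k * r) * (k * r) := by ring
  omega

end CntCAux

open CntCAux

theorem card_leC [Finite V] (Z : MinSys V) :
    (Z.W.filter fun e => ¬ Z.Inn e).card ≤ Nat.card V + Z.k * (Nat.sqrt (Nat.card V) + 1) := by
  have := Fintype.ofFinite V
  refine arith ?_
  have h1 := sq_sum_le_card_mul_sum_sq (s := (Finset.univ : Finset V)) (f := sz Z)
  rw [← sum_sz, Finset.card_univ, ← Nat.card_eq_fintype_card] at h1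
  exact h1.trans (Nat.mul_le_mul_left _ ((sum_sq Z).trans (Nat.add_le_add_left (card_prs Z) _)))

end Pool.Agent.P0036f5d
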