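import Pool.Agent.Lib.P0036f5d.TDefs

/-!
# D15: codes of informations with small tables

The informations `y` with `y.1 ≤ k` and `y.2.2.ncard ≤ m` are the values of the map
`Fin (k + 1) × Q × (Fin m → Option (Q × Q)) → Inf Q`, `(i, q, g) ↦ (i, q, {t | ∃ j, g j = some t})`
(restricted to tables with at most `m` pairs; all its values have `y.1 ≤ k`).  The domain has
`(k + 1) * (n * (n * n + 1) ^ m) ≤ ND k m (2 n)` elements, `n = Nat.card Q`.  A finite set with
`ncard ≤ m` is the set of values of such a `g` (`Set.Finite.toFinset`, an injection into `Fin m`, `none`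
elsewhere; for `m = 0` the set is empty).  Compare `exists_infoB` in `P0036f5b/Codes.lean`.
-/

set_option autoImplicit false

namespace Pool.Agent.P0036f5d

open Relation Pool.Agent.P0036f5v2 Pool.Agent.P0036f5w Pool.Agent.P0036f5g Pool.Agent.P0036f5k
  Pool.Agent.P0036f5b Classical

namespace CodesAux

/-- a finite set with at most `m` elements is the set of values of a partial function on `Fin m` -/
theorem exists_tab {T : Type} [Finite T] (m : ℕ) (s : Set T) (hs : s.ncard ≤ m) :
    ∃ g : Fin m → Option T, {t | ∃ j, g j = some t} = s := by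
  have hc : Nat.card s ≤ m := by rwa [Nat.card_coe_set_eq]
  let e : s ≃ Fin (Nat.card s) := Finite.equivFin s
  refine ⟨fun j => if h : j.val < Nat.card s then some (e.symm ⟨j.val, h⟩).val else none, ?_⟩
  ext t
  constructor
  · rintro ⟨j, hj⟩
    by_cases h : j.val < Nat.card s
    · simp only [dif_pos h, Option.some.injEq] at hj
      rw [← hj]
      exact (e.symm ⟨j.val, h⟩).2
    · simp only [dif_neg h] at hj
      cases hj
  · intro ht
    refine ⟨⟨(e ⟨t, ht⟩).val, lt_of_lt_of_le (e ⟨t, ht⟩).isLt hc⟩, ?_⟩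
    change (if h : (e ⟨t, ht⟩).val < Nat.card s then some (e.symm ⟨_, h⟩).val else none) = some t
    rw [dif_pos (e ⟨t, ht⟩).isLt]
    simp only [Fin.eta, Option.some.injEq]
    rw [Equiv.symm_apply_apply]

end CodesAux

theorem exists_infoD (Q : Type) [Finite Q] [Nonempty Q] (k m : ℕ) :
    ∃ info : ℕ → Inf Q, (∀ x, (info x).1 ≤ k) ∧
      ∀ y : Inf Q, y.1 ≤ k → y.2.2.ncard ≤ m →
        ∃ x < ND k m (2 * Nat.card Q), info x = y := by
  set n := Nat.card Q with hn
  have hfun : Nat.card (Fin m → Option (Q × Q)) = (n * n + 1) ^ m := by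
    rw [Nat.card_fun, Nat.card_eq_fintype_card (α := Fin m), Fintype.card_fin, Finite.card_option,
      Nat.card_prod]
  have hfin : Finite (Fin (k + 1) × Q × (Fin m → Option (Q × Q))) := inferInstance
  have hc : Nat.card (Fin (k + 1) × Q × (Fin m → Option (Q × Q))) =
      (k + 1) * (n * (n * n + 1) ^ m) := by
    rw [Nat.card_prod, Nat.card_prod, hfun, Nat.card_eq_fintype_card, Fintype.card_fin]
  have hle : (k + 1) * (n * (n * n + 1) ^ m) ≤ ND k m (2 * n) := by
    unfold ND
    have h1 : n ≤ 2 * n := by omega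
    have h2 : n * n + 1 ≤ 2 * n * (2 * n) + 1 := Nat.succ_le_succ (Nat.mul_le_mul h1 h1)
    exact Nat.mul_le_mul_left _ (Nat.mul_le_mul h1 (Nat.pow_le_pow_left h2 m))
  let e : (Fin (k + 1) × Q × (Fin m → Option (Q × Q))) ≃ Fin ((k + 1) * (n * (n * n + 1) ^ m)) :=
    (Finite.equivFin _).trans (finCongr hc)
  refine ⟨fun x => if h : x < (k + 1) * (n * (n * n + 1) ^ m) then
    (((e.symm ⟨x, h⟩).1).val, (e.symm ⟨x, h⟩).2.1,
      {t | ∃ j, (e.symm ⟨x, h⟩).2.2 j = some t}) else (0, (Classical.arbitrary Q, ∅)),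
    fun x => ?_, fun y hy hm => ?_⟩
  · by_cases h : x < (k + 1) * (n * (n * n + 1) ^ m)
    · simp only [dif_pos h]
      exact Nat.lt_succ_iff.1 (e.symm ⟨x, h⟩).1.isLt
    · simp only [dif_neg h]
      exact Nat.zero_le _
  · obtain ⟨g, hg⟩ := CodesAux.exists_tab m y.2.2 hm
    refine ⟨(e (⟨y.1, Nat.lt_succ_of_le hy⟩, y.2.1, g)).val, lt_of_lt_of_le (e _).isLt hle, ?_⟩
    change (if h : (e (⟨y.1, Nat.lt_succ_of_le hy⟩, y.2.1, g)).val <
        (k + 1) * (n * (n * n + 1) ^ m) then
      (((e.symm ⟨_, h⟩).1).val, (e.symm ⟨_, h⟩).2.1,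
        {t | ∃ j, (e.symm ⟨_, h⟩).2.2 j = some t}) else _) = y
    rw [dif_pos (e _).isLt]
    simp only [Fin.eta, Equiv.symm_apply_apply]
    rw [hg]

end Pool.Agent.P0036f5d
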