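import Pool.Agent.Lib.P0036f5d.MinF

/-!
# D5: inner edges

Let `c (F, q)` be the number of classes of the equivalence relation `x ~ y` (mutual reachability by
`Rch F (T q)`).

Step lemma (`step`, `T` fixed): for `F ⊆ W` there is `F ⊆ F' ⊆ W` such that mutual reachability by
`Rch W T` implies mutual reachability by `Rch F' T`, and `F'.card + 2 c (F') ≤ F.card + 2 c (F)`.  Proof by
strong induction on `c (F)`: otherwise let `F1` be a set of minimal cardinality with `F ⊆ F1 ⊆ W` and
`c (F1) < c (F)`.  Removing a new edge restores the `F`-classes, so all new edges have their sources in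
one `F1`-class, and these sources lie in different `F`-classes; hence
`c (F1) + (number of new edges) ≤ c (F) + 1` (`fibre`), and `F1` is a good first step.

Induction on `q` (`main`): there is `F_q ⊆ W` with `F_q.card + 2 c (F_q, q) ≤ 2 Nat.card V`, preserving
mutual reachability by `Rch W (T p)` for all `p ≤ q`.  Then `C ⊆ F_q` for large `q`.
-/

set_option autoImplicit false

namespace Pool.Agent.P0036f5d

open Relation Classical

namespace CritAux

variable {V : Type}

/-- mutual reachability -/
def mu (F : Finset (V × V)) (T : V → V → Prop) (x y : V) : Prop := Rch F T x y ∧ Rch F T y x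

theorem mu_mono {F F' : Finset (V × V)} {T T' : V → V → Prop} (hF : F ⊆ F')
    (hT : ∀ x y, T x y → T' x y) {x y : V} (h : mu F T x y) : mu F' T' x y :=
  ⟨rch_mono hF hT h.1, rch_mono hF hT h.2⟩

/-- the classes -/
def cl (F : Finset (V × V)) (T : V → V → Prop) : Setoid V where
  r := mu F T
  iseqv := ⟨fun _ => ⟨ReflTransGen.refl, ReflTransGen.refl⟩, fun h => ⟨h.2, h.1⟩,
    fun h h' => ⟨ReflTransGen.trans h.1 h'.1, ReflTransGen.trans h'.2 h.2⟩⟩

theorem mk_eq {F : Finset (V × V)} {T : V → V → Prop} {x y : V} :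
    (Quotient.mk (cl F T) x = Quotient.mk (cl F T) y) ↔ mu F T x y := Quotient.eq

/-- the number of classes -/
noncomputable def c (F : Finset (V × V)) (T : V → V → Prop) : ℕ := Nat.card (Quotient (cl F T))

/-- the map of the classes -/
def qm {F F' : Finset (V × V)} {T T' : V → V → Prop}
    (h : ∀ x y, mu F T x y → mu F' T' x y) : Quotient (cl F T) → Quotient (cl F' T') :=
  Quotient.map id (fun x y hxy => h x y hxy)

theorem qm_mk {F F' : Finset (V × V)} {T T' : V → V → Prop}
    (h : ∀ x y, mu F T x y → mu F' T' x y) (x : V) :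
    qm h (Quotient.mk (cl F T) x) = Quotient.mk (cl F' T') x := rfl

theorem qm_surj {F F' : Finset (V × V)} {T T' : V → V → Prop}
    (h : ∀ x y, mu F T x y → mu F' T' x y) : Function.Surjective (qm h) := by
  intro b
  induction b using Quotient.inductionOn with
  | h x => exact ⟨Quotient.mk _ x, rfl⟩

variable [Finite V]

theorem c_le {F F' : Finset (V × V)} {T T' : V → V → Prop}
    (h : ∀ x y, mu F T x y → mu F' T' x y) : c F' T' ≤ c F T :=
  Nat.card_le_card_of_surjective (qm h) (qm_surj h)

theorem same {F F' : Finset (V × V)} {T : V → V → Prop}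
    (h : ∀ x y, mu F T x y → mu F' T x y) (hc : c F' T = c F T) {x y : V} (hxy : mu F' T x y) :
    mu F T x y := by
  have hb : Function.Bijective (qm h) :=
    (Nat.bijective_iff_surjective_and_card (qm h)).2 ⟨qm_surj h, hc.symm⟩
  have h1 : qm h (Quotient.mk _ x) = qm h (Quotient.mk _ y) := by
    rw [qm_mk, qm_mk, mk_eq]
    exact hxy
  exact mk_eq.1 (hb.1 h1)

/-- counting a fibre of a surjective map -/
theorem fibre {A B E : Type} [Finite A] [Finite B] (π : A → B) (hπ : Function.Surjective π)
    (S : Finset E) (g : E → A) (b0 : B) (hg : ∀ e ∈ S, ∀ f ∈ S, g e = g f → e = f)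
    (hb : ∀ e ∈ S, π (g e) = b0) : Nat.card B + S.card ≤ Nat.card A + 1 := by
  have _ : Fintype A := Fintype.ofFinite A
  have _ : Fintype B := Fintype.ofFinite B
  obtain ⟨s, hs⟩ := hπ.hasRightInverse
  have hP : ((Finset.univ.erase b0).image s).card = Fintype.card B - 1 := by
    rw [Finset.card_image_of_injective _ hs.injective, Finset.card_erase_of_mem (Finset.mem_univ _),
      Finset.card_univ]
  have hQ : (S.image g).card = S.card :=
    Finset.card_image_of_injOn (fun e he f hf h => hg e he f hf h)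
  have hd : Disjoint ((Finset.univ.erase b0).image s) (S.image g) := by
    rw [Finset.disjoint_left]
    intro a ha ha'
    obtain ⟨b, hb1, rfl⟩ := Finset.mem_image.1 ha
    obtain ⟨e, he, he'⟩ := Finset.mem_image.1 ha'
    have h1 : b = b0 := by
      rw [← hs b, ← he', hb e he]
    exact (Finset.mem_erase.1 hb1).1 h1
  have h2 : ((Finset.univ.erase b0).image s ∪ S.image g).card ≤ Fintype.card A := by
    rw [← Finset.card_univ]
    exact Finset.card_le_card (Finset.subset_univ _)
  rw [Finset.card_union_of_disjoint hd, hP, hQ] at h2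
  have h3 : 0 < Fintype.card B := Fintype.card_pos_iff.2 ⟨b0⟩
  rw [Nat.card_eq_fintype_card, Nat.card_eq_fintype_card]
  omega

theorem step (T : V → V → Prop) (W : Finset (V × V)) (n : ℕ) :
    ∀ F : Finset (V × V), F ⊆ W → c F T = n → ∃ F', F ⊆ F' ∧ F' ⊆ W ∧
      (∀ x y, mu W T x y → mu F' T x y) ∧ F'.card + 2 * c F' T ≤ F.card + 2 * c F T := by
  induction n using Nat.strong_induction_on with
  | _ n ih =>
  intro F hFW hn
  have hid : ∀ x y, T x y → T x y := fun _ _ h => h
  by_cases hall : ∀ x y, mu W T x y → mu F T x y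
  · exact ⟨F, Finset.Subset.refl F, hFW, hall, le_refl _⟩
  have hlt : c W T < c F T := by
    refine lt_of_le_of_ne (c_le fun x y => mu_mono hFW hid) ?_
    intro he
    exact hall fun x y hxy => same (fun x y => mu_mono hFW hid) he hxy
  obtain ⟨F1, hF1, hmin⟩ := Finset.exists_min_image
    (W.powerset.filter fun F1 => F ⊆ F1 ∧ c F1 T < c F T) Finset.card
    ⟨W, Finset.mem_filter.2 ⟨Finset.mem_powerset.2 (Finset.Subset.refl W), hFW, hlt⟩⟩
  rw [Finset.mem_filter, Finset.mem_powerset] at hF1
  obtain ⟨hF1W, hFF1, hc1⟩ := hF1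
  -- removing a new edge restores the classes
  have hrem : ∀ e ∈ F1, e ∉ F → ∀ x y, mu (F1.erase e) T x y → mu F T x y := by
    intro e he heF
    have hsub : F ⊆ F1.erase e := by
      intro f hf
      refine Finset.mem_erase.2 ⟨?_, hFF1 hf⟩
      rintro rfl
      exact heF hf
    have h1 : ¬ c (F1.erase e) T < c F T := by
      intro h
      have h2 := hmin (F1.erase e) (Finset.mem_filter.2
        ⟨Finset.mem_powerset.2 ((Finset.erase_subset e F1).trans hF1W), hsub, h⟩)
      have h3 := Finset.card_erase_lt_of_mem he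
      omega
    have h2 : c (F1.erase e) T ≤ c F T := c_le fun x y => mu_mono hsub hid
    intro x y hxy
    exact same (fun x y => mu_mono hsub hid) (by omega) hxy
  have hsubE : ∀ e ∈ F1, e ∉ F → F ⊆ F1.erase e := by
    intro e he heF f hf
    refine Finset.mem_erase.2 ⟨?_, hFF1 hf⟩
    rintro rfl
    exact heF hf
  -- two vertices in a new common class
  obtain ⟨u, v, huv, hnuv⟩ : ∃ u v, mu F1 T u v ∧ ¬ mu F T u v := by
    by_contra hcon
    push Not at hcon
    have := c_le (F := F1) (F' := F) (T := T) (T' := T) hcon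
    omega
  have hsrc : ∀ e ∈ F1, e ∉ F → mu F1 T e.1 u := by
    intro e he heF
    have hE : Rch F1 T e.1 e.2 := ReflTransGen.single (Or.inl he)
    have hmo : ∀ {x y : V}, Rch (F1.erase e) T x y → Rch F1 T x y :=
      fun h => rch_mono (Finset.erase_subset e F1) hid h
    rcases rch_or e huv.1 with h1 | ⟨h1, -, h2⟩
    · rcases rch_or e huv.2 with h3 | ⟨h3, -, h4⟩
      · exact absurd (hrem e he heF u v ⟨h1, h3⟩) hnuv
      · exact ⟨ReflTransGen.trans hE (hmo h4), ReflTransGen.trans huv.1 (hmo h3)⟩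
    · exact ⟨ReflTransGen.trans hE (ReflTransGen.trans (hmo h2) huv.2), hmo h1⟩
  have hinj : ∀ e ∈ F1, e ∉ F → ∀ f ∈ F1, f ∉ F → mu F T e.1 f.1 → e = f := by
    intro e he heF f hf hfF hef
    by_contra hne
    have hEf : e ∈ F1.erase f := Finset.mem_erase.2 ⟨hne, he⟩
    have hE : Rch (F1.erase f) T e.1 e.2 := ReflTransGen.single (Or.inl hEf)
    -- `e.2` returns to `e.1` in `F1`
    have hback : Rch F1 T e.2 e.1 := by
      have hmo : ∀ {x y : V}, Rch (F1.erase e) T x y → Rch F1 T x y :=
        fun h => rch_mono (Finset.erase_subset e F1) hid h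
      rcases rch_or e huv.1 with h1 | ⟨h1, -, h2⟩
      · rcases rch_or e huv.2 with h3 | ⟨h3, -, h4⟩
        · exact absurd (hrem e he heF u v ⟨h1, h3⟩) hnuv
        · exact ReflTransGen.trans (hmo h4) (ReflTransGen.trans huv.1 (hmo h3))
      · exact ReflTransGen.trans (hmo h2) (ReflTransGen.trans huv.2 (hmo h1))
    have hback' : Rch (F1.erase f) T e.2 e.1 := by
      rcases rch_or f hback with h1 | ⟨h1, -, -⟩
      · exact h1
      · exact ReflTransGen.trans h1 (rch_mono (hsubE f hf hfF) hid hef.2)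
    have h1 : mu F T e.1 e.2 := hrem f hf hfF _ _ ⟨hE, hback'⟩
    -- then `e` is useless
    have h2 : ∀ x y, Rch F1 T x y → Rch (F1.erase e) T x y := by
      intro x y hxy
      rcases rch_or e hxy with h3 | ⟨h3, -, h4⟩
      · exact h3
      · exact ReflTransGen.trans h3
          (ReflTransGen.trans (rch_mono (hsubE e he heF) hid h1.1) h4)
    exact hnuv (hrem e he heF u v ⟨h2 _ _ huv.1, h2 _ _ huv.2⟩)
  have hcount : c F1 T + (F1 \ F).card ≤ c F T + 1 := by
    refine fibre (qm (F := F) (F' := F1) (T := T) (T' := T) fun x y => mu_mono hFF1 hid)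
      (qm_surj _) (F1 \ F) (fun e => Quotient.mk (cl F T) e.1) (Quotient.mk (cl F1 T) u) ?_ ?_
    · intro e he f hf hef
      rw [Finset.mem_sdiff] at he hf
      exact hinj e he.1 he.2 f hf.1 hf.2 (mk_eq.1 hef)
    · intro e he
      rw [Finset.mem_sdiff] at he
      rw [qm_mk, mk_eq]
      exact hsrc e he.1 he.2
  have hcard : (F1 \ F).card + F.card = F1.card := Finset.card_sdiff_add_card_eq_card hFF1
  obtain ⟨F', h1, h2, h3, h4⟩ := ih (c F1 T) (by omega) F1 hF1W rfl
  exact ⟨F', hFF1.trans h1, h2, h3, by omega⟩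

theorem main (T : ℕ → V → V → Prop) (hT : ∀ i j, i ≤ j → ∀ x y, T i x y → T j x y)
    (W : Finset (V × V)) (q : ℕ) : ∃ F : Finset (V × V), F ⊆ W ∧
      F.card + 2 * c F (T q) ≤ 2 * Nat.card V ∧
      ∀ p ≤ q, ∀ x y, mu W (T p) x y → mu F (T p) x y := by
  induction q with
  | zero =>
    obtain ⟨F, -, h2, h3, h4⟩ := step (T 0) W _ ∅ (Finset.empty_subset W) rfl
    have h5 : c (∅ : Finset (V × V)) (T 0) ≤ Nat.card V :=
      Nat.card_le_card_of_surjective (fun x => Quotient.mk _ x) Quotient.mk_surjective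
    refine ⟨F, h2, ?_, ?_⟩
    · rw [Finset.card_empty] at h4
      omega
    · intro p hp
      have : p = 0 := by omega
      subst this
      exact h3
  | succ q ih =>
    obtain ⟨F, h1, h2, h3⟩ := ih
    obtain ⟨F', h4, h5, h6, h7⟩ := step (T (q + 1)) W _ F h1 rfl
    have h8 : c F (T (q + 1)) ≤ c F (T q) :=
      c_le fun x y => mu_mono (Finset.Subset.refl F) (hT q (q + 1) (Nat.le_succ q))
    refine ⟨F', h5, by omega, ?_⟩
    intro p hp x y hxy
    rcases Nat.lt_or_ge q p with h | h
    · have : p = q + 1 := by omega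
      subst this
      exact h6 x y hxy
    · exact mu_mono h4 (fun _ _ h => h) (h3 p h x y hxy)

end CritAux

open CritAux in
theorem crit_card {V : Type} [Finite V] (T : ℕ → V → V → Prop)
    (hT : ∀ i j, i ≤ j → ∀ x y, T i x y → T j x y) (W C : Finset (V × V)) (hC : C ⊆ W)
    (h : ∀ e ∈ C, ∃ q, Rch W (T q) e.2 e.1 ∧ ¬ Rch (W.erase e) (T q) e.1 e.2) :
    C.card ≤ 2 * Nat.card V := by
  choose! q hq using h
  obtain ⟨F, h1, h2, h3⟩ := main T hT W (C.sup q)
  have h4 : C ⊆ F := by
    intro e he
    by_contra heF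
    have h5 : mu W (T (q e)) e.1 e.2 :=
      ⟨ReflTransGen.single (Or.inl (hC he)), (hq e he).1⟩
    have h6 := (h3 (q e) (Finset.le_sup he) _ _ h5).1
    refine (hq e he).2 (rch_mono ?_ (fun _ _ h => h) h6)
    intro f hf
    refine Finset.mem_erase.2 ⟨?_, h1 hf⟩
    rintro rfl
    exact heF hf
  have h5 := Finset.card_le_card h4
  omega

end Pool.Agent.P0036f5d
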