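import Pool.Agent.Lib.P0036f5d.PDefs

/-!
# D7: paths with reflections as paths in the graph of crossings

`decomp`: induction on the path (`ReflTransGen.head` or `tail`): a step by a move in a cell is a step of
`RF v ∅ c e`; a step by a reflection `(c, false, p) → (c, true, p')` is an edge of `WE W`; the parts between
two reflections, from `(c, true, p')` to `(c, false, p'')`, are edges `Tr v c e`.  With `tail`: invariant for
the end `z` of the path: `RF v ∅ c e x z`, or there are `p1, p2` with `RF v ∅ c e x (c, false, p1)`,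
`Rch (WE W) (Tr v c e) (false, p1) (true, p2)` and `RF v ∅ c e (c, true, p2) z`.
`rch_rf`: every edge of `WE W` is a reflection, every edge `Tr` a path (`rf_mono` from `∅`).
-/

set_option autoImplicit false

namespace Pool.Agent.P0036f5d

open Relation Pool.Agent.P0036f5v2 Pool.Agent.P0036f5w Pool.Agent.P0036f5g Pool.Agent.P0036f5k
  Pool.Agent.P0036f5b Classical

variable {Q : Type}

namespace DecompAux

theorem mem_WE [Finite Q] {W : Set (Q × Q)} {x y : Bool × Q} :
    (x, y) ∈ WE W ↔ ∃ p p', (p, p') ∈ W ∧ x = (false, p) ∧ y = (true, p') := by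
  unfold WE
  rw [Set.Finite.mem_toFinset]
  constructor
  · rintro ⟨⟨p, p'⟩, h1, h2⟩
    rw [Prod.mk.injEq] at h2
    exact ⟨p, p', h1, h2.1.symm, h2.2.symm⟩
  · rintro ⟨p, p', h1, rfl, rfl⟩
    exact ⟨(p, p'), h1, rfl⟩

end DecompAux

open DecompAux

theorem decomp [Finite Q] {v : ℕ → CR Q} {W : Set (Q × Q)} {c e : ℕ} {x y : Nd Q}
    (h : RF v W c e x y) : RF v ∅ c e x y ∨ ∃ p1 p2, RF v ∅ c e x (c, false, p1) ∧
      Rch (WE W) (Tr v c e) (false, p1) (true, p2) ∧ RF v ∅ c e (c, true, p2) y := by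
  induction h with
  | refl => exact Or.inl ReflTransGen.refl
  | @tail z w _ hs ih =>
    rcases hs with hs | ⟨p, p', rfl, rfl, hp⟩
    · rcases ih with h1 | ⟨p1, p2, h1, h2, h3⟩
      · exact Or.inl (ReflTransGen.tail h1 (Or.inl hs))
      · exact Or.inr ⟨p1, p2, h1, h2, ReflTransGen.tail h3 (Or.inl hs)⟩
    · have hE : ((false, p), (true, p')) ∈ WE W := mem_WE.2 ⟨p, p', hp, rfl, rfl⟩
      rcases ih with h1 | ⟨p1, p2, h1, h2, h3⟩
      · exact Or.inr ⟨p, p', h1, ReflTransGen.single (Or.inl hE), ReflTransGen.refl⟩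
      · exact Or.inr ⟨p1, p', h1, ReflTransGen.tail
          (ReflTransGen.tail h2 (Or.inr ⟨rfl, rfl, h3⟩)) (Or.inl hE), ReflTransGen.refl⟩

theorem rch_rf [Finite Q] {v : ℕ → CR Q} {W : Set (Q × Q)} {E : Finset ((Bool × Q) × (Bool × Q))}
    (hE : E ⊆ WE W) {c e : ℕ} {x y : Bool × Q} (h : Rch E (Tr v c e) x y) :
    RF v {t | (((false, t.1), (true, t.2)) : (Bool × Q) × (Bool × Q)) ∈ E} c e
      (c, x) (c, y) := by
  induction h with
  | refl => exact ReflTransGen.refl
  | @tail z w _ hs ih =>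
    rcases hs with hs | ⟨h1, h2, h3⟩
    · obtain ⟨p, p', _, h1, h2⟩ := mem_WE.1 (hE hs)
      subst h1
      subst h2
      exact ReflTransGen.tail ih (Or.inr ⟨p, p', rfl, rfl, hs⟩)
    · obtain ⟨z1, z2⟩ := z
      obtain ⟨w1, w2⟩ := w
      simp only at h1 h2 h3
      subst h1
      subst h2
      exact ReflTransGen.trans ih (rf_mono (Set.empty_subset _) h3)

end Pool.Agent.P0036f5d
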