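import Pool.Agent.Lib.P0036f5d.TDefs

/-!
# D16: numerics (proved below)

Let `L = Nat.log 2 n + 1` (`n < 2 ^ L`, `3 ≤ L ≤ n`, `L ^ 2 ≤ 4 n`), `l = Nat.log 2 (k + 1) + 1`
(`k + 1 < 2 ^ l`, `l ≤ 2 L + 1`), `K ≤ 2 ^ (L + 1)`, `K ^ 2 + 1 ≤ 2 ^ (2 L + 3)`.  Take
`mx = l + (L + 1) + (2 L + 3) m + 1 ≤ 5 L (m + 2)` and `κ = 6 L + 15 ≤ 11 L`.
(Numerical check: the true factor is at most 195 instead of 3000.)
* `ND k m K + 1 ≤ 2 ^ mx`.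
* `mx + 1 ≤ 30 n ^ 3 ≤ 2 ^ (3 L + 5)` (`m ≤ 4 n ^ 2`, `L ≤ n`), `ℓ = (mx + 1) K ^ 2 ≤ 2 ^ (5 L + 7)`,
  `LK 2 mx K + 1 = 4 + 8 (mx + ℓ) ≤ 2 ^ (5 L + 12)`, `V = VK 2 mx K ≤ 2 ^ (6 L + 13) ≤ 2 ^ κ`;
  `cK = (2 V) ^ κ ≤ 2 ^ ((κ + 1) κ) ≤ 2 ^ (132 L ^ 2)`, `(4 K) ^ κ ≤ 2 ^ ((L + 3) κ) ≤ 2 ^ (22 L ^ 2)`,
  `zB ≤ 2 ^ (155 L ^ 2) ≤ 2 ^ (620 n)`.
* `2 BK ≤ 2 ^ (mx + 5 L + 8)`, `μ, a ≤ 2 ^ L`, `ND ≤ 2 ^ mx`; with `E = 3 mx + 6 L + 12`: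
  `mD d ≤ 2 ^ (620 n + 1 + d * E)` by induction on `d`
  (`mD (d + 1) ≤ zB + 2 B μ N ^ 2 (2 mD d + 1)`, two or three extra factors `2` per step are in `E`).
* `TD ≤ 2 ^ (2 mx + 4 + 620 n + l E)` (for `d = l`), `szD ≤ 2 ^ (620 n + l E + 5 mx + 30 L + 40)`; all this is
  `≤ 2 ^ (3000 (n + m L) l)` as `E ≤ 15 L m + 50 L`, `L ≤ n`, `1 ≤ l`.
Compare `P0036f5b/Num.lean`.
-/

set_option autoImplicit false

namespace Pool.Agent.P0036f5d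

open Relation Pool.Agent.P0036f5v2 Pool.Agent.P0036f5w Pool.Agent.P0036f5g Pool.Agent.P0036f5k
  Pool.Agent.P0036f5b Classical

namespace NumAux

private theorem mul2 {a b i j : ℕ} (h1 : a ≤ 2 ^ i) (h2 : b ≤ 2 ^ j) : a * b ≤ 2 ^ (i + j) := by
  rw [pow_add]
  exact Nat.mul_le_mul h1 h2

private theorem add2 {a b i : ℕ} (h1 : a ≤ 2 ^ i) (h2 : b ≤ 2 ^ i) : a + b ≤ 2 ^ (i + 1) := by
  rw [pow_succ]
  omega

private theorem mono2 {a i j : ℕ} (h : a ≤ 2 ^ i) (hij : i ≤ j) : a ≤ 2 ^ j :=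
  h.trans (Nat.pow_le_pow_right (by norm_num) hij)

private theorem sq_le (l : ℕ) : l ^ 2 ≤ 2 ^ (l + 1) := by
  rcases Nat.lt_or_ge l 3 with h | h
  · interval_cases l <;> norm_num
  · induction l, h using Nat.le_induction with
    | base => norm_num
    | succ l hl ih =>
      have h1 : (l + 1) ^ 2 ≤ 2 * l ^ 2 := by nlinarith
      calc (l + 1) ^ 2 ≤ 2 * l ^ 2 := h1
        _ ≤ 2 * 2 ^ (l + 1) := Nat.mul_le_mul_left _ ih
        _ = 2 ^ (l + 1 + 1) := by ring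

private theorem logn {n : ℕ} (hn : 4 ≤ n) : n < 2 ^ (Nat.log 2 n + 1) ∧
    3 ≤ Nat.log 2 n + 1 ∧ Nat.log 2 n + 1 ≤ n ∧ (Nat.log 2 n + 1) ^ 2 ≤ 4 * n := by
  refine ⟨Nat.lt_pow_succ_log_self (by norm_num) n, ?_, ?_, ?_⟩
  · have h1 : Nat.log 2 4 ≤ Nat.log 2 n := Nat.log_mono_right hn
    have h2 : Nat.log 2 4 = 2 := by
      have : (4 : ℕ) = 2 ^ 2 := by norm_num
      rw [this, Nat.log_pow (by norm_num)]
    omega
  · have h1 : Nat.log 2 n < n := Nat.log_lt_self 2 (by omega)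
    omega
  · have h1 : 2 ^ Nat.log 2 n ≤ n := Nat.pow_log_le_self 2 (by omega)
    have h2 := sq_le (Nat.log 2 n + 1)
    have h3 : 2 ^ (Nat.log 2 n + 1 + 1) = 4 * 2 ^ Nat.log 2 n := by ring
    omega

private theorem logk {k n L : ℕ} (hL : n < 2 ^ L) (hk : k ≤ n ^ 2) :
    k + 1 < 2 ^ (Nat.log 2 (k + 1) + 1) ∧ Nat.log 2 (k + 1) + 1 ≤ 2 * L + 1 := by
  refine ⟨Nat.lt_pow_succ_log_self (by norm_num) _, ?_⟩
  have h1 : k + 1 ≤ 2 ^ (2 * L) := by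
    have h2 : n + 1 ≤ 2 ^ L := hL
    calc k + 1 ≤ (n + 1) ^ 2 := by nlinarith
      _ ≤ (2 ^ L) ^ 2 := Nat.pow_le_pow_left h2 2
      _ = 2 ^ (2 * L) := by rw [← pow_mul, Nat.mul_comm]
  have h2 := Nat.log_mono_right (b := 2) h1
  rw [Nat.log_pow (by norm_num)] at h2
  omega

/-- the bound for the cost of a test -/
private theorem mD_le {N mx K κ μ n L b : ℕ} (hz : zB mx K κ ≤ 2 ^ (620 * n))
    (hB : 2 * BK mx K ≤ 2 ^ b) (hN : N ≤ 2 ^ mx) (hμ : μ ≤ 2 ^ L) (d : ℕ) :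
    mD N mx K κ μ d ≤ 2 ^ (620 * n + 1 + d * (2 * mx + b + L + 3)) := by
  induction d with
  | zero => exact mono2 hz (by omega)
  | succ d ih =>
    have e1 : mD N mx K κ μ (d + 1) = zB mx K κ +
        2 * BK mx K * (μ * (N * (N * (2 * mD N mx K κ μ d + 1)))) := rfl
    rw [e1]
    generalize he : 620 * n + 1 + d * (2 * mx + b + L + 3) = e at ih
    have he1 : 620 * n + 1 ≤ e := by
      rw [← he]
      exact Nat.le_add_right _ _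
    have h1 : 2 * mD N mx K κ μ d + 1 ≤ 2 ^ (e + 2) := by
      have h2 : (2 : ℕ) ^ (e + 2) = 4 * 2 ^ e := by ring
      have h3 : 1 ≤ 2 ^ e := Nat.one_le_two_pow
      omega
    have h2 := mul2 hB (mul2 hμ (mul2 hN (mul2 hN h1)))
    have h3 : zB mx K κ ≤ 2 ^ (b + (L + (mx + (mx + (e + 2))))) := mono2 hz (by omega)
    refine mono2 (add2 h3 h2) ?_
    have h4 : 620 * n + 1 + (d + 1) * (2 * mx + b + L + 3) = e + (2 * mx + b + L + 3) := by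
      rw [← he]
      ring
    omega

private theorem szD_le {N mx K κ μ L b c a x d : ℕ} (hB : 2 * BK mx K ≤ 2 ^ b) (hb : 2 ≤ b)
    (hN : N ≤ 2 ^ mx) (ha : a ≤ 2 ^ L) (hm : mD N mx K κ μ d ≤ 2 ^ x)
    (hc : cK 2 mx K κ ≤ 2 ^ c) (hcx : c ≤ x) :
    szD N mx K κ μ d a ≤ 2 ^ (3 * b + 2 * mx + x + L + 14) := by
  have E1 : L + 6 ≤ b + (b + (2 * mx + x + 3) + 1 + (b + 1)) + 1 + 1 + (L + 6) := by omega
  have E2 : b + (b + (2 * mx + x + 3) + 1 + (b + 1)) + 1 + 1 + (L + 6) + 1 ≤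
      3 * b + 2 * mx + x + L + 14 := by omega
  have h1 : (1 : ℕ) ≤ 2 ^ x := Nat.one_le_two_pow
  have hT : TD N mx K κ μ d ≤ 2 ^ (2 * mx + x + 3) := by
    unfold TD
    have h2 : N * (1 + mD N mx K κ μ d) ≤ 2 ^ (mx + (x + 1)) := mul2 hN (add2 h1 hm)
    have h3 : 2 * cK 2 mx K κ ≤ 2 ^ (1 + c) := mul2 (show 2 ≤ 2 ^ 1 by norm_num) hc
    have h4 : N * (1 + N * mD N mx K κ μ d) ≤ 2 ^ (mx + ((mx + x) + 1)) :=
      mul2 hN (add2 Nat.one_le_two_pow (mul2 hN hm))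
    have h5 := add2 (mono2 h2 (show mx + (x + 1) ≤ 2 * mx + x + 1 by omega))
      (mono2 h3 (show 1 + c ≤ 2 * mx + x + 1 by omega))
    exact mono2 (add2 h5 (mono2 h4 (show mx + ((mx + x) + 1) ≤ 2 * mx + x + 1 + 1 by omega)))
      (by omega)
  unfold szD
  generalize TD N mx K κ μ d = T at hT ⊢
  generalize 2 * BK mx K = B at hB ⊢
  have h2 : B * 4 ≤ 2 ^ (b + 2) := mul2 hB (show 4 ≤ 2 ^ 2 by norm_num)
  have h3 : 4 + 2 + B * T ≤ 2 ^ (b + (2 * mx + x + 3) + 1) := by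
    refine add2 ?_ (mul2 hB hT)
    exact mono2 (show 4 + 2 ≤ 2 ^ 3 by norm_num) (by omega)
  have h4 : B + 3 ≤ 2 ^ (b + 1) :=
    add2 hB (mono2 (show 3 ≤ 2 ^ 2 by norm_num) hb)
  have h5 := mul2 hB (mul2 h3 h4)
  have h6 := add2 (mono2 h2 (show b + 2 ≤ b + (b + (2 * mx + x + 3) + 1 + (b + 1)) by omega)) h5
  have h7 := add2 h6 (Nat.one_le_two_pow)
  have h8 : 5 * a * 4 + 5 * a + 17 ≤ 2 ^ (L + 6) := by
    have h9 : (2 : ℕ) ^ (L + 6) = 64 * 2 ^ L := by ring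
    have h10 : 1 ≤ 2 ^ L := Nat.one_le_two_pow
    omega
  have h9 : a * 4 + 2 * a + 4 ≤ 2 ^ (L + 6) := by
    have h9 : (2 : ℕ) ^ (L + 6) = 64 * 2 ^ L := by ring
    have h10 : 1 ≤ 2 ^ L := Nat.one_le_two_pow
    omega
  have h10 := mul2 h7 h8
  exact mono2 (add2 h10 (mono2 h9 E1)) E2

end NumAux

open NumAux

theorem num_mainD {k m n K a μ : ℕ} (hn : 4 ≤ n) (hK : K ≤ 2 * n) (ha : a ≤ n) (hμ : μ ≤ n)
    (hk : k ≤ n ^ 2) (hm : m ≤ 4 * n ^ 2) : ∃ κ mx, VK 2 mx K ≤ 2 ^ κ ∧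
      ND k m K + 1 ≤ 2 ^ mx ∧
      szD (ND k m K) mx K κ μ (Nat.log 2 (k + 1) + 1) a ≤
        2 ^ (3000 * (n + m * (Nat.log 2 n + 1)) * (Nat.log 2 (k + 1) + 1)) := by
  obtain ⟨hL1, hL2, hL3, hL4⟩ := logn hn
  generalize Nat.log 2 n + 1 = L at hL1 hL2 hL3 hL4 ⊢
  obtain ⟨hl1, hl2⟩ := logk hL1 hk
  have hl3 : 1 ≤ Nat.log 2 (k + 1) + 1 := by omega
  generalize Nat.log 2 (k + 1) + 1 = l at hl1 hl2 hl3 ⊢
  have hK1 : K ≤ 2 ^ (L + 1) := by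
    have : (2 : ℕ) ^ (L + 1) = 2 * 2 ^ L := by ring
    omega
  have hKK : K * K ≤ 2 ^ (2 * L + 2) := by
    have := mul2 hK1 hK1
    exact mono2 this (by omega)
  have hKK1 : K * K + 1 ≤ 2 ^ (2 * L + 3) := add2 hKK Nat.one_le_two_pow
  obtain ⟨mx, hmx⟩ : ∃ mx, mx = l + (L + 1) + (2 * L + 3) * m + 1 := ⟨_, rfl⟩
  have hLm : mx ≤ 4 * L + 3 * (m * L) := by
    have h1 : (2 * L + 3) * m ≤ (3 * L) * m := Nat.mul_le_mul_right _ (by omega)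
    have h2 : (3 * L) * m = 3 * (m * L) := by ring
    omega
  -- `ND`
  have hND : ND k m K + 1 ≤ 2 ^ mx := by
    unfold ND
    have h1 : (K * K + 1) ^ m ≤ 2 ^ ((2 * L + 3) * m) := by
      rw [pow_mul]
      exact Nat.pow_le_pow_left hKK1 m
    have h2 := add2 (mul2 hl1.le (mul2 hK1 h1)) (Nat.one_le_two_pow)
    exact mono2 h2 (by omega)
  have hmx1 : mx + 1 ≤ 2 ^ (3 * L + 4) := by
    have h1 : m * L ≤ 4 * n ^ 3 := by
      calc m * L ≤ (4 * n ^ 2) * n := Nat.mul_le_mul hm hL3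
        _ = 4 * n ^ 3 := by ring
    have h2 : 4 * n + 1 ≤ 4 * n ^ 3 := by
      have h3 : 16 ≤ n ^ 2 := by nlinarith
      have h4 : n * 16 ≤ n * n ^ 2 := Nat.mul_le_mul_left _ h3
      have h5 : n * n ^ 2 = n ^ 3 := by ring
      omega
    calc mx + 1 ≤ 16 * n ^ 3 := by omega
      _ ≤ 16 * (2 ^ L) ^ 3 := Nat.mul_le_mul_left _ (Nat.pow_le_pow_left hL1.le 3)
      _ = 2 ^ (3 * L + 4) := by
        rw [pow_add, ← pow_mul, Nat.mul_comm L 3]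
        norm_num
        ring
  have hℓ : ℓK mx K ≤ 2 ^ (5 * L + 6) := by
    unfold ℓK
    exact mono2 (mul2 hmx1 hKK) (by omega)
  have hLK : LK 2 mx K + 1 ≤ 2 ^ (5 * L + 11) := by
    unfold LK
    have h1 : mx ≤ 2 ^ (5 * L + 6) := mono2 ((Nat.le_succ mx).trans hmx1) (by omega)
    have h2 := add2 h1 hℓ
    have h3 : (2 : ℕ) ^ (5 * L + 11) = 16 * 2 ^ (5 * L + 6 + 1) := by ring
    have h4 : 1 ≤ 2 ^ (5 * L + 6 + 1) := Nat.one_le_two_pow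
    omega
  have hV : VK 2 mx K ≤ 2 ^ (6 * L + 15) := by
    unfold VK
    exact mono2 (mul2 hLK hK1) (by omega)
  refine ⟨6 * L + 15, mx, hV, hND, ?_⟩
  have hc : cK 2 mx K (6 * L + 15) ≤ 2 ^ (132 * L ^ 2) := by
    unfold cK
    have h1 : 2 * VK 2 mx K ≤ 2 ^ (6 * L + 16) := by
      have : (2 : ℕ) ^ (6 * L + 16) = 2 * 2 ^ (6 * L + 15) := by ring
      omega
    calc (2 * VK 2 mx K) ^ (6 * L + 15) ≤ (2 ^ (6 * L + 16)) ^ (6 * L + 15) :=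
          Nat.pow_le_pow_left h1 _
      _ = 2 ^ ((6 * L + 16) * (6 * L + 15)) := by rw [← pow_mul]
      _ ≤ 2 ^ (132 * L ^ 2) := by
        refine Nat.pow_le_pow_right (by norm_num) ?_
        calc (6 * L + 16) * (6 * L + 15) ≤ (12 * L) * (11 * L) :=
              Nat.mul_le_mul (by omega) (by omega)
          _ = 132 * L ^ 2 := by ring
  have h4K : (2 * (2 * K)) ^ (6 * L + 15) ≤ 2 ^ (22 * L ^ 2) := by
    have h1 : 2 * (2 * K) ≤ 2 ^ (L + 3) := by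
      have : (2 : ℕ) ^ (L + 3) = 4 * 2 ^ (L + 1) := by ring
      omega
    calc (2 * (2 * K)) ^ (6 * L + 15) ≤ (2 ^ (L + 3)) ^ (6 * L + 15) :=
          Nat.pow_le_pow_left h1 _
      _ = 2 ^ ((L + 3) * (6 * L + 15)) := by rw [← pow_mul]
      _ ≤ 2 ^ (22 * L ^ 2) := by
        refine Nat.pow_le_pow_right (by norm_num) ?_
        calc (L + 3) * (6 * L + 15) ≤ (2 * L) * (11 * L) :=
              Nat.mul_le_mul (by omega) (by omega)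
          _ = 22 * L ^ 2 := by ring
  have hz : zB mx K (6 * L + 15) ≤ 2 ^ (620 * n) := by
    unfold zB
    have h1 : 1 + K * K ≤ 2 ^ (2 * L + 3) := by omega
    refine mono2 (mul2 h1 (mul2 h4K hc)) ?_
    have h2 : 3 * L ≤ L ^ 2 := by nlinarith
    omega
  have hB : 2 * BK mx K ≤ 2 ^ (mx + 5 * L + 7) := by
    unfold BK
    have h1 := mul2 (a := 2) (i := 1) (by norm_num) (mul2 (le_refl (2 ^ mx)) hℓ)
    exact mono2 h1 (by omega)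
  have hN : ND k m K ≤ 2 ^ mx := (Nat.le_succ _).trans hND
  have hmD := mD_le (κ := 6 * L + 15) hz hB hN (hμ.trans hL1.le) l
  have hsz := szD_le (c := 132 * L ^ 2) hB (by omega) hN (ha.trans hL1.le) hmD hc (by omega)
  refine mono2 hsz ?_
  have e1 : l * (2 * mx + (mx + 5 * L + 7) + L + 3) ≤ l * (22 * n + 9 * (m * L)) :=
    Nat.mul_le_mul_left _ (by omega)
  have e2 : 3000 * (n + m * L) * l = l * (22 * n + 9 * (m * L)) +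
      l * (2978 * n + 2991 * (m * L)) := by ring
  have e3 : 1 * (2978 * n + 2991 * (m * L)) ≤ l * (2978 * n + 2991 * (m * L)) :=
    Nat.mul_le_mul_right _ hl3
  rw [e2]
  omega

end Pool.Agent.P0036f5d
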