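import Pool.Agent.Lib.P0036f5d.PDefs

/-!
# D9: one cell

Facts about `R : Run S w`, `j ≤ K`, all marks `f i`, `i < j`, are `< c`:
for `j < i ≤ K` the node `R.st i` is at `f (i - 1)` or `f (i - 1) + 1`, and `f (i - 1) ≥ f j = e j`.
* `pass_init`: `hp` and `h0`.
* `pass_un` (`c < e j`, `c < w.length`, `c` is not marked): the phase `j`: `RF R.v W c (e j) (c, true, p)
  (e j, true, pe j)`; by `rf_first` at the boundary `c + 1 ≤ e j` there is `p'` with
  `RF R.v W c (c + 1) (c, true, p) (c + 1, true, p')` and `RF R.v W c (e j) (c + 1, true, p') …`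
  (if `e j = c + 1` take `p' = pe j`; the alternative of `rf_first` gives that); then `rf_cut` gives the
  path with the table `tab R.v W c (c + 1)` from the boundary `c + 1`.  Phases `i > j`: `rf_cut`, as
  `c + 1 ≤ f (i - 1) ≤ (R.st i).1`.  The step: `R.v c = vr S w c = S.L0 a`, so by `sg_shift`, `sg_congr`
  (or `rf_shift`) `Sg (fun _ => S.L0 a) 0 1 (j, p, W) (j, p', tab R.v W c (c + 1))`.
* `pass_mk` (`c = f j`, `j < K`): the phase `j` is `RF R.v W c c (c, true, p) (c, true, pe j)`, so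
  `p = pe j` (`rf_self_true`).  `hst j` gives `a, d, q`.  The phase `j + 1` starts at
  `(if d then c + 1 else c, d, q)` and ends at `e (j + 1) ≥ c + 1`: for `d = true` put `p' = q` and use
  `rf_cut` (`x.1 = c + 1`); for `d = false` use `rf_first` at the boundary `c + 1` (as above) and
  `rf_cut`.  Phases `i > j + 1`: `rf_cut`.  `Mc` with `R.v c = S.L2 (μ j)` and `rf_shift`, `rf_congr`.
-/

set_option autoImplicit false

namespace Pool.Agent.P0036f5d

open Relation Pool.Agent.P0036f5v2 Pool.Agent.P0036f5w Pool.Agent.P0036f5g Pool.Agent.P0036f5k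
  Pool.Agent.P0036f5b Classical

variable {A Q M : Type}

namespace PassSAux

theorem rf_cell {v : ℕ → CR Q} {c : ℕ} {L : CR Q} (hL : v c = L) {T : Set (Q × Q)} {x y : Nd Q} :
    RF (fun _ => L) T 0 1 x y ↔ RF v T c (c + 1) (c + x.1, x.2) (c + y.1, y.2) := by
  rw [rf_congr (v := fun _ => L) (v' := fun i => v (c + i)) (T := T) (a := 0) (b := 1) (by
    intro i _ h2
    have h3 : i = 0 := by omega
    subst h3
    exact hL.symm)]
  exact rf_shift (a := 0) (b := 1)

theorem tab_cell {v : ℕ → CR Q} {c : ℕ} {L : CR Q} (hL : v c = L) {T : Set (Q × Q)} :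
    tab (fun _ => L) T 0 1 = tab v T c (c + 1) := by
  ext t
  exact rf_cell hL (x := (1, false, t.1)) (y := (1, true, t.2))

theorem first {v : ℕ → CR Q} {T : Set (Q × Q)} {c e : ℕ} (he : c + 1 ≤ e) {x : Nd Q} {q : Q}
    (hx : x.1 ≤ c + 1) (h : RF v T c e x (e, true, q)) :
    ∃ p', RF v T c (c + 1) x (c + 1, true, p') ∧
      RF v (tab v T c (c + 1)) (c + 1) e (c + 1, true, p') (e, true, q) := by
  rcases RFcAux.rf_first (Nat.le_succ c) he hx h with ⟨h1, h2⟩ | ⟨q1, h1, h2⟩
  · have h3 : e = c + 1 := le_antisymm h1 he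
    subst h3
    exact ⟨q, h2, ReflTransGen.refl⟩
  · exact ⟨q1, h1, RFcAux.rf_cut (Nat.le_succ c) he (le_refl _) he h2⟩

variable {S : FS A Q M} {w : List A}

theorem f_mono (R : Run S w) {i j : ℕ} (hij : i ≤ j) (hj : j < R.K) : R.f i ≤ R.f j := by
  rcases Nat.lt_or_ge i j with h | h
  · exact (R.hf i j h hj).le
  · have : i = j := le_antisymm hij h
    rw [this]

theorem st_ge (R : Run S w) {i : ℕ} (hi : i < R.K) : R.f i ≤ (R.st (i + 1)).1 := by
  obtain ⟨a, d, q, _, _, h⟩ := R.hst i hi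
  rw [h]
  show R.f i ≤ if d = true then R.f i + 1 else R.f i
  split_ifs
  · exact Nat.le_succ _
  · exact le_refl _

/-- the phases after the phase `m` -/
theorem later (R : Run S w) {c m : ℕ} {T : Set (Q × Q)} (hc : c < w.length) {i : ℕ} (hmi : m < i)
    (hi : i ≤ R.K) (hm : c + 1 ≤ R.f m)
    (h : RF R.v T c (R.e i) (R.st i) (R.e i, true, R.pe i)) :
    RF R.v (tab R.v T c (c + 1)) (c + 1) (R.e i) (R.st i) (R.e i, true, R.pe i) := by
  obtain ⟨k, rfl⟩ : ∃ k, i = k + 1 := ⟨i - 1, by omega⟩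
  have hk : k < R.K := by omega
  have h1 : c + 1 ≤ R.f k := hm.trans (f_mono R (by omega) hk)
  have h2 : c + 1 ≤ R.e (k + 1) := by
    rcases Nat.lt_or_ge (k + 1) R.K with h3 | h3
    · rw [R.he _ h3]
      have := R.hf k (k + 1) (Nat.lt_succ_self k) h3
      omega
    · have h4 : k + 1 = R.K := le_antisymm hi h3
      rw [h4, R.heK]
      omega
  exact RFcAux.rf_cut (Nat.le_succ c) h2 (h1.trans (st_ge R hk)) h2 h

end PassSAux

open PassSAux

theorem pass_init {S : FS A Q M} {w : List A} (R : Run S w) : Pass R 0 0 S.p0 S.E0 := by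
  intro i _ hi
  have h := R.hp i hi
  by_cases h0 : i = 0
  · subst h0
    rw [if_pos rfl, ← R.h0]
    exact h
  · rw [if_neg h0]
    exact h

theorem pass_un {S : FS A Q M} {w : List A} (R : Run S w) {c j : ℕ} (hj : j ≤ R.K)
    (hc : c < w.length) (h1 : ∀ i < j, R.f i < c) (h2 : c < R.e j)
    {p : Q} {W : Set (Q × Q)} (h : Pass R c j p W) :
    ∃ a p', w[c]? = some a ∧
      Sg (fun _ => S.L0 a) 0 1 (j, p, W) (j, p', tab R.v W c (c + 1)) ∧
      Pass R (c + 1) j p' (tab R.v W c (c + 1)) := by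
  have hun : ∀ i < R.K, c ≠ R.f i := by
    intro i hi hci
    rcases Nat.lt_or_ge i j with h3 | h3
    · have := h1 i h3
      omega
    · have hjK : j < R.K := by omega
      rw [R.he j hjK] at h2
      have := f_mono R h3 hi
      omega
  have hw : w[c]? = some w[c] := List.getElem?_eq_getElem hc
  have hL : R.v c = S.L0 w[c] := by
    rw [R.hv2 c hun]
    unfold vr
    rw [hw]
  have hj0 := h j (le_refl j) hj
  rw [if_pos rfl] at hj0
  obtain ⟨p', h3, h4⟩ := first h2 (Nat.le_succ c) hj0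
  refine ⟨w[c], p', hw, ⟨rfl, ?_, ?_⟩, ?_⟩
  · exact (rf_cell hL (x := (0, true, p)) (y := (1, true, p'))).2 h3
  · show tab R.v W c (c + 1) ⊆ tab (fun _ => S.L0 w[c]) W 0 1
    rw [tab_cell hL]
  · intro i hji hiK
    rcases Nat.eq_or_lt_of_le hji with h5 | h5
    · subst h5
      rw [if_pos rfl]
      exact h4
    · have h6 : i ≠ j := by omega
      have h7 := h i hji hiK
      rw [if_neg h6] at h7 ⊢
      have hjK : j < R.K := by omega
      refine later R hc h5 hiK ?_ h7
      rw [← R.he j hjK]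
      exact h2

theorem pass_mk {S : FS A Q M} {w : List A} (R : Run S w) {c j : ℕ} (hj : j < R.K)
    (hc : R.f j = c) {p : Q} {W : Set (Q × Q)} (h : Pass R c j p W) :
    ∃ a p', w[c]? = some a ∧ Mc S a (R.μ j) (j, p, W) (j + 1, p', tab R.v W c (c + 1)) ∧
      Pass R (c + 1) (j + 1) p' (tab R.v W c (c + 1)) := by
  subst hc
  have hj0 := h j (le_refl j) hj.le
  rw [if_pos rfl, R.he j hj] at hj0
  have hp := RFaAux.rf_self_true hj0
  simp only [Prod.mk.injEq] at hp
  have hpp : R.pe j = p := hp.2.2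
  obtain ⟨a, d, q, ha, hL1, hst⟩ := R.hst j hj
  have hcl := R.hfl j hj
  have he : R.f j + 1 ≤ R.e (j + 1) := by
    rcases Nat.lt_or_ge (j + 1) R.K with h3 | h3
    · rw [R.he _ h3]
      exact R.hf j (j + 1) (Nat.lt_succ_self j) h3
    · have h4 : j + 1 = R.K := le_antisymm hj h3
      rw [h4, R.heK]
      omega
  have hj1 := h (j + 1) (Nat.le_succ j) hj
  rw [if_neg (by omega)] at hj1
  have hx : (R.st (j + 1)).1 ≤ R.f j + 1 := by
    rw [hst]
    show (if d = true then R.f j + 1 else R.f j) ≤ R.f j + 1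
    split_ifs
    · exact le_refl _
    · exact Nat.le_succ _
  obtain ⟨p', h3, h4⟩ := first he hx hj1
  have hL : R.v (R.f j) = S.L2 (R.μ j) := R.hv1 j hj
  refine ⟨a, p', ha, ⟨rfl, ⟨d, q, ?_, ?_⟩, ?_⟩, ?_⟩
  · rw [← hpp]
    exact hL1
  · refine (rf_cell hL (x := (if d = true then 1 else 0, d, q)) (y := (1, true, p'))).2 ?_
    have h5 : ((R.f j + (if d = true then 1 else 0), d, q) : Nd Q) = R.st (j + 1) := by
      rw [hst]
      split_ifs <;> rfl
    show RF R.v W (R.f j) (R.f j + 1) ((R.f j + (if d = true then 1 else 0), d, q) : Nd Q)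
      (R.f j + 1, true, p')
    rw [h5]
    exact h3
  · show tab R.v W (R.f j) (R.f j + 1) ⊆ tab (fun _ => S.L2 (R.μ j)) W 0 1
    rw [tab_cell hL]
  · intro i hji hiK
    rcases Nat.eq_or_lt_of_le hji with h5 | h5
    · subst h5
      rw [if_pos rfl]
      exact h4
    · have h6 : i ≠ j + 1 := by omega
      have h7 := h i (by omega) hiK
      rw [if_neg (by omega)] at h7
      rw [if_neg h6]
      have hjK : j + 1 < R.K := by omega
      exact later R hcl h5 hiK (R.hf j (j + 1) (Nat.lt_succ_self j) hjK) h7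

end Pool.Agent.P0036f5d
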