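import Pool.Agent.Lib.P0036f5d.MinE
import Pool.Agent.Lib.P0036f5d.CntA
import Pool.Agent.Lib.P0036f5d.CntC
import Pool.Agent.Lib.P0036f5d.Crit

/-!
# Sparse sets of edges for `k` demands in growing graphs
-/

set_option autoImplicit false

namespace Pool.Agent.P0036f5d

open Relation Classical

/-- Every set `W` of edges has a subset with at most `mS |V| k` elements that still satisfies `k`
demands in growing graphs. -/
theorem sparse {V : Type} [Finite V] (k : ℕ) (T : ℕ → V → V → Prop)
    (hT : ∀ i j, i ≤ j → ∀ x y, T i x y → T j x y) (a b : ℕ → V) (W : Finset (V × V))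
    (h : ∀ q < k, Rch W (T q) (a q) (b q)) :
    ∃ W' ⊆ W, W'.card ≤ mS (Nat.card V) k ∧ ∀ q < k, Rch W' (T q) (a q) (b q) := by
  obtain ⟨Z, rfl, rfl, rfl, rfl, hZ⟩ := exists_minSys k T hT a b W h
  refine ⟨Z.W, hZ, le_min ?_ (card_leA Z), Z.dem⟩
  have h1 := card_leC Z
  have h2 : (Z.W.filter fun e => Z.Inn e).card ≤ 2 * Nat.card V :=
    crit_card Z.T Z.mono Z.W _ (Finset.filter_subset _ _) fun e he => by
      rw [Finset.mem_filter] at he
      exact ⟨Z.ph e, he.2, inn_crit Z he.1⟩
  have h3 := Finset.card_filter_add_card_filter_not (s := Z.W) (p := fun e => Z.Inn e)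
  omega

end Pool.Agent.P0036f5d
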