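import Pool.Agent.Lib.P0036f5d.Decomp
import Pool.Agent.Lib.P0036f5d.Sparse

/-!
# D8: small tables

Use `sparse` with `V = Bool × Q` (`Nat.card V = 2 * Nat.card Q`), the relations `T i = Tr v c (e i)`
(growing, as `RF v ∅ c (e i)` grows with `e i`: `rf_wide`), and the set `WE W`.  For `i < k` take the
decomposition of `decomp`: if it is `RF v ∅ c (e i) (x i) (y i)` the demand is trivial
(`a i = b i = (false, (x i).2.2)`), otherwise `a i = (false, p1)`, `b i = (true, p2)`.  The result `E ⊆ WE W`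
gives `W' = {t | ((false, t.1), (true, t.2)) ∈ E} ⊆ W`, with `W'.ncard ≤ E.card` (injection), and the paths
by `rch_rf` and `rf_mono` from `∅`.
-/

set_option autoImplicit false

namespace Pool.Agent.P0036f5d

open Relation Pool.Agent.P0036f5v2 Pool.Agent.P0036f5w Pool.Agent.P0036f5g Pool.Agent.P0036f5k
  Pool.Agent.P0036f5b Classical

variable {Q : Type}

namespace ShrinkAux

/-- what is needed in the phase `i` -/
theorem dem [Finite Q] {v : ℕ → CR Q} {c e : ℕ} {x y : Nd Q} {W : Set (Q × Q)}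
    (h : RF v W c e x y) : ∃ a b : Bool × Q, Rch (WE W) (Tr v c e) a b ∧
      ∀ E ⊆ WE W, Rch E (Tr v c e) a b →
        RF v {t | (((false, t.1), (true, t.2)) : (Bool × Q) × (Bool × Q)) ∈ E} c e x y := by
  rcases decomp h with h1 | ⟨p1, p2, h1, h2, h3⟩
  · exact ⟨(false, x.2.2), (false, x.2.2), ReflTransGen.refl,
      fun E _ _ => rf_mono (Set.empty_subset _) h1⟩
  · refine ⟨(false, p1), (true, p2), h2, fun E hE h4 => ?_⟩
    exact (rf_mono (Set.empty_subset _) h1).trans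
      ((rch_rf hE h4).trans (rf_mono (Set.empty_subset _) h3))

theorem mem_WE' [Finite Q] {W : Set (Q × Q)} {t : Q × Q}
    (h : (((false, t.1), (true, t.2)) : (Bool × Q) × (Bool × Q)) ∈ WE W) : t ∈ W := by
  unfold WE at h
  rw [Set.Finite.mem_toFinset] at h
  obtain ⟨⟨p, p'⟩, h1, h2⟩ := h
  simp only [Prod.mk.injEq, true_and] at h2
  obtain ⟨h3, h4⟩ := h2
  subst h3
  subst h4
  exact h1

end ShrinkAux

open ShrinkAux

theorem shrink [Finite Q] {v : ℕ → CR Q} {c k : ℕ} {e : ℕ → ℕ} (he : ∀ i j, i ≤ j → e i ≤ e j)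
    {x y : ℕ → Nd Q} {W : Set (Q × Q)} (h : ∀ i < k, RF v W c (e i) (x i) (y i)) :
    ∃ W' ⊆ W, W'.ncard ≤ mS (2 * Nat.card Q) k ∧ ∀ i < k, RF v W' c (e i) (x i) (y i) := by
  by_cases hk : k = 0
  · subst hk
    exact ⟨∅, Set.empty_subset _, by simp, fun i hi => absurd hi (Nat.not_lt_zero i)⟩
  have hne : Nonempty (Bool × Q) := ⟨(false, (x 0).2.2)⟩
  have h0 : ∀ i, ∃ a b : Bool × Q, i < k → (Rch (WE W) (Tr v c (e i)) a b ∧
      ∀ E ⊆ WE W, Rch E (Tr v c (e i)) a b →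
        RF v {t | (((false, t.1), (true, t.2)) : (Bool × Q) × (Bool × Q)) ∈ E} c (e i) (x i)
          (y i)) := by
    intro i
    by_cases hi : i < k
    · obtain ⟨a, b, h1, h2⟩ := dem (h i hi)
      exact ⟨a, b, fun _ => ⟨h1, h2⟩⟩
    · obtain ⟨z⟩ := hne
      exact ⟨z, z, fun h => absurd h hi⟩
  choose a b hab using h0
  obtain ⟨E, hE, hc, hE2⟩ := sparse k (fun i => Tr v c (e i))
    (fun i j hij x y hx => ⟨hx.1, hx.2.1, RFcAux.rf_wide (he i j hij) hx.2.2⟩) a b (WE W)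
    (fun q hq => (hab q hq).1)
  have hcard : Nat.card (Bool × Q) = 2 * Nat.card Q := by
    rw [Nat.card_prod]
    simp
  rw [hcard] at hc
  refine ⟨{t | (((false, t.1), (true, t.2)) : (Bool × Q) × (Bool × Q)) ∈ E}, ?_, ?_, ?_⟩
  · intro t ht
    exact mem_WE' (hE ht)
  · refine le_trans ?_ hc
    rw [← Set.ncard_coe_finset E]
    refine Set.ncard_le_ncard_of_injOn
      (fun t : Q × Q => (((false, t.1), (true, t.2)) : (Bool × Q) × (Bool × Q)))
      (fun t ht => ht) ?_ (Finset.finite_toSet E)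
    rintro ⟨t1, t2⟩ _ ⟨s1, s2⟩ _ hts
    simp only [Prod.mk.injEq, true_and] at hts
    rw [hts.1, hts.2]
  · intro i hi
    exact (hab i hi).2 E hE (hE2 i hi)

end Pool.Agent.P0036f5d
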