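import Pool.Agent.Lib.P0036f5d.ToRun
import Pool.Agent.Lib.P0036f5d.Shrink
import Pool.Agent.Lib.P0036f5d.PassS

/-!
# D10: paths of informations with small tables

Let `R` be the computation of `exists_run`, `K = R.K = x.1 ≤ k`, `m = mS (2 * Nat.card Q) (k + 1)`.
* `pass_shrink`: from `Pass R c j p W` (`j ≤ K`) one gets `W' ⊆ W`, `W'.ncard ≤ m`, `Pass R c j p W'`: `shrink`
  with `k + 1` demands: `e' i = R.e (min i K)` (monotone by `he`, `hf`, `hfl`, `heK`), for `j ≤ i ≤ K` the
  ends of the demand of `Pass`, otherwise a trivial demand `x i = y i`.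
* By recursion on `c ≤ w.length` choose `(j, p, W)` with: `j ≤ K`, `∀ i < j, R.f i < c`,
  `∀ i, j ≤ i → i < K → c ≤ R.f i`, `W.ncard ≤ m`, `Pass R c j p W`; start: `j = 0`, `pass_init` and
  `pass_shrink` (`Sle (ini S) (0, p0, W')`).  Step: if `j < K` and `R.f j = c`: `pass_mk`; otherwise
  `c < R.e j` (`R.e j = R.f j` or `w.length + 1`): `pass_un`; then `pass_shrink` and `st_mono` (the
  information `(j, p, W')` is weaker: `Sle`).  Use `exists_seq`-like dependent choice: e.g. prove
  `∀ n ≤ w.length, ∃ y : ℕ → Inf Q, …` for paths of length `n` by induction, extending `y` by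
  `Function.update`.
* At `c = w.length`: `j = K` (all marks are `< w.length`), `Pass` for `i = K` is
  `RF R.v W n (n + 1) (n, true, p) (n + 1, true, R.pe K)`, `R.v n = vr S w n = S.Lr`: shifted, this is `Ac`
  with `R.hF`.
-/

set_option autoImplicit false

namespace Pool.Agent.P0036f5d

open Relation Pool.Agent.P0036f5v2 Pool.Agent.P0036f5w Pool.Agent.P0036f5g Pool.Agent.P0036f5k
  Pool.Agent.P0036f5b Classical

variable {A Q M : Type}

namespace SPathAux

variable {S : FS A Q M} {w : List A}

theorem e_mono (R : Run S w) {i j : ℕ} (hij : i ≤ j) (hj : j ≤ R.K) : R.e i ≤ R.e j := by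
  rcases Nat.eq_or_lt_of_le hij with h | h
  · rw [h]
  · have hi : i < R.K := lt_of_lt_of_le h hj
    rw [R.he i hi]
    rcases Nat.eq_or_lt_of_le hj with h1 | h1
    · rw [h1, R.heK]
      have := R.hfl i hi
      omega
    · rw [R.he j h1]
      exact (R.hf i j h h1).le

theorem pass_shrink [Finite Q] (R : Run S w) {k : ℕ} (hK : R.K ≤ k) {c j : ℕ} {p : Q}
    {W : Set (Q × Q)} (h : Pass R c j p W) :
    ∃ W' ⊆ W, W'.ncard ≤ mS (2 * Nat.card Q) (k + 1) ∧ Pass R c j p W' := by
  obtain ⟨W', h1, h2, h3⟩ := shrink (v := R.v) (c := c) (k := k + 1)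
    (e := fun i => R.e (min i R.K))
    (fun i i' hi => e_mono R (min_le_min_right _ hi) (min_le_right _ _))
    (x := fun i => if j ≤ i ∧ i ≤ R.K then (if i = j then (c, true, p) else R.st i)
      else (0, true, p))
    (y := fun i => if j ≤ i ∧ i ≤ R.K then (R.e i, true, R.pe i) else (0, true, p))
    (W := W) (by
      intro i _
      by_cases hi : j ≤ i ∧ i ≤ R.K
      · simp only [if_pos hi]
        rw [min_eq_left hi.2]
        exact h i hi.1 hi.2
      · simp only [if_neg hi]
        exact ReflTransGen.refl)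
  refine ⟨W', h1, h2, fun i hij hiK => ?_⟩
  have h4 := h3 i (by omega)
  have hi : j ≤ i ∧ i ≤ R.K := ⟨hij, hiK⟩
  simp only [if_pos hi] at h4
  rw [min_eq_left hi.2] at h4
  exact h4

theorem path [Finite Q] (R : Run S w) {k : ℕ} (hK : R.K ≤ k) (n : ℕ) (hn : n ≤ w.length) :
    ∃ y : ℕ → Inf Q, Sle (ini S) (y 0) ∧
      (∀ c ≤ n, (y c).2.2.ncard ≤ mS (2 * Nat.card Q) (k + 1)) ∧
      (∀ c < n, ∃ a, w[c]? = some a ∧ St S a (y c) (y (c + 1))) ∧
      (y n).1 ≤ R.K ∧ (∀ i < (y n).1, R.f i < n) ∧ (∀ i, (y n).1 ≤ i → i < R.K → n ≤ R.f i) ∧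
      Pass R n (y n).1 (y n).2.1 (y n).2.2 := by
  induction n with
  | zero =>
    obtain ⟨W', h1, h2, h3⟩ := pass_shrink R hK (pass_init R)
    refine ⟨fun _ => (0, S.p0, W'), ⟨rfl, rfl, h1⟩, fun _ _ => h2,
      fun c hc => absurd hc (Nat.not_lt_zero c), Nat.zero_le _,
      fun i hi => absurd hi (Nat.not_lt_zero i), fun _ _ _ => Nat.zero_le _, h3⟩
  | succ n ih =>
    obtain ⟨y, h1, h2, h3, h4, h5, h6, h7⟩ := ih (by omega)
    have hnl : n < w.length := by omega
    obtain ⟨a, z, ha, hS, hc, hz1, hz2, hz3, hz4⟩ : ∃ (a : A) (z : Inf Q), w[n]? = some a ∧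
        St S a (y n) z ∧ z.2.2.ncard ≤ mS (2 * Nat.card Q) (k + 1) ∧ z.1 ≤ R.K ∧
        (∀ i < z.1, R.f i < n + 1) ∧ (∀ i, z.1 ≤ i → i < R.K → n + 1 ≤ R.f i) ∧
        Pass R (n + 1) z.1 z.2.1 z.2.2 := by
      by_cases hmk : (y n).1 < R.K ∧ R.f (y n).1 = n
      · obtain ⟨a, p', ha, hM, hP⟩ := pass_mk R hmk.1 hmk.2 h7
        obtain ⟨W', hW1, hW2, hW3⟩ := pass_shrink R hK hP
        refine ⟨a, ((y n).1 + 1, p', W'), ha, ?_, hW2, hmk.1, ?_, ?_, hW3⟩
        · exact st_mono (sle_refl _) (Or.inr ⟨R.μ (y n).1, hM⟩) ⟨rfl, rfl, hW1⟩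
        · intro i hi
          have hi' : i < (y n).1 + 1 := hi
          rcases Nat.lt_or_ge i (y n).1 with h8 | h8
          · have := h5 i h8
            omega
          · have : i = (y n).1 := by omega
            rw [this, hmk.2]
            exact Nat.lt_succ_self n
        · intro i hi hiK
          have hi' : (y n).1 + 1 ≤ i := hi
          have := R.hf (y n).1 i (by omega) hiK
          rw [hmk.2] at this
          exact this
      · have he : n < R.e (y n).1 := by
          rcases Nat.eq_or_lt_of_le h4 with h8 | h8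
          · rw [h8, R.heK]
            omega
          · rw [R.he _ h8]
            have h9 := h6 _ (le_refl _) h8
            have h10 : R.f (y n).1 ≠ n := fun h => hmk ⟨h8, h⟩
            omega
        obtain ⟨a, p', ha, hM, hP⟩ := pass_un R h4 hnl h5 he h7
        obtain ⟨W', hW1, hW2, hW3⟩ := pass_shrink R hK hP
        refine ⟨a, ((y n).1, p', W'), ha, ?_, hW2, h4, ?_, ?_, hW3⟩
        · exact st_mono (sle_refl _) (Or.inl hM) ⟨rfl, rfl, hW1⟩
        · intro i hi
          have := h5 i hi
          omega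
        · intro i hi hiK
          have h9 := h6 i hi hiK
          have h10 : R.f i ≠ n := by
            intro h11
            rcases Nat.eq_or_lt_of_le (show (y n).1 ≤ i from hi) with h12 | h12
            · exact hmk ⟨h12 ▸ hiK, h12 ▸ h11⟩
            · have h13 := R.hf (y n).1 i h12 hiK
              have h14 := h6 _ (le_refl _) (h12.trans hiK)
              omega
          omega
    refine ⟨Function.update y (n + 1) z, ?_, ?_, ?_, ?_⟩
    · rw [Function.update_of_ne (by omega)]
      exact h1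
    · intro c hc'
      rcases Nat.lt_or_ge c (n + 1) with h8 | h8
      · rw [Function.update_of_ne (by omega)]
        exact h2 c (by omega)
      · have : c = n + 1 := by omega
        rw [this, Function.update_self]
        exact hc
    · intro c hc'
      rcases Nat.lt_or_ge c n with h8 | h8
      · rw [Function.update_of_ne (by omega), Function.update_of_ne (by omega)]
        exact h3 c h8
      · have : c = n := by omega
        rw [this, Function.update_self, Function.update_of_ne (by omega)]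
        exact ⟨a, ha, hS⟩
    · rw [Function.update_self]
      exact ⟨hz1, hz2, hz3, hz4⟩

end SPathAux

open SPathAux

private theorem spt_of_lb' [Finite Q] [Nonempty M] {S : FS A Q M} {w : List A} {k : ℕ}
    (h : w ∈ Lb S k) : SPt S w k (mS (2 * Nat.card Q) (k + 1)) := by
  obtain ⟨x, hx, hxk, hA⟩ := h
  obtain ⟨R, hR⟩ := exists_run hx hA
  have hK : R.K ≤ k := hR ▸ hxk
  obtain ⟨y, h1, h2, h3, h4, -, h6, h7⟩ := path R hK w.length (le_refl _)
  have hyK : (y w.length).1 = R.K := by
    by_contra hne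
    have h8 : (y w.length).1 < R.K := lt_of_le_of_ne h4 hne
    have h9 := h6 _ (le_refl _) h8
    have h10 := R.hfl _ h8
    omega
  refine ⟨y, h1, h2, h3, h4.trans hK, R.pe R.K, R.hF, ?_⟩
  have h8 := h7 R.K h4 (le_refl _)
  rw [hyK, if_pos rfl, R.heK] at h8
  have hv : R.v w.length = S.Lr := by
    rw [R.hv2 w.length (fun i hi => (R.hfl i hi).ne')]
    unfold vr
    rw [List.getElem?_eq_none (le_refl _)]
  exact (PassSAux.rf_cell hv (x := (0, true, (y w.length).2.1)) (y := (1, true, R.pe R.K))).2 h8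

theorem spt_of_lb [Finite Q] {S : FS A Q M} {w : List A} {k : ℕ} (h : w ∈ Lb S k) :
    SPt S w k (mS (2 * Nat.card Q) (k + 1)) := by
  rcases isEmpty_or_nonempty M with hM | hM
  · have h1 : w ∈ Lb (addM S) k := by
      rw [lb_addM]
      exact h
    exact spt_addM.1 (spt_of_lb' h1)
  · exact spt_of_lb' h

end Pool.Agent.P0036f5d
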