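import Pool.Agent.Lib.P0036f5d.Prog
import Pool.Agent.Lib.P0036f5d.Codes
import Pool.Agent.Lib.P0036f5d.Num
import Pool.Agent.Lib.P0036f5d.SPath
import Pool.Agent.Lib.P0036f5b.Main

/-!
# The upper bounds by small tables
-/

set_option autoImplicit false

namespace Pool.Agent.P0036f5d

open Relation Pool.Agent.P0036f5v2 Pool.Agent.P0036f5w Pool.Agent.P0036f5g Pool.Agent.P0036f5k
  Pool.Agent.P0036f5b

/-- the factor in the exponent of the upper bound -/
def FD (n k : ℕ) : ℕ := min (n + k * Nat.sqrt n) (k + n * (Nat.sqrt k + 1))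

/-- Determinisation of the language of a local system with at most `k` marks, small tables. -/
theorem upper_fsD {A Q M : Type} [Finite A] [Finite Q] [Finite M] [Nonempty M] (S : FS A Q M)
    (k n : ℕ) (hn : 4 ≤ n) (hQ : Nat.card Q ≤ n) (hA : Nat.card A ≤ n) (hM : Nat.card M ≤ n)
    (hk : k ≤ n ^ 2) :
    ∃ D : LA A, D.toMach.Det ∧ (∀ cv, D.toMach.lang cv = Lb S k) ∧
      D.toMach.size ≤ 2 ^ (3000 * (n + mS (2 * Nat.card Q) (k + 1) * (Nat.log 2 n + 1)) *
        (Nat.log 2 (k + 1) + 1)) := by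
  have nQ : Nonempty Q := ⟨S.p0⟩
  have hQ0 : 0 < Nat.card Q := Nat.card_pos
  set m := min (mS (2 * Nat.card Q) (k + 1)) (Nat.card Q * Nat.card Q) with hm
  have hm2 : m ≤ 4 * n ^ 2 := by
    have h1 : m ≤ Nat.card Q * Nat.card Q := min_le_right _ _
    have h2 : Nat.card Q * Nat.card Q ≤ n * n := Nat.mul_le_mul hQ hQ
    nlinarith
  obtain ⟨κ, mx, hκ, hN, hsz⟩ := num_mainD (k := k) (n := n) (m := m) (K := 2 * Nat.card Q)
    (a := Nat.card A) (μ := Nat.card M) hn (by omega) hA hM hk hm2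
  obtain ⟨ρ, π, h1, h2, h3⟩ := exists_enum Q
  obtain ⟨info, h4, h5⟩ := exists_infoD Q k m
  obtain ⟨mks, h6⟩ := exists_marks M
  let Z : PD A Q M := ⟨S, k, m, ND k m (2 * Nat.card Q), mx, 2 * Nat.card Q, ρ, π, info, mks, κ,
    Nat.log 2 (k + 1) + 1, Nat.card M⟩
  have hd : k < 2 ^ (Nat.log 2 (k + 1) + 1) := by
    have := Nat.lt_pow_succ_log_self (b := 2) (by norm_num) (k + 1)
    omega
  have hZ : Z.Ok := ⟨by show 0 < 2 * Nat.card Q; omega, h1, h2, h3, h4, h5, h6, hκ, hN, hd⟩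
  have hS : ∀ w, w ∈ Lb Z.S Z.k → SPt Z.S w Z.k Z.m := by
    intro w hw
    obtain ⟨y, g1, g2, g3, g4, g5⟩ := spt_of_lb hw
    refine ⟨y, g1, fun c hc => le_min (g2 c hc) ?_, g3, g4, g5⟩
    have e1 : (y c).2.2.ncard ≤ Nat.card (Q × Q) := Set.ncard_le_card _
    rwa [Nat.card_prod] at e1
  obtain ⟨D, hD, hL, hs⟩ := PD.exists_det hZ hS
  refine ⟨D, hD, hL, (hs.trans hsz).trans (Nat.pow_le_pow_right (by norm_num) ?_)⟩
  exact Nat.mul_le_mul_right _ (Nat.mul_le_mul_left _ (Nat.add_le_add_left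
    (Nat.mul_le_mul_right _ (min_le_left _ _)) _))

theorem mS_le {q k n : ℕ} (hn : 4 ≤ n) (hq : q ≤ n) :
    n + mS (2 * q) (k + 1) ≤ 10 * FD n k := by
  set s := Nat.sqrt n with hs
  set r := Nat.sqrt k with hr
  have hs2 : 2 ≤ s := by
    rw [hs, Nat.le_sqrt']
    omega
  have hss : s * s ≤ n := Nat.sqrt_le n
  have h2s : 2 * s ≤ n := le_trans (Nat.mul_le_mul_right _ hs2) hss
  have h1 : Nat.sqrt (2 * q) ≤ 2 * s + 1 := by
    have h2 : Nat.sqrt (2 * q) < 2 * s + 2 := by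
      rw [Nat.sqrt_lt']
      have h3 : n < (s + 1) * (s + 1) := Nat.lt_succ_sqrt n
      nlinarith
    omega
  have h4 : Nat.sqrt (2 * (k + 1)) ≤ 2 * r + 2 := by
    have h2 : Nat.sqrt (2 * (k + 1)) < 2 * r + 3 := by
      rw [Nat.sqrt_lt']
      have h3 : k < (r + 1) * (r + 1) := Nat.lt_succ_sqrt k
      nlinarith
    omega
  unfold FD
  rw [← hs, ← hr, ← Nat.mul_min_mul_left]
  refine le_min ?_ ?_
  · have h5 : mS (2 * q) (k + 1) ≤ 3 * (2 * q) + (k + 1) * (Nat.sqrt (2 * q) + 1) :=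
      min_le_left _ _
    have h6 : (k + 1) * (Nat.sqrt (2 * q) + 1) ≤ (k + 1) * (3 * s) :=
      Nat.mul_le_mul_left _ (by omega)
    have h7 : (k + 1) * (3 * s) = 3 * (k * s) + 3 * s := by ring
    have h8 : 10 * (n + k * s) = 10 * n + 10 * (k * s) := by ring
    omega
  · have h5 : mS (2 * q) (k + 1) ≤ (k + 1) + 2 * q * (Nat.sqrt (2 * (k + 1)) + 1) :=
      min_le_right _ _
    have h6 : 2 * q * (Nat.sqrt (2 * (k + 1)) + 1) ≤ 2 * n * (3 * (r + 1)) :=
      Nat.mul_le_mul (by omega) (by omega)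
    have h7 : 2 * n * (3 * (r + 1)) = 6 * (n * (r + 1)) := by ring
    have h8 : 10 * (k + n * (r + 1)) = 10 * k + 10 * (n * (r + 1)) := by ring
    have h9 : n * 1 ≤ n * (r + 1) := Nat.mul_le_mul_left _ (by omega)
    omega

theorem sq_le_FD {k n : ℕ} (hn : 4 ≤ n) (hk : n ^ 2 < k) : n ^ 2 ≤ FD n k := by
  have hs2 : 1 ≤ Nat.sqrt n := by
    rw [Nat.le_sqrt']
    omega
  unfold FD
  refine le_min ?_ (by omega)
  have : k * 1 ≤ k * Nat.sqrt n := Nat.mul_le_mul_left _ hs2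
  omega

/-- A machine of size at most `n` that changes at most `k` cells has an equivalent deterministic
1-limited automaton of size at most `2 ^ (30000 (log₂ n + 1) (log₂ (k + 1) + 1) FD n k)`. -/
theorem upper_sm {A : Type} [Finite A] (M : LA A) (cv : Bool) (k n : ℕ)
    (hM : FewWrites M.toMach cv k) (hn : 4 ≤ n) (hs : M.toMach.size ≤ n) :
    ∃ D : LA A, D.toMach.Det ∧ D.toMach.lang cv = M.toMach.lang cv ∧
      D.toMach.size ≤ 2 ^ (30000 * (Nat.log 2 n + 1) * (Nat.log 2 (k + 1) + 1) * FD n k) := by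
  have fQ := M.finQ
  have fW := M.finW
  have hc := card_sym A M.W
  have hsize : Nat.card M.Q + Nat.card A + Nat.card (Sym A M.W) ≤ n := by
    refine le_trans ?_ hs
    unfold Mach.size
    omega
  by_cases hk : k ≤ n ^ 2
  · rcases isEmpty_or_nonempty (A ⊕ M.W) with he | he
    · have hA : IsEmpty A := ⟨fun a => he.elim (Sum.inl a)⟩
      obtain ⟨D, hD, hL, hsz⟩ := upper_few M cv 0 n (few_of_isEmpty M.toMach cv) hn hs
      refine ⟨D, hD, hL cv, hsz.trans (Nat.pow_le_pow_right (by norm_num) ?_)⟩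
      have h1 : n ≤ FD n k := by
        unfold FD
        refine le_min (by omega) ?_
        have : n * 1 ≤ n * (Nat.sqrt k + 1) := Nat.mul_le_mul_left _ (by omega)
        omega
      have h2 : 1 * 1 ≤ (Nat.log 2 n + 1) * (Nat.log 2 (k + 1) + 1) :=
        Nat.mul_le_mul (by omega) (by omega)
      have h3 : (Nat.log 2 n + 1) * (Nat.log 2 (k + 1) + 1) * FD n k ≥ 1 * n :=
        Nat.mul_le_mul (by omega) h1
      have h4 : 30000 * (Nat.log 2 n + 1) * (Nat.log 2 (k + 1) + 1) * FD n k =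
        30000 * ((Nat.log 2 n + 1) * (Nat.log 2 (k + 1) + 1) * FD n k) := by ring
      omega
    · obtain ⟨D, hD, hL, hsz⟩ := upper_fsD (fs M.toMach) k n hn (by omega) (by omega) (by
        rw [Nat.card_sum]
        omega) hk
      refine ⟨D, hD, by rw [hL cv, lang_fs M.toMach cv k hM],
        hsz.trans (Nat.pow_le_pow_right (by norm_num) ?_)⟩
      have h1 := mS_le (q := Nat.card M.Q) (k := k) hn (by omega)
      set L := Nat.log 2 n + 1 with hL'
      set l := Nat.log 2 (k + 1) + 1 with hl'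
      set m := mS (2 * Nat.card M.Q) (k + 1) with hm'
      have h2 : n + m * L ≤ (n + m) * L := by
        have : n * 1 ≤ n * L := Nat.mul_le_mul_left _ (by omega)
        rw [Nat.add_mul]
        omega
      calc 3000 * (n + m * L) * l ≤ 3000 * ((n + m) * L) * l :=
            Nat.mul_le_mul_right _ (Nat.mul_le_mul_left _ h2)
        _ = 3000 * L * l * (n + m) := by ring
        _ ≤ 3000 * L * l * (10 * FD n k) := Nat.mul_le_mul_left _ h1
        _ = 30000 * L * l * FD n k := by ring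
  · obtain ⟨D, hD, hL, hsz⟩ := upper_many M cv k n hM hn hs
    refine ⟨D, hD, hL, hsz.trans (Nat.pow_le_pow_right (by norm_num) ?_)⟩
    have h1 := sq_le_FD hn (not_le.1 hk)
    set L := Nat.log 2 n + 1 with hL'
    set l := Nat.log 2 (k + 1) + 1 with hl'
    calc 1000 * n ^ 2 * l ≤ 1000 * FD n k * l :=
          Nat.mul_le_mul_right _ (Nat.mul_le_mul_left _ h1)
      _ = 1000 * l * FD n k * 1 := by ring
      _ ≤ 1000 * l * FD n k * (30 * L) := Nat.mul_le_mul_left _ (by omega)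
      _ = 30000 * L * l * FD n k := by ring

theorem costsSm_le {cv : Bool} {k n s : ℕ} (hn : 4 ≤ n)
    (h : s ∈ costsFor (fun _ M => FewWrites M cv k) cv n) :
    s ≤ 2 ^ (30000 * (Nat.log 2 n + 1) * (Nat.log 2 (k + 1) + 1) * FD n k) := by
  obtain ⟨A, fA, M, hM, hs, hl⟩ := h
  obtain ⟨D, hD, hL, hsz⟩ := upper_sm M cv k n hM hn hs
  exact (hl.2 ⟨D, hD, hL, rfl⟩).trans hsz

end Pool.Agent.P0036f5d
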