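import Pool.Agent.Lib.P0036f5d.RDefs

/-!
# D1: a minimal system exists

Among the subsets `W' ⊆ W` that satisfy all demands take one of minimal cardinality
(`Finset.exists_min_image` on `W.powerset.filter …`, or strong induction on the cardinality).  For
`e ∈ W'` the set `W'.erase e` is smaller, so some demand `q < k` fails for it; `ph e` is the least such
`q` (`Nat.find`; `ph e = 0` for `e ∉ W'`).
-/

set_option autoImplicit false

namespace Pool.Agent.P0036f5d

open Relation Classical

namespace MinEAux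

/-- the first demand that fails without `e` -/
noncomputable def fph {V : Type} (k : ℕ) (T : ℕ → V → V → Prop) (a b : ℕ → V)
    (W : Finset (V × V)) (e : V × V) : ℕ :=
  if h : ∃ q, q < k ∧ ¬ Rch (W.erase e) (T q) (a q) (b q) then Nat.find h else 0

end MinEAux

open MinEAux

theorem exists_minSys {V : Type} (k : ℕ) (T : ℕ → V → V → Prop)
    (hT : ∀ i j, i ≤ j → ∀ x y, T i x y → T j x y) (a b : ℕ → V) (W : Finset (V × V))
    (h : ∀ q < k, Rch W (T q) (a q) (b q)) :
    ∃ Z : MinSys V, Z.k = k ∧ Z.T = T ∧ Z.a = a ∧ Z.b = b ∧ Z.W ⊆ W := by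
  have h1 : (W.powerset.filter fun W' => ∀ q < k, Rch W' (T q) (a q) (b q)).Nonempty :=
    ⟨W, Finset.mem_filter.2 ⟨Finset.mem_powerset.2 (Finset.Subset.refl W), h⟩⟩
  obtain ⟨W', hW', hmin⟩ := Finset.exists_min_image _ Finset.card h1
  obtain ⟨hs, hd⟩ := Finset.mem_filter.1 hW'
  have hs' := Finset.mem_powerset.1 hs
  have hex : ∀ e ∈ W', ∃ q, q < k ∧ ¬ Rch (W'.erase e) (T q) (a q) (b q) := by
    intro e he
    by_contra hc
    have h2 : ∀ q < k, Rch (W'.erase e) (T q) (a q) (b q) := by
      intro q hq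
      by_contra h3
      exact hc ⟨q, hq, h3⟩
    have h4 := hmin (W'.erase e) (Finset.mem_filter.2
      ⟨Finset.mem_powerset.2 ((Finset.erase_subset e W').trans hs'), h2⟩)
    have h5 := Finset.card_erase_lt_of_mem he
    omega
  have hph : ∀ e (he : e ∈ W'), fph k T a b W' e = Nat.find (hex e he) := by
    intro e he
    unfold fph
    rw [dif_pos (hex e he)]
  refine ⟨⟨k, T, a, b, W', fph k T a b W', hT, hd, ?_, ?_, ?_⟩, rfl, rfl, rfl, rfl, hs'⟩
  · intro e he
    rw [hph e he]
    exact (Nat.find_spec (hex e he)).1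
  · intro e he
    rw [hph e he]
    exact (Nat.find_spec (hex e he)).2
  · intro e he q hq
    rw [hph e he] at hq
    have h2 := Nat.find_min (hex e he) hq
    have h3 := (Nat.find_spec (hex e he)).1
    by_contra h4
    exact h2 ⟨hq.trans h3, h4⟩

end Pool.Agent.P0036f5d
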