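import Pool.Agent.Lib.P0036f5d.RDefs

/-!
# D2: order of the edges of a minimal system

Write `G q` for `Rch Z.W (Z.T q)` and `G' e q` for `Rch (Z.W.erase e) (Z.T q)`; `q = ph e`.
* `rch_mono`: more edges. `rch_or`: induction on the path (last use of `e`): either the path avoids `e` or
  `G e.2 y` and (first use) `x` reaches `e.1` without `e`, and (last use) `e.2` reaches `y` without `e`.
* `src`: the path `a q → b q` must use `e` (`ph_need`), so `a q` reaches `e.1` without `e`.  `tgt` dually.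
* `bf_or`: suppose `f.1` is reached from `a` without `e` and `e.1` is reached from `a` without `f`.  By `tgt`
  for `f`, `f.2` reaches `b` without `f`; if this path also avoided `e` then `a → f.1 → f.2 → b` avoids
  `e`, contradiction to `ph_need e`; so it uses `e`, and its part after the last use of `e` leads from
  `e.2` to `b` without `e` and without `f`.  Then `a → e.1 → e.2 → b` avoids `f`: contradiction to
  `ph_need f`.
* `bf_asymm`: `a` reaches `e.1` without `e` (`src`); as `Bf f e` this path uses `f`, so its first part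
  reaches `f.1` without `e`, contradiction to `Bf e f`.
* `src_ne`: if `e.1 = f.1` then `src` gives `¬ Bf e f` and `¬ Bf f e`, contradiction to `bf_or`.
* `bf_path`: `e, f` of the phase `q`, `Bf e f`, and `g ∈ W` of a later phase (`q < ph g`): by `ph_min` the
  demand `q` holds in `W.erase g`; that path uses `f` (it is needed even in `W`), so `a → f.1` in
  `W.erase g`; this path uses `e` by `Bf e f`; the part after the last use of `e`, together with `e`
  itself (`e ≠ g`), leads from `e.1` to `f.1` without `g`.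
* `bf_rch`: `a → f.1` in `W` (`src f`) uses `e`.
* `bf_rev`: if `Bf e' f'` then `bf_path` with `g = e` gives `e'.1 → f'.1` without `e` in the phase `ph e'`,
  hence (`mono`) in the phase `ph e`; with `src e`: `a → e.1 = e'.1 → f'.1 = f.1` without `e`,
  contradiction to `Bf e f`.
* `inn_of`: `e` not inner, `Bf e f`; if `f.1` reached back `e.1` then, as `a → e.1 → f.1`... precisely: the
  path `e.1 → f.1` in `W`: if it avoids `e`, then `a → f.1` avoids `e`, contradiction.  Otherwise
  `e.2 → f.1` (`bf_rch` gives this directly) and `f.1 → e.1` give `Inn e`.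
-/

set_option autoImplicit false

namespace Pool.Agent.P0036f5d

open Relation Classical

variable {V : Type}

theorem rch_mono {W W' : Finset (V × V)} {T T' : V → V → Prop} (hW : W ⊆ W')
    (hT : ∀ x y, T x y → T' x y) {x y : V} (h : Rch W T x y) : Rch W' T' x y := by
  unfold Rch at h ⊢
  exact Relation.ReflTransGen.mono
    (fun a b (hab : (a, b) ∈ W ∨ T a b) =>
      (Or.imp (fun h' => hW h') (fun h' => hT a b h') hab : (a, b) ∈ W' ∨ T' a b)) _ _ h

/-- a path either avoids `e` or uses it; first and last use -/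
theorem rch_or {W : Finset (V × V)} {T : V → V → Prop} (e : V × V) {x y : V} (h : Rch W T x y) :
    Rch (W.erase e) T x y ∨
      (Rch (W.erase e) T x e.1 ∧ e ∈ W ∧ Rch (W.erase e) T e.2 y) := by
  unfold Rch at h
  induction h with
  | refl => exact Or.inl ReflTransGen.refl
  | tail hxb hbc ih =>
    rename_i b c
    by_cases hec : (b, c) = e
    · subst hec
      by_cases heW : (b, c) ∈ W
      · refine Or.inr ⟨?_, heW, ?_⟩
        · rcases ih with h1 | ⟨h1, -, -⟩
          · exact h1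
          · exact h1
        · exact ReflTransGen.refl
      · have hT : T b c := by
          rcases hbc with h1 | h1
          · exact absurd h1 heW
          · exact h1
        rcases ih with h1 | ⟨h1, h2, h3⟩
        · exact Or.inl (h1.tail (Or.inr hT))
        · exact Or.inr ⟨h1, h2, h3.tail (Or.inr hT)⟩
    · have hst : (b, c) ∈ W.erase e ∨ T b c := by
        rcases hbc with h1 | h1
        · exact Or.inl (Finset.mem_erase.2 ⟨hec, h1⟩)
        · exact Or.inr h1
      rcases ih with h1 | ⟨h1, h2, h3⟩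
      · exact Or.inl (h1.tail hst)
      · exact Or.inr ⟨h1, h2, h3.tail hst⟩

namespace MinFAux

theorem monoW {W W' : Finset (V × V)} {T : V → V → Prop} (hW : W ⊆ W') {x y : V}
    (h : Rch W T x y) : Rch W' T x y := rch_mono hW (fun _ _ h' => h') h

theorem edge {W : Finset (V × V)} {T : V → V → Prop} {e : V × V} (he : e ∈ W) :
    Rch W T e.1 e.2 := ReflTransGen.single (Or.inl he)

theorem trans {W : Finset (V × V)} {T : V → V → Prop} {x y z : V} (h : Rch W T x y)
    (h' : Rch W T y z) : Rch W T x z := ReflTransGen.trans h h'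

theorem erase2 {W : Finset (V × V)} {e f : V × V} : (W.erase e).erase f ⊆ W.erase f :=
  Finset.erase_subset_erase f (Finset.erase_subset e W)

theorem erase1 {W : Finset (V × V)} {e f : V × V} : (W.erase e).erase f ⊆ W.erase e :=
  Finset.erase_subset f (W.erase e)

end MinFAux

open MinFAux

theorem src (Z : MinSys V) {e : V × V} (he : e ∈ Z.W) :
    Rch (Z.W.erase e) (Z.T (Z.ph e)) (Z.a (Z.ph e)) e.1 := by
  rcases rch_or e (Z.dem (Z.ph e) (Z.ph_lt e he)) with h | ⟨h, -, -⟩
  · exact absurd h (Z.ph_need e he)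
  · exact h

theorem tgt (Z : MinSys V) {e : V × V} (he : e ∈ Z.W) :
    Rch (Z.W.erase e) (Z.T (Z.ph e)) e.2 (Z.b (Z.ph e)) := by
  rcases rch_or e (Z.dem (Z.ph e) (Z.ph_lt e he)) with h | ⟨-, -, h⟩
  · exact absurd h (Z.ph_need e he)
  · exact h

theorem bf_or (Z : MinSys V) {e f : V × V} (he : e ∈ Z.W) (hf : f ∈ Z.W) (hne : e ≠ f)
    (hp : Z.ph e = Z.ph f) : Z.Bf e f ∨ Z.Bf f e := by
  by_contra hcon
  rw [not_or] at hcon
  obtain ⟨h1, h2⟩ := hcon
  unfold MinSys.Bf at h1 h2
  rw [not_not] at h1 h2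
  rw [← hp] at h2
  have h3 := tgt Z hf
  rw [← hp] at h3
  have hfe : f ∈ Z.W.erase e := Finset.mem_erase.2 ⟨fun h => hne h.symm, hf⟩
  have hef : e ∈ Z.W.erase f := Finset.mem_erase.2 ⟨hne, he⟩
  rcases rch_or e h3 with h4 | ⟨-, -, h4⟩
  · exact Z.ph_need e he (trans (trans h1 (edge hfe)) (monoW erase2 h4))
  · have h5 := Z.ph_need f hf
    rw [← hp] at h5
    exact h5 (trans (trans h2 (edge hef)) (monoW erase1 h4))

theorem bf_asymm (Z : MinSys V) {e f : V × V} (he : e ∈ Z.W) (hf : f ∈ Z.W)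
    (hp : Z.ph e = Z.ph f) (h : Z.Bf e f) : ¬ Z.Bf f e := by
  unfold MinSys.Bf at h ⊢
  rw [not_not, ← hp]
  rcases rch_or f (src Z he) with h1 | ⟨h1, -, -⟩
  · exact monoW erase2 h1
  · exact absurd (monoW erase1 h1) h

theorem src_ne (Z : MinSys V) {e f : V × V} (he : e ∈ Z.W) (hf : f ∈ Z.W)
    (hp : Z.ph e = Z.ph f) (hs : e.1 = f.1) : e = f := by
  by_contra hne
  rcases bf_or Z he hf hne hp with h | h
  · apply h
    rw [← hs]
    exact src Z he
  · apply h
    rw [hs]
    exact src Z hf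

theorem bf_rch (Z : MinSys V) {e f : V × V} (he : e ∈ Z.W) (hf : f ∈ Z.W)
    (hp : Z.ph e = Z.ph f) (h : Z.Bf e f) : Rch Z.W (Z.T (Z.ph e)) e.2 f.1 := by
  have h1 := src Z hf
  rw [← hp] at h1
  rcases rch_or e (monoW (Finset.erase_subset f Z.W) h1) with h2 | ⟨-, -, h2⟩
  · exact absurd h2 h
  · exact monoW (Finset.erase_subset e Z.W) h2

theorem bf_path (Z : MinSys V) {e f g : V × V} (he : e ∈ Z.W) (hf : f ∈ Z.W) (hg : g ∈ Z.W)
    (hp : Z.ph e = Z.ph f) (h : Z.Bf e f) (hq : Z.ph e < Z.ph g) :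
    Rch (Z.W.erase g) (Z.T (Z.ph e)) e.1 f.1 := by
  have h0 := Z.ph_min g hg (Z.ph e) hq
  have h1 : Rch (Z.W.erase g) (Z.T (Z.ph e)) (Z.a (Z.ph e)) f.1 := by
    rcases rch_or f h0 with h2 | ⟨h2, -, -⟩
    · have h3 := Z.ph_need f hf
      rw [← hp] at h3
      exact absurd (monoW erase2 h2) h3
    · exact monoW erase1 h2
  rcases rch_or e h1 with h2 | ⟨-, heg, h2⟩
  · exact absurd (monoW erase2 h2) h
  · exact trans (edge heg) (monoW erase1 h2)

/-- two phases use common sources in opposite orders -/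
theorem bf_rev (Z : MinSys V) {e f e' f' : V × V} (he : e ∈ Z.W) (hf : f ∈ Z.W)
    (he' : e' ∈ Z.W) (hf' : f' ∈ Z.W) (hp : Z.ph e = Z.ph f) (hp' : Z.ph e' = Z.ph f')
    (hlt : Z.ph e' < Z.ph e) (h1 : e.1 = e'.1) (h2 : f.1 = f'.1) (h : Z.Bf e f) :
    ¬ Z.Bf e' f' := by
  intro h'
  apply h
  have h3 := bf_path Z he' hf' he hp' h' hlt
  have h4 : Rch (Z.W.erase e) (Z.T (Z.ph e)) e'.1 f'.1 :=
    rch_mono (Finset.Subset.refl _) (Z.mono _ _ hlt.le) h3
  rw [← h1, ← h2] at h4
  exact trans (src Z he) h4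

theorem not_back (Z : MinSys V) {e f : V × V} (he : e ∈ Z.W) (hf : f ∈ Z.W)
    (hp : Z.ph e = Z.ph f) (h : Z.Bf e f) (hi : ¬ Z.Inn e) :
    ¬ Rch Z.W (Z.T (Z.ph e)) f.1 e.1 := by
  intro hb
  exact hi (trans (bf_rch Z he hf hp h) hb)

/-- edges that are not inner: two different phases have at most one common source -/
theorem src_unique (Z : MinSys V) {e f e' f' : V × V} (he : e ∈ Z.W) (hf : f ∈ Z.W)
    (he' : e' ∈ Z.W) (hf' : f' ∈ Z.W) (hi : ¬ Z.Inn e) (hj : ¬ Z.Inn f)
    (hp : Z.ph e = Z.ph f) (hp' : Z.ph e' = Z.ph f') (hlt : Z.ph e' < Z.ph e)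
    (h1 : e.1 = e'.1) (h2 : f.1 = f'.1) : e = f := by
  by_contra hne
  have hne' : e' ≠ f' := by
    intro hc
    exact hne (src_ne Z he hf hp (by rw [h1, h2, hc]))
  rcases bf_or Z he hf hne hp with h | h
  · have h3 := bf_rev Z he hf he' hf' hp hp' hlt h1 h2 h
    have h4 : Z.Bf f' e' := (bf_or Z he' hf' hne' hp').resolve_left h3
    have h5 := bf_rch Z hf' he' hp'.symm h4
    have h6 : Rch Z.W (Z.T (Z.ph f')) f'.1 e'.1 := trans (edge hf') h5
    have h7 : Rch Z.W (Z.T (Z.ph e)) f'.1 e'.1 :=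
      rch_mono (Finset.Subset.refl _) (Z.mono _ _ (hp' ▸ hlt.le)) h6
    rw [← h1, ← h2] at h7
    exact not_back Z he hf hp h hi h7
  · have hlt' : Z.ph f' < Z.ph f := by rw [← hp, ← hp']; exact hlt
    have h3 := bf_rev Z hf he hf' he' hp.symm hp'.symm hlt' h2 h1 h
    have h4 : Z.Bf e' f' := (bf_or Z he' hf' hne' hp').resolve_right h3
    have h5 := bf_rch Z he' hf' hp' h4
    have h6 : Rch Z.W (Z.T (Z.ph e')) e'.1 f'.1 := trans (edge he') h5
    have h7 : Rch Z.W (Z.T (Z.ph f)) e'.1 f'.1 :=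
      rch_mono (Finset.Subset.refl _) (Z.mono _ _ (hp ▸ hlt.le)) h6
    rw [← h1, ← h2] at h7
    exact not_back Z hf he hp.symm h hj h7

/-- an inner edge cannot be replaced -/
theorem inn_crit (Z : MinSys V) {e : V × V} (he : e ∈ Z.W) :
    ¬ Rch (Z.W.erase e) (Z.T (Z.ph e)) e.1 e.2 := by
  intro h
  exact Z.ph_need e he (trans (trans (src Z he) h) (tgt Z he))

end Pool.Agent.P0036f5d
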