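import Pool.Agent.Lib.P0036f5d.SegT

/-!
# D12: what the trees `mkT` decide

Induction on `d`, generalising `lo, hi, x, y` (`lo ≤ hi ≤ h < 2 B`), with `DT.eval_or`, `DT.eval_orN`,
`DT.eval_and`, `eval_zT` (SegT.lean; `Sg (vr Z.S (w.drop (t * Z.bl))) lo hi x y`) and `eval_clT`
(`o < h`).  In the direction from the right to the left `o < hi ≤ h < 2 * Z.bl`.
Compare `P0036f5b/Mark.lean`.
-/

set_option autoImplicit false

namespace Pool.Agent.P0036f5d

open Relation Pool.Agent.P0036f5v2 Pool.Agent.P0036f5w Pool.Agent.P0036f5g Pool.Agent.P0036f5k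
  Pool.Agent.P0036f5b Classical

variable {A Q M : Type}

namespace PD

theorem eval_mkT {Z : PD A Q M} (hZ : Z.Ok) {w : List A} {t h : ℕ} {v : ℕ → Sy A}
    (hv : Z.Vw w (t * Z.bl) h v) (hh : h < 2 * Z.bl) (hw : t * Z.bl + h ≤ w.length) :
    ∀ (d lo hi : ℕ) (x y : Inf Q), lo ≤ hi → hi ≤ h →
      ((Z.mkT h d lo hi x y).eval v = true ↔ Z.MkR (w.drop (t * Z.bl)) d lo hi x y) := by
  intro d
  induction d with
  | zero =>
    intro lo hi x y h1 h2
    exact eval_zT hZ hv hh h1 h2 x y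
  | succ d ih =>
    intro lo hi x y h1 h2
    rw [mkT, MkR, DT.eval_or, Bool.or_eq_true]
    apply or_congr (eval_zT hZ hv hh h1 h2 x y)
    rw [DT.eval_orN]
    constructor
    · rintro ⟨o, -, he⟩
      rw [DT.eval_orN] at he
      obtain ⟨m, hm, he⟩ := he
      rw [DT.eval_orN] at he
      obtain ⟨z, hz, he⟩ := he
      rw [DT.eval_orN] at he
      obtain ⟨z', hz', he⟩ := he
      split_ifs at he with hc
      · rw [DT.eval_and, Bool.and_eq_true, DT.eval_and, Bool.and_eq_true] at he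
        obtain ⟨e1, e2, e3⟩ := he
        obtain ⟨c, hc1, hc2⟩ := (eval_clT hv (by omega : o < h) (Z.mks m) (Z.info z)
          (Z.info z')).mp e2
        exact ⟨o, m, z, z', c, hc.1, hc.2, hm, hz, hz', hc1,
          (ih lo o x (Z.info z) hc.1 (by omega)).mp e1, hc2,
          (ih (o + 1) hi (Z.info z') y (by omega) h2).mp e3⟩
      · exact absurd he (by simp [DT.eval])
    · rintro ⟨o, m, z, z', c, ho1, ho2, hm, hz, hz', hc, p1, hmc, p3⟩
      refine ⟨o, by omega, ?_⟩
      rw [DT.eval_orN]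
      refine ⟨m, hm, ?_⟩
      rw [DT.eval_orN]
      refine ⟨z, hz, ?_⟩
      rw [DT.eval_orN]
      refine ⟨z', hz', ?_⟩
      rw [if_pos ⟨ho1, ho2⟩, DT.eval_and, Bool.and_eq_true, DT.eval_and, Bool.and_eq_true]
      exact ⟨(ih lo o x (Z.info z) ho1 (by omega)).mpr p1,
        (eval_clT hv (by omega : o < h) (Z.mks m) (Z.info z) (Z.info z')).mpr ⟨c, hc, hmc⟩,
        (ih (o + 1) hi (Z.info z') y (by omega) h2).mpr p3⟩

end PD

end Pool.Agent.P0036f5d
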