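import Pool.Agent.Lib.P0036f5d.TDefs

/-!
# D13: the language of the program

* `mkR_pt`: induction on `d`, as in `mkT_sound` of `P0036f5b/Mark.lean`: `pt_of_sg` and `pt_mark`
  (`lo ≤ hi ≤ u.length`; `lo ≤ o < hi`).
* `mkR_of_path`: `y i` is a path of informations along the cells of `u` from `lo` to `hi`, all with codes.
  Induction on `d`.  If `(y hi).1 = (y lo).1` no step is a mark (the first components grow by `0` or
  `1`): `Sg (vr Z.S u) lo hi (y lo) (y hi)` by `sg_trans` (one cell: `sg_shift`, `sg_congr`,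
  `vr Z.S u i = Z.S.L0 a` if `u[i]? = some a`; `lo = hi`: `sg_self`).  Otherwise `d = d' + 1`, put
  `c = ((y hi).1 - (y lo).1 - 1) / 2`; there is a step `o`, `lo ≤ o < hi`, with `(y o).1 = (y lo).1 + c`
  and `(y (o + 1)).1 = (y o).1 + 1` (the last `o` with `(y o).1 ≤ (y lo).1 + c`), it is a mark; both
  parts have less than `2 ^ d'` marks.  `Z.info z = y o` etc. by `Ok.hinfo`, the mark by `Ok.hmk`.
* `acD_iff`: from the left to the right: by induction on `t`, `x ∈ RD Z w t` implies `x < Z.N` and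
  `Pt Z.S w 0 (t * Z.bl) (ini Z.S) (Z.info x)` if `t * Z.bl ≤ w.length` (`mkR_pt` for
  `u = w.drop (t * Z.bl)`, `pt_drop`, `pt_add`); then the last segment; `(Z.info z).1 ≤ Z.k` by `Ok.hi`.
  From the right to the left: `hS` gives for `w ∈ Lb Z.S Z.k` a path `y` with small tables; all
  `(y c).1 ≤ Z.k` (growing).  By induction on `t`: `x_t ∈ RD Z w t` where `x_t < Z.N` is a code of
  `y (t * Z.bl)` (`mkR_of_path` for `u = w.drop (t * Z.bl)`, `y' i = y (t * Z.bl + i)`,
  `d = Z.d`, `Z.k < 2 ^ Z.d`); finally the last segment of length `r` and `Ac`.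
-/

set_option autoImplicit false

namespace Pool.Agent.P0036f5d

open Relation Pool.Agent.P0036f5v2 Pool.Agent.P0036f5w Pool.Agent.P0036f5g Pool.Agent.P0036f5k
  Pool.Agent.P0036f5b Classical

variable {A Q M : Type}

/-- an unmarked letter is a segment of length one -/
private theorem mkl_sg_one {S : FS A Q M} {w : List A} {b : ℕ} {c : A} (hc : w[b]? = some c)
    {x y : Inf Q} : Sg (fun _ => S.L0 c) 0 1 x y ↔ Sg (vr S w) b (b + 1) x y := by
  have h1 : Sg (fun i => vr S w (b + i)) 0 1 x y ↔ Sg (vr S w) (b + 0) (b + 1) x y := sg_shift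
  rw [Nat.add_zero] at h1
  rw [← h1]
  refine sg_congr fun i _ hi => ?_
  have hi0 : i = 0 := by omega
  subst hi0
  simp only [vr, Nat.add_zero, hc]

private theorem mkl_step {S : FS A Q M} {a : A} {x y : Inf Q} (h : St S a x y) :
    y.1 = x.1 ∨ y.1 = x.1 + 1 := by
  rcases h with h | ⟨μ, h⟩
  · exact Or.inl h.1
  · exact Or.inr h.1

private theorem mkl_mono {S : FS A Q M} {u : List A} {y : ℕ → Inf Q} {lo hi : ℕ}
    (h : ∀ i, lo ≤ i → i < hi → ∃ a, u[i]? = some a ∧ St S a (y i) (y (i + 1))) :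
    ∀ n i, lo ≤ i → i + n ≤ hi → (y i).1 ≤ (y (i + n)).1 := by
  intro n
  induction n with
  | zero =>
    intro i _ _
    exact le_refl _
  | succ n ih =>
    intro i h1 h2
    have h3 := ih i h1 (by omega)
    obtain ⟨a, _, h4⟩ := h (i + n) (by omega) (by omega)
    have h5 : i + (n + 1) = i + n + 1 := by omega
    rw [h5]
    rcases mkl_step h4 with h6 | h6 <;> omega

private theorem mkl_sg {S : FS A Q M} {u : List A} {y : ℕ → Inf Q} {lo hi : ℕ}
    (h : ∀ i, lo ≤ i → i < hi → ∃ a, u[i]? = some a ∧ St S a (y i) (y (i + 1))) :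
    ∀ n, lo + n ≤ hi → (y (lo + n)).1 = (y lo).1 → Sg (vr S u) lo (lo + n) (y lo) (y (lo + n)) := by
  intro n
  induction n with
  | zero =>
    intro _ _
    exact sg_self.2 (sle_refl _)
  | succ n ih =>
    intro h1 h2
    obtain ⟨a, ha, h4⟩ := h (lo + n) (by omega) (by omega)
    have h5 := mkl_mono h n lo (le_refl _) (by omega)
    have h6 : lo + (n + 1) = lo + n + 1 := by omega
    rw [h6] at h2 ⊢
    rcases h4 with h4 | ⟨μ, h4⟩
    · have h7 := h4.1
      exact sg_trans (by omega) (by omega) (ih (by omega) (by omega)) ((mkl_sg_one ha).1 h4)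
    · have h7 := h4.1
      omega

/-- a step from `T` to `T + 1` -/
private theorem mkl_ivt {f : ℕ → ℕ} {lo hi T : ℕ} (h : ∀ i, lo ≤ i → i < hi → f (i + 1) ≤ f i + 1)
    (hlh : lo ≤ hi) (h1 : f lo ≤ T) (h2 : T < f hi) :
    ∃ o, lo ≤ o ∧ o < hi ∧ f o = T ∧ f (o + 1) = T + 1 := by
  classical
  have hex : ∃ i, lo ≤ i ∧ T < f i := ⟨hi, hlh, h2⟩
  obtain ⟨h3, h4⟩ := Nat.find_spec hex
  have h5 : Nat.find hex ≤ hi := Nat.find_min' hex ⟨hlh, h2⟩
  have h6 : Nat.find hex ≠ lo := by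
    intro h7
    rw [h7] at h4
    omega
  obtain ⟨o, ho⟩ : ∃ o, Nat.find hex = o + 1 := ⟨Nat.find hex - 1, by omega⟩
  have h7 : ¬ (lo ≤ o ∧ T < f o) := Nat.find_min hex (by omega)
  rw [ho] at h4 h5 h3
  have h8 := h o (by omega) (by omega)
  have h9 : f o ≤ T := by
    by_contra h10
    exact h7 ⟨by omega, by omega⟩
  exact ⟨o, by omega, by omega, by omega, by omega⟩

namespace PD

theorem mkR_pt {Z : PD A Q M} {u : List A} : ∀ (d lo hi : ℕ) (x y : Inf Q), lo ≤ hi →
    hi ≤ u.length → Z.MkR u d lo hi x y → Pt Z.S u lo (hi - lo) x y := by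
  have base : ∀ (lo hi : ℕ) (x y : Inf Q), lo ≤ hi → hi ≤ u.length → Sg (vr Z.S u) lo hi x y →
      Pt Z.S u lo (hi - lo) x y := by
    intro lo hi x y h1 h2 he
    have h4 : lo + (hi - lo) = hi := by omega
    apply pt_of_sg
    · rw [h4]
      exact h2
    · rw [h4]
      exact he
  intro d
  induction d with
  | zero =>
    intro lo hi x y h1 h2 he
    exact base lo hi x y h1 h2 he
  | succ d ih =>
    intro lo hi x y h1 h2 he
    rcases he with he | ⟨o, m, z, z', c, ho1, ho2, _, _, _, hc, e1, e2, e3⟩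
    · exact base lo hi x y h1 h2 he
    · have p1 := ih lo o x (Z.info z) ho1 (by omega) e1
      have p3 := ih (o + 1) hi (Z.info z') y (by omega) h2 e3
      have q1 : lo + (o - lo) = o := by omega
      have q2 : lo + (o - lo + 1) = o + 1 := by omega
      have q3 : hi - lo = o - lo + 1 + (hi - (o + 1)) := by omega
      rw [q3]
      refine pt_mark p1 (c := c) ?_ e2 ?_
      · rw [q1]
        exact hc
      · rw [q2]
        exact p3

theorem mkR_of_path {Z : PD A Q M} (hZ : Z.Ok) {u : List A} {y : ℕ → Inf Q} :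
    ∀ (d lo hi : ℕ), lo ≤ hi →
    (∀ i, lo ≤ i → i ≤ hi → (y i).1 ≤ Z.k ∧ (y i).2.2.ncard ≤ Z.m) →
    (∀ i, lo ≤ i → i < hi → ∃ a, u[i]? = some a ∧ St Z.S a (y i) (y (i + 1))) →
    (y hi).1 < (y lo).1 + 2 ^ d → Z.MkR u d lo hi (y lo) (y hi) := by
  have base : ∀ (lo hi : ℕ), lo ≤ hi →
      (∀ i, lo ≤ i → i < hi → ∃ a, u[i]? = some a ∧ St Z.S a (y i) (y (i + 1))) →
      (y hi).1 = (y lo).1 → Sg (vr Z.S u) lo hi (y lo) (y hi) := by
    intro lo hi h1 h2 h3
    obtain ⟨n, rfl⟩ : ∃ n, hi = lo + n := ⟨hi - lo, by omega⟩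
    exact mkl_sg h2 n (le_refl _) h3
  intro d
  induction d with
  | zero =>
    intro lo hi h1 h2 h3 h4
    have h5 := mkl_mono h3 (hi - lo) lo (le_refl _) (by omega)
    have h6 : lo + (hi - lo) = hi := by omega
    rw [h6] at h5
    rw [pow_zero] at h4
    exact base lo hi h1 h3 (by omega)
  | succ d ih =>
    intro lo hi h1 h2 h3 h4
    have h5 := mkl_mono h3 (hi - lo) lo (le_refl _) (by omega)
    have h6 : lo + (hi - lo) = hi := by omega
    rw [h6] at h5
    by_cases heq : (y hi).1 = (y lo).1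
    · exact Or.inl (base lo hi h1 h3 heq)
    · right
      rw [pow_succ] at h4
      obtain ⟨o, ho1, ho2, ho3, ho4⟩ := mkl_ivt (f := fun i => (y i).1) (lo := lo) (hi := hi)
        (T := (y lo).1 + ((y hi).1 - (y lo).1 - 1) / 2)
        (fun i hi1 hi2 => by
          obtain ⟨a, _, h7⟩ := h3 i hi1 hi2
          show (y (i + 1)).1 ≤ (y i).1 + 1
          rcases mkl_step h7 with h8 | h8 <;> omega) h1 (by show (y lo).1 ≤ _; omega)
        (by show _ < (y hi).1; omega)
      have ho3' : (y o).1 = (y lo).1 + ((y hi).1 - (y lo).1 - 1) / 2 := ho3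
      have ho4' : (y (o + 1)).1 = (y lo).1 + ((y hi).1 - (y lo).1 - 1) / 2 + 1 := ho4
      obtain ⟨a, ha, hs⟩ := h3 o ho1 ho2
      obtain ⟨μ, hμ⟩ : ∃ μ, Mc Z.S a μ (y o) (y (o + 1)) := by
        rcases hs with hs | hs
        · have h7 := hs.1
          omega
        · exact hs
      obtain ⟨cz, hcz, ez⟩ := hZ.hinfo (y o) (h2 o ho1 ho2.le).1 (h2 o ho1 ho2.le).2
      obtain ⟨cz', hcz', ez'⟩ := hZ.hinfo (y (o + 1)) (h2 (o + 1) (by omega) ho2).1
        (h2 (o + 1) (by omega) ho2).2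
      obtain ⟨cm, hcm, em⟩ := hZ.hmk μ
      refine ⟨o, cm, cz, cz', a, ho1, ho2, hcm, hcz, hcz', ha, ?_, ?_, ?_⟩
      · rw [ez]
        exact ih lo o ho1 (fun i i1 i2 => h2 i i1 (by omega)) (fun i i1 i2 => h3 i i1 (by omega))
          (by omega)
      · rw [ez, ez', em]
        exact hμ
      · rw [ez']
        exact ih (o + 1) hi (by omega) (fun i i1 i2 => h2 i (by omega) i2)
          (fun i i1 i2 => h3 i (by omega) i2) (by omega)

private theorem rd_pt {Z : PD A Q M} {w : List A} : ∀ (t x : ℕ), t * Z.bl ≤ w.length →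
    x ∈ Z.RD w t → x < Z.N ∧ Pt Z.S w 0 (t * Z.bl) (ini Z.S) (Z.info x) := by
  intro t
  induction t with
  | zero =>
    rintro x _ ⟨h1, h2⟩
    refine ⟨h1, ?_⟩
    rw [Nat.zero_mul]
    exact h2
  | succ t ih =>
    rintro y hy ⟨h1, x, hx, h2⟩
    rw [Nat.succ_mul] at hy
    obtain ⟨h3, h4⟩ := ih x (by omega) hx
    refine ⟨h1, ?_⟩
    have h5 := mkR_pt Z.d 0 Z.bl (Z.info x) (Z.info y) (Nat.zero_le _)
      (by rw [List.length_drop]; omega) h2
    rw [Nat.sub_zero] at h5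
    have h6 := pt_drop.1 h5
    rw [Nat.succ_mul, pt_add]
    refine ⟨Z.info x, h4, ?_⟩
    rw [Nat.zero_add]
    rw [Nat.add_zero] at h6
    exact h6

theorem acD_iff {Z : PD A Q M} (hZ : Z.Ok) {w : List A} {t r : ℕ}
    (hS : w ∈ Lb Z.S Z.k → SPt Z.S w Z.k Z.m) (hw : w.length = t * Z.bl + r) :
    Z.AcD w t r ↔ w ∈ Lb Z.S Z.k := by
  constructor
  · rintro ⟨x, hx, z, hz, hac, hm⟩
    obtain ⟨h3, h4⟩ := rd_pt t x (by omega) hx
    have h5 := mkR_pt Z.d 0 r (Z.info x) (Z.info z) (Nat.zero_le _)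
      (by rw [List.length_drop]; omega) hm
    rw [Nat.sub_zero] at h5
    have h6 := pt_drop.1 h5
    rw [Nat.add_zero] at h6
    refine ⟨Z.info z, ?_, hZ.hi z, hac⟩
    rw [hw, pt_add]
    refine ⟨Z.info x, h4, ?_⟩
    rw [Nat.zero_add]
    exact h6
  · intro hwL
    obtain ⟨y, hy0, hym, hys, hyk, hya⟩ := hS hwL
    have hk : ∀ c, c ≤ w.length → (y c).1 ≤ Z.k := by
      intro c hc
      have h1 := mkl_mono (S := Z.S) (u := w) (y := y) (lo := 0) (hi := w.length)
        (fun i _ hi => hys i hi) (w.length - c) c (Nat.zero_le _) (by omega)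
      have h2 : c + (w.length - c) = w.length := by omega
      rw [h2] at h1
      exact h1.trans hyk
    have seg : ∀ s l : ℕ, s + l ≤ w.length → Z.MkR (w.drop s) Z.d 0 l (y s) (y (s + l)) := by
      intro s l hsl
      have h1 := mkR_of_path hZ (u := w.drop s) (y := fun i => y (s + i)) Z.d 0 l (Nat.zero_le _)
        (fun i _ hi => ⟨hk _ (by omega), hym _ (by omega)⟩)
        (fun i _ hi => by
          obtain ⟨a, ha, hs⟩ := hys (s + i) (by omega)
          exact ⟨a, by rw [List.getElem?_drop]; exact ha, hs⟩)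
        (by
          have h2 := hk (s + l) hsl
          have h3 := hZ.hd
          show (y (s + l)).1 < (y (s + 0)).1 + 2 ^ Z.d
          omega)
      exact h1
    have hrd : ∀ t' : ℕ, t' * Z.bl ≤ w.length → ∃ x ∈ Z.RD w t', Z.info x = y (t' * Z.bl) := by
      intro t'
      induction t' with
      | zero =>
        intro _
        obtain ⟨x, hx, ex⟩ := hZ.hinfo (y 0) (hk 0 (Nat.zero_le _)) (hym 0 (Nat.zero_le _))
        refine ⟨x, ⟨hx, ?_⟩, ?_⟩
        · rw [ex]
          exact hy0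
        · rw [ex, Nat.zero_mul]
      | succ t' ih =>
        intro ht
        rw [Nat.succ_mul] at ht
        obtain ⟨x, hx, ex⟩ := ih (by omega)
        obtain ⟨x', hx', ex'⟩ := hZ.hinfo (y (t' * Z.bl + Z.bl)) (hk _ ht) (hym _ ht)
        refine ⟨x', ⟨hx', x, hx, ?_⟩, ?_⟩
        · rw [ex, ex']
          exact seg _ _ ht
        · rw [ex', Nat.succ_mul]
    obtain ⟨x, hx, ex⟩ := hrd t (by omega)
    obtain ⟨z, hz, ez⟩ := hZ.hinfo (y w.length) (hk _ (le_refl _)) (hym _ (le_refl _))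
    refine ⟨x, hx, z, hz, ?_, ?_⟩
    · rw [ez]
      exact hya
    · rw [ex, ez]
      have h1 := seg (t * Z.bl) r (by omega)
      rw [← hw] at h1
      exact h1

end PD

end Pool.Agent.P0036f5d
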