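import Mathlib

/-!
# Sparse sets of edges for demands in growing graphs: definitions (project K, part D)

`W` is a fixed finite set of edges on a finite set of vertices, `T 0 ⊆ T 1 ⊆ …` are growing relations,
and the demand `q < k` asks for a path from `a q` to `b q` with edges in `W` and `T q`.
-/

set_option autoImplicit false

namespace Pool.Agent.P0036f5d

open Relation Classical

/-- reachability with the edges of `W` and `T` -/
def Rch {V : Type} (W : Finset (V × V)) (T : V → V → Prop) : V → V → Prop :=
  ReflTransGen fun x y => (x, y) ∈ W ∨ T x y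

/-- A system of `k` demands together with an inclusion-minimal set `W` of edges: every edge `e ∈ W` is
needed for some demand, `ph e` is the first one. -/
structure MinSys (V : Type) where
  k : ℕ
  T : ℕ → V → V → Prop
  a : ℕ → V
  b : ℕ → V
  W : Finset (V × V)
  ph : V × V → ℕ
  mono : ∀ i j, i ≤ j → ∀ x y, T i x y → T j x y
  dem : ∀ q < k, Rch W (T q) (a q) (b q)
  ph_lt : ∀ e ∈ W, ph e < k
  ph_need : ∀ e ∈ W, ¬ Rch (W.erase e) (T (ph e)) (a (ph e)) (b (ph e))
  ph_min : ∀ e ∈ W, ∀ q < ph e, Rch (W.erase e) (T q) (a q) (b q)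

/-- the source of the edge `f` can be reached in the phase `ph e` only through `e` -/
def MinSys.Bf {V : Type} (Z : MinSys V) (e f : V × V) : Prop :=
  ¬ Rch (Z.W.erase e) (Z.T (Z.ph e)) (Z.a (Z.ph e)) f.1

/-- inner edges: one can return from the target to the source -/
def MinSys.Inn {V : Type} (Z : MinSys V) (e : V × V) : Prop :=
  Rch Z.W (Z.T (Z.ph e)) e.2 e.1

/-- the number of edges that suffices for `k` demands on `K` vertices -/
def mS (K k : ℕ) : ℕ := min (3 * K + k * (Nat.sqrt K + 1)) (k + K * (Nat.sqrt (2 * k) + 1))

end Pool.Agent.P0036f5d
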