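import Pool.Agent.Lib.P0036f5b.RFc
import Pool.Agent.Lib.P0036f5b.Path
import Pool.Agent.Lib.P0036f5d.RDefs

/-!
# Paths of informations with small tables: definitions (project K, part D)
-/

set_option autoImplicit false

namespace Pool.Agent.P0036f5d

open Relation Pool.Agent.P0036f5v2 Pool.Agent.P0036f5w Pool.Agent.P0036f5g Pool.Agent.P0036f5k
  Pool.Agent.P0036f5b Classical

variable {A Q M : Type}

/-- An accepting computation with `K` marks, cut at the marks.  `f i` is the position of the mark
`i < K`, `μ i` its symbol, `v` the behaviour of the cells at the end.  The phase `i ≤ K` leads from the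
node `st i` to the first arrival at the boundary `e i`, in the state `pe i`. -/
structure Run (S : FS A Q M) (w : List A) where
  K : ℕ
  f : ℕ → ℕ
  μ : ℕ → M
  v : ℕ → CR Q
  e : ℕ → ℕ
  st : ℕ → Nd Q
  pe : ℕ → Q
  hf : ∀ i j, i < j → j < K → f i < f j
  hfl : ∀ i < K, f i < w.length
  he : ∀ i < K, e i = f i
  heK : e K = w.length + 1
  hv1 : ∀ i < K, v (f i) = S.L2 (μ i)
  hv2 : ∀ c, (∀ i < K, c ≠ f i) → v c = vr S w c
  h0 : st 0 = (0, true, S.p0)
  hst : ∀ i < K, ∃ a d q, w[f i]? = some a ∧ S.L1 (μ i) a (pe i) d q ∧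
    st (i + 1) = (if d = true then f i + 1 else f i, d, q)
  hF : pe K ∈ S.F
  hp : ∀ i ≤ K, RF v S.E0 0 (e i) (st i) (e i, true, pe i)

/-- the rest of the computation at the boundary `c`, in the phase `j`, is possible with the state `p`
and the table `W` -/
def Pass {S : FS A Q M} {w : List A} (R : Run S w) (c j : ℕ) (p : Q) (W : Set (Q × Q)) : Prop :=
  ∀ i, j ≤ i → i ≤ R.K →
    RF R.v W c (R.e i) (if i = j then (c, true, p) else R.st i) (R.e i, true, R.pe i)

/-- reflections as edges between the crossings to the left `(false, p)` and to the right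
`(true, p')` -/
noncomputable def WE [Finite Q] (W : Set (Q × Q)) : Finset ((Bool × Q) × (Bool × Q)) :=
  (Set.toFinite ((fun t : Q × Q => ((false, t.1), (true, t.2))) '' W)).toFinset

/-- excursions to the right of the boundary `c`, below the boundary `e` -/
def Tr (v : ℕ → CR Q) (c e : ℕ) (x y : Bool × Q) : Prop :=
  x.1 = true ∧ y.1 = false ∧ RF v ∅ c e (c, true, x.2) (c, false, y.2)

/-- an accepted path of informations with at most `k` marks and tables with at most `m` pairs -/
def SPt (S : FS A Q M) (w : List A) (k m : ℕ) : Prop :=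
  ∃ y : ℕ → Inf Q, Sle (ini S) (y 0) ∧ (∀ c ≤ w.length, (y c).2.2.ncard ≤ m) ∧
    (∀ c < w.length, ∃ a, w[c]? = some a ∧ St S a (y c) (y (c + 1))) ∧
    (y w.length).1 ≤ k ∧ Ac S (y w.length)

end Pool.Agent.P0036f5d
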