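import Pool.Agent.Lib.P0036f5d.TreeA
import Pool.Agent.Lib.P0036f5b.RFp
import Pool.Agent.Lib.P0036f5b.SegP
import Pool.Agent.Lib.P0036f5k.Hall

/-!
# B8: correctness of the trees for segments without marks and for marked cells

Let `l = sgP Z.sl Z.mx h lo hi`; `chn_sgP`, `val_sgP`, `rnd_sgP`, `length_sgP` give the hypotheses of
`eval_lsT` (`LK 2 mx K = 3 + 2 * (2 + 2) * (mx + ℓK mx K)`), so `lsT` decides `TB (vr …) lo hi`.
* `eval_rfT`: `rfE` decides the edges of `PG` (RFp.lean); `eval_pathT` with the `2 K` nodes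
  `(b, x)`, number `(if b then 1 else 0) * K + π x` (`2 K ≤ VK 2 mx K ≤ 2 ^ κ`); then `rf_port`:
  entry `(false, x)` to exit `(true, true, q)` iff `RF (vr …) T lo hi (ent lo hi x) (hi, true, q)`.
* `eval_zT`: `y.1 = x.1`, the state part with `x = (true, x.2.1)` (`ent lo hi (true, q) = (lo, true, q)`),
  and for all `(p, p') ∈ y.2.2` the part with `(false, p)` (`ent lo hi (false, p) = (hi, false, p)`);
  every pair `(p, p')` is `((ρ (c / K)).2, (ρ (c % K)).2)` for some `c < K * K`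
  (`c = π (true, p) * K + π (true, p')`), `eval_andN`.
* `eval_clT`: the view shows the letter of the cell `a + o`.
-/

set_option autoImplicit false

namespace Pool.Agent.P0036f5d

open Relation Pool.Agent.P0036f5v2 Pool.Agent.P0036f5w Pool.Agent.P0036f5g Pool.Agent.P0036f5k
  Pool.Agent.P0036f5b Classical

variable {A Q M : Type}

namespace SegTAux

theorem div_code {K i j : ℕ} (hj : j < K) : (i * K + j) / K = i := by
  have hK : 0 < K := by omega
  rw [Nat.add_comm, Nat.add_mul_div_right _ _ hK, Nat.div_eq_of_lt hj, Nat.zero_add]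

theorem mod_code {K i j : ℕ} (hj : j < K) : (i * K + j) % K = j := by
  rw [Nat.add_comm, Nat.add_mul_mod_self_right, Nat.mod_eq_of_lt hj]

/-- the edges of the graph of ports -/
theorem er_rfE {Z : PD A Q M} {h : ℕ} {l : List Pc} {T : Set (Q × Q)} {v : ℕ → Sy A}
    {r : ℕ → CR Q} {lo hi : ℕ}
    (hl : ∀ x y, (Z.lsT h l x y).eval v = true ↔ TB r lo hi x y) (a b : Bool × Bool × Q) :
    ER (Z.rfE h l T) v a b ↔ PG r T lo hi a b := by
  unfold ER PG PD.rfE
  by_cases h1 : a.1 = false ∧ b.1 = true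
  · rw [if_pos h1, hl]
    constructor
    · intro h2
      exact Or.inl ⟨h1.1, h1.2, h2⟩
    · rintro (h2 | h2)
      · exact h2.2.2
      · exact absurd (h2.1.symm.trans h1.1) (by simp)
  · rw [if_neg h1]
    by_cases h2 : a.1 = true ∧ b.1 = false ∧ a.2.1 = false ∧ b.2.1 = true ∧ (a.2.2, b.2.2) ∈ T
    · rw [if_pos h2]
      exact ⟨fun _ => Or.inr h2, fun _ => rfl⟩
    · rw [if_neg h2]
      constructor
      · intro h3
        exact absurd h3 (by simp [DT.eval])
      · rintro (h3 | h3)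
        · exact absurd ⟨h3.1, h3.2.1⟩ h1
        · exact absurd h3 h2

/-- the paths in the graph of ports -/
theorem eval_rfT {Z : PD A Q M} (hZ : Z.Ok) {h : ℕ} {l : List Pc} {T : Set (Q × Q)}
    {v : ℕ → Sy A} {r : ℕ → CR Q} {lo hi : ℕ}
    (hl : ∀ x y, (Z.lsT h l x y).eval v = true ↔ TB r lo hi x y) (x : Bool × Q) (q : Q) :
    (Z.rfT h l T (false, x) (true, true, q)).eval v = true ↔
      RF r T lo hi (ent lo hi x) (hi, true, q) := by
  rw [rf_port]
  unfold PD.rfT
  rw [eval_pathT]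
  · have he : ER (Z.rfE h l T) v = PG r T lo hi := by
      funext a b
      exact propext (er_rfE hl a b)
    rw [he]
  · intro y _
    refine ⟨(if y.1 = true then 1 else 0) * Z.K + Z.π y.2, ?_, ?_⟩
    · have h1 := hZ.hπ y.2
      split_ifs <;> omega
    · show (decide (((if y.1 = true then 1 else 0) * Z.K + Z.π y.2) / Z.K = 1),
        Z.ρ (((if y.1 = true then 1 else 0) * Z.K + Z.π y.2) % Z.K)) = y
      rw [div_code (hZ.hπ y.2), mod_code (hZ.hπ y.2), hZ.hρ y.2]
      obtain ⟨b, y'⟩ := y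
      cases b <;> simp
  · refine le_trans ?_ hZ.hκ
    unfold VK LK
    exact Nat.mul_le_mul_right _ (by omega)

end SegTAux

namespace PD

open SegTAux

theorem eval_zT {Z : PD A Q M} (hZ : Z.Ok) {w : List A} {t h : ℕ} {v : ℕ → Sy A}
    (hv : Z.Vw w (t * Z.bl) h v) (hh : h < 2 * Z.bl) {lo hi : ℕ} (h1 : lo ≤ hi) (h2 : hi ≤ h)
    (x y : Inf Q) :
    (Z.zT h (sgP Z.sl Z.mx h lo hi) x y).eval v = true ↔
      Sg (vr Z.S (w.drop (t * Z.bl))) lo hi x y := by
  have hsl : 0 < Z.sl := by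
    have := hZ.hK
    show 0 < (Z.mx + 1) * (Z.K * Z.K)
    positivity
  have hl : ∀ x y, (Z.lsT h (sgP Z.sl Z.mx h lo hi) x y).eval v = true ↔
      TB (vr Z.S (w.drop (t * Z.bl))) lo hi x y := fun x y =>
    eval_lsT hZ hv (chn_sgP rfl hZ.hK hh h1 h2) (val_sgP rfl) (rnd_sgP h2)
      (length_sgP hsl) x y
  unfold zT Sg
  by_cases h3 : y.1 = x.1
  · rw [if_pos h3, DT.eval_and, Bool.and_eq_true, eval_rfT hZ hl, eval_andN]
    have e1 : ent lo hi (true, x.2.1) = (lo, true, x.2.1) := rfl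
    rw [e1]
    rw [and_iff_right h3]
    apply and_congr_right'
    constructor
    · rintro h4 ⟨p, p'⟩ hp
      have h5 := h4 (Z.π (true, p) * Z.K + Z.π (true, p')) (by
        have a1 := hZ.hπ (true, p)
        have a2 := hZ.hπ (true, p')
        nlinarith)
      rw [div_code (hZ.hπ (true, p')), mod_code (hZ.hπ (true, p')), hZ.hρ, hZ.hρ,
        if_pos hp, eval_rfT hZ hl] at h5
      exact h5
    · intro h4 c _
      by_cases h5 : ((Z.ρ (c / Z.K)).2, (Z.ρ (c % Z.K)).2) ∈ y.2.2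
      · rw [if_pos h5, eval_rfT hZ hl]
        exact h4 h5
      · rw [if_neg h5]
        rfl
  · rw [if_neg h3]
    constructor
    · intro h4
      exact absurd h4 (by simp [DT.eval])
    · rintro ⟨h4, _⟩
      exact absurd h4 h3

theorem eval_clT {Z : PD A Q M} {w : List A} {t h : ℕ} {v : ℕ → Sy A}
    (hv : Z.Vw w (t * Z.bl) h v) {o : ℕ} (ho : o < h) (μ : M) (x y : Inf Q) :
    (Z.clT h o μ x y).eval v = true ↔
      ∃ c, (w.drop (t * Z.bl))[o]? = some c ∧ Mc Z.S c μ x y := by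
  obtain ⟨c, h1, h2⟩ := hv o ho
  have h3 : (w.drop (t * Z.bl))[o]? = some c := by
    rw [List.getElem?_drop]
    exact h1
  unfold clT
  simp only [DT.eval, h2, decide_eq_true_eq, h3]
  constructor
  · intro h4
    exact ⟨c, rfl, h4⟩
  · rintro ⟨c', h4, h5⟩
    rw [Option.some.injEq] at h4
    rw [h4]
    exact h5

end PD

end Pool.Agent.P0036f5d
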