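import Pool.Agent.Lib.P0036f5b.Defs
import Pool.Agent.Lib.P0036f5d.PDefs

/-!
# The program for informations with small tables: definitions (project K, part D)

This is the program of P0036f5b/Defs.lean for an arbitrary enumeration `info` of the informations with
at most `k` marks and tables with at most `m` pairs.
-/

set_option autoImplicit false

namespace Pool.Agent.P0036f5d

open Relation Pool.Agent.P0036f5v2 Pool.Agent.P0036f5w Pool.Agent.P0036f5g Pool.Agent.P0036f5k
  Pool.Agent.P0036f5b Classical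

variable {A Q M : Type}

/-! ### Numbers -/

/-- number of codes of informations with tables of at most `m` pairs -/
def ND (k m K : ℕ) : ℕ := (k + 1) * (K * (K * K + 1) ^ m)

/-- cost of the test of a segment with less than `2 ^ d` marks -/
def mD (N mx K κ μ : ℕ) : ℕ → ℕ
  | 0 => zB mx K κ
  | d + 1 => zB mx K κ + 2 * BK mx K * (μ * (N * (N * (2 * mD N mx K κ μ d + 1))))

/-- bound for the number of inner subtrees -/
def TD (N mx K κ μ d : ℕ) : ℕ :=
  N * (1 + mD N mx K κ μ d) + 2 * cK 2 mx K κ + N * (1 + N * mD N mx K κ μ d)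

/-- bound for the size -/
def szD (N mx K κ μ d a : ℕ) : ℕ :=
  (2 * BK mx K * 4 + 2 * BK mx K * ((4 + 2 + 2 * BK mx K * TD N mx K κ μ d) *
    (2 * BK mx K + 3)) + 1) * (5 * a * 4 + 5 * a + 17) + (a * 4 + 2 * a + 4)

/-! ### Trees -/

/-- parameters: `K` ports enumerated by `ρ`, levels `≤ mx`, depth `κ` for paths, less than `2 ^ d`
marks, `μ` mark symbols enumerated by `mks`, informations with tables of at most `m` pairs enumerated
by `info` on the numbers `< N` -/
structure PD (A Q M : Type) where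
  S : FS A Q M
  k : ℕ
  m : ℕ
  N : ℕ
  mx : ℕ
  K : ℕ
  ρ : ℕ → Bool × Q
  π : Bool × Q → ℕ
  info : ℕ → Inf Q
  mks : ℕ → M
  κ : ℕ
  d : ℕ
  μ : ℕ

namespace PD

/-- length of a slot -/
abbrev sl (Z : PD A Q M) : ℕ := ℓK Z.mx Z.K

/-- length of a block -/
abbrev bl (Z : PD A Q M) : ℕ := BK Z.mx Z.K

/-- correct parameters -/
structure Ok (Z : PD A Q M) : Prop where
  hK : 0 < Z.K
  hπ : ∀ x, Z.π x < Z.K
  hρ : ∀ x, Z.ρ (Z.π x) = x
  hπρ : ∀ i < Z.K, Z.π (Z.ρ i) = i
  hi : ∀ x, (Z.info x).1 ≤ Z.k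
  hinfo : ∀ y : Inf Q, y.1 ≤ Z.k → y.2.2.ncard ≤ Z.m → ∃ x < Z.N, Z.info x = y
  hmk : ∀ m : M, ∃ i < Z.μ, Z.mks i = m
  hκ : VK 2 Z.mx Z.K ≤ 2 ^ Z.κ
  hN : Z.N + 1 ≤ 2 ^ Z.mx
  hd : Z.k < 2 ^ Z.d

/-- the table bit written in the cell with index `i` -/
def tbit (Z : PD A Q M) (w : List A) (i : ℕ) : Prop :=
  0 < i / Z.sl ∧ 2 ^ (i % Z.sl / (Z.K * Z.K)) ∣ i / Z.sl ∧
    TB (vr Z.S w) ((i / Z.sl - 2 ^ (i % Z.sl / (Z.K * Z.K))) * Z.sl) (i / Z.sl * Z.sl)
      (Z.ρ (i % Z.sl % (Z.K * Z.K) / Z.K)) (Z.ρ (i % Z.sl % Z.K))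

/-- what the tree `mkT` tests: the segment `[lo, hi)` of the word `u` with less than `2 ^ d` marks, cut at
marks, with informations that have codes -/
def MkR (Z : PD A Q M) (u : List A) : ℕ → ℕ → ℕ → Inf Q → Inf Q → Prop
  | 0, lo, hi, x, y => Sg (vr Z.S u) lo hi x y
  | d + 1, lo, hi, x, y => Sg (vr Z.S u) lo hi x y ∨
      ∃ o m z z' c, lo ≤ o ∧ o < hi ∧ m < Z.μ ∧ z < Z.N ∧ z' < Z.N ∧ u[o]? = some c ∧
        MkR Z u d lo o x (Z.info z) ∧ Mc Z.S c (Z.mks m) (Z.info z) (Z.info z') ∧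
        MkR Z u d (o + 1) hi (Z.info z') y

/-- the codes of informations found after `t` blocks -/
def RD (Z : PD A Q M) (w : List A) : ℕ → Set ℕ
  | 0 => {x | x < Z.N ∧ Sle (ini Z.S) (Z.info x)}
  | t + 1 => {y | y < Z.N ∧ ∃ x ∈ RD Z w t,
      Z.MkR (w.drop (t * Z.bl)) Z.d 0 Z.bl (Z.info x) (Z.info y)}

/-- acceptance, found from the codes after `t` blocks, `r` cells before the end -/
def AcD (Z : PD A Q M) (w : List A) (t r : ℕ) : Prop :=
  ∃ x ∈ Z.RD w t, ∃ z < Z.N, Ac Z.S (Z.info z) ∧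
    Z.MkR (w.drop (t * Z.bl)) Z.d 0 r (Z.info x) (Z.info z)

/-- the information bit written in the cell with index `i` -/
def rbit (Z : PD A Q M) (w : List A) (i : ℕ) : Prop :=
  Z.sl ≤ i % Z.bl ∧ i % Z.bl - Z.sl < Z.N ∧ (i % Z.bl - Z.sl) ∈ Z.RD w (i / Z.bl)

/-- the bits written in the cell with index `i` -/
noncomputable def note (Z : PD A Q M) (w : List A) (i : ℕ) : Bool × Bool :=
  (decide (Z.rbit w i), decide (Z.tbit w i))

/-- the view `v` shows the `h` cells after the boundary `a` -/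
def Vw (Z : PD A Q M) (w : List A) (a h : ℕ) (v : ℕ → Sy A) : Prop :=
  ∀ o < h, ∃ c, w[a + o]? = some c ∧ v (h - o) = some (c, Z.note w (a + o))

/-- the table entry of a piece -/
noncomputable def pcT (Z : PD A Q M) (h : ℕ) (p : Pc) (x y : Bool × Q) : DT (Sy A) :=
  match p with
  | .raw o => .ask (h - o) fun g => .ret (match g with
      | some (a, _) => decide (Z.S.L0 a x.2 y.1 y.2)
      | none => false)
  | .blk s u => .ask (h - (u * Z.sl + (s * (Z.K * Z.K) + (Z.π x * Z.K + Z.π y)))) fun g =>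
      .ret (match g with
      | some (_, b) => b.2
      | none => false)
  | .rnd => .ret (decide (Z.S.Lr x.2 y.1 y.2))

/-- the edges of the coarse graph -/
noncomputable def edT (Z : PD A Q M) (h : ℕ) (l : List Pc) (X Y : Nd Q) : DT (Sy A) :=
  match l[Pool.Agent.P0036f5k.Par.idx X]? with
  | some p => if X = ent (Pool.Agent.P0036f5k.Par.idx X) (Pool.Agent.P0036f5k.Par.idx X + 1) X.2 ∧
      Y = ext (Pool.Agent.P0036f5k.Par.idx X) (Pool.Agent.P0036f5k.Par.idx X + 1) Y.2 then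
      Z.pcT h p X.2 Y.2 else .ret false
  | none => .ret false

/-- the table entry of a list of pieces -/
noncomputable def lsT (Z : PD A Q M) (h : ℕ) (l : List Pc) (x y : Bool × Q) : DT (Sy A) :=
  pathT (Z.edT h l) (fun c => (c / Z.K, Z.ρ (c % Z.K))) ((l.length + 1) * Z.K) Z.κ
    (ent 0 l.length x) (ext 0 l.length y)

/-- the edges of the graph of entries `(false, x)` and exits `(true, y)` of a segment with
reflections at the left end -/
noncomputable def rfE (Z : PD A Q M) (h : ℕ) (l : List Pc) (T : Set (Q × Q))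
    (u v : Bool × Bool × Q) : DT (Sy A) :=
  if u.1 = false ∧ v.1 = true then Z.lsT h l u.2 v.2
  else if u.1 = true ∧ v.1 = false ∧ u.2.1 = false ∧ v.2.1 = true ∧ (u.2.2, v.2.2) ∈ T then
    .ret true
  else .ret false

/-- paths in this graph -/
noncomputable def rfT (Z : PD A Q M) (h : ℕ) (l : List Pc) (T : Set (Q × Q))
    (u v : Bool × Bool × Q) : DT (Sy A) :=
  pathT (Z.rfE h l T) (fun c => (decide (c / Z.K = 1), Z.ρ (c % Z.K))) (2 * Z.K) Z.κ u v

/-- a segment without marks, given by its pieces -/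
noncomputable def zT (Z : PD A Q M) (h : ℕ) (l : List Pc) (x y : Inf Q) : DT (Sy A) :=
  if y.1 = x.1 then
    (Z.rfT h l x.2.2 (false, true, x.2.1) (true, true, y.2.1)).and
      (andN (fun c => if ((Z.ρ (c / Z.K)).2, (Z.ρ (c % Z.K)).2) ∈ y.2.2 then
        Z.rfT h l x.2.2 (false, false, (Z.ρ (c / Z.K)).2) (true, true, (Z.ρ (c % Z.K)).2)
        else .ret true) (Z.K * Z.K))
  else .ret false

/-- a marked cell -/
noncomputable def clT (Z : PD A Q M) (h o : ℕ) (μ : M) (x y : Inf Q) : DT (Sy A) :=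
  .ask (h - o) fun g => .ret (match g with
    | some (a, _) => decide (Mc Z.S a μ x y)
    | none => false)

/-- the segment `[lo, hi)` with less than `2 ^ d` marks -/
noncomputable def mkT (Z : PD A Q M) (h : ℕ) : ℕ → ℕ → ℕ → Inf Q → Inf Q → DT (Sy A)
  | 0, lo, hi, x, y => Z.zT h (sgP Z.sl Z.mx h lo hi) x y
  | d + 1, lo, hi, x, y => (Z.zT h (sgP Z.sl Z.mx h lo hi) x y).or
      (.orN (fun o => .orN (fun m => .orN (fun z => .orN (fun z' =>
        if lo ≤ o ∧ o < hi then
          (mkT Z h d lo o x (Z.info z)).and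
            ((Z.clT h o (Z.mks m) (Z.info z) (Z.info z')).and
              (mkT Z h d (o + 1) hi (Z.info z') y))
        else .ret false) Z.N) Z.N) Z.μ) (2 * Z.bl))

/-- one block -/
noncomputable def stT (Z : PD A Q M) (h : ℕ) (x y : Inf Q) : DT (Sy A) :=
  Z.mkT h Z.d 0 Z.bl x y

/-- acceptance from the information `x` at the start of the region -/
noncomputable def acT (Z : PD A Q M) (h : ℕ) (x : Inf Q) : DT (Sy A) :=
  .orN (fun z => if Ac Z.S (Z.info z) then Z.mkT h Z.d 0 h x (Z.info z) else .ret false) Z.N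

/-- the information bit at distance `d` -/
def aR (d : ℕ) : DT (Sy A) := .ask d fun g => .ret (match g with
  | some (_, b) => b.1
  | none => false)

/-- the information with the code `x` is possible at the start of the word -/
def st0 (Z : PD A Q M) (x : ℕ) : Prop := Sle (ini Z.S) (Z.info x)

/-- the information bit of the next cell, in phase `r` -/
noncomputable def rT (Z : PD A Q M) (r : ℕ) : DT (Sy A) :=
  if r < Z.bl then .ret (decide (Z.sl ≤ r ∧ r - Z.sl < Z.N ∧ Z.st0 (r - Z.sl)))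
  else if Z.sl ≤ r - Z.bl ∧ r - Z.bl - Z.sl < Z.N then
    .orN (fun x => (aR (r - (Z.sl + x))).and (Z.stT r (Z.info x) (Z.info (r - Z.bl - Z.sl)))) Z.N
  else .ret false

/-- the table bit of the next cell, in phase `r` -/
noncomputable def tT (Z : PD A Q M) (r : ℕ) : DT (Sy A) :=
  if 0 < r / Z.sl ∧ 2 ^ (r % Z.sl / (Z.K * Z.K)) ∣ r / Z.sl then
    Z.lsT r
      (match r % Z.sl / (Z.K * Z.K) with
        | 0 => (List.range Z.sl).map fun c => .raw ((r / Z.sl - 1) * Z.sl + c)
        | s + 1 => [.blk s (r / Z.sl - 2 ^ s), .blk s (r / Z.sl)])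
      (Z.ρ (r % Z.sl % (Z.K * Z.K) / Z.K)) (Z.ρ (r % Z.sl % Z.K))
  else .ret false

/-- acceptance, in phase `r` -/
noncomputable def fT (Z : PD A Q M) (r : ℕ) : DT (Sy A) :=
  if r < Z.bl then .orN (fun x => if Z.st0 x then Z.acT r (Z.info x) else .ret false) Z.N
  else .orN (fun x => (aR (r - (Z.sl + x))).and (Z.acT r (Z.info x))) Z.N

/-- the program -/
noncomputable def prog (Z : PD A Q M) : GProg A (Bool × Bool) where
  nxt := fun r => if r + 1 < 2 * Z.bl then r + 1 else Z.bl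
  s0 := (false, false)
  upd := fun r => .lift (Z.rT r) fun b => .lift (Z.tT r) fun b' => .ret (.inl (b, b'))
  acc := fun r => .lift (Z.fT r) fun b => .ret (.inr b)

end PD

end Pool.Agent.P0036f5d
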