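import Pool.Agent.Lib.P0036f5d.PDefs

/-!
# D6: an accepted path of informations gives a computation

By induction on `n ≤ w.length`: if `Pt S w 0 n (ini S) x` then there are `f, μ, v, st, pe` such that
with `K = x.1`: `f` is increasing on `i < K` with values `< n`; `v (f i) = S.L2 (μ i)` for `i < K`, and
`v c = vr S w c` for all other `c`; `st 0 = (0, true, S.p0)`; for `i < K` the condition `hst`, and
`RF v S.E0 0 (f i) (st i) (f i, true, pe i)`; `RF v S.E0 0 n (st K) (n, true, x.2.1)`; and
`x.2.2 ⊆ tab v S.E0 0 n` (structure `ToRunAux.PR`).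

The type of marks has to be nonempty here (`Run` has a field `μ : ℕ → M`).  If it is empty, the system
`addM S` with one unused mark symbol has the same words (`lb_addM`) and the same paths (`spt_addM`).
-/

set_option autoImplicit false

namespace Pool.Agent.P0036f5d

open Relation Pool.Agent.P0036f5v2 Pool.Agent.P0036f5w Pool.Agent.P0036f5g Pool.Agent.P0036f5k
  Pool.Agent.P0036f5b Classical

variable {A Q M : Type}

namespace ToRunAux

open Pool.Agent.P0036f5b.RFcAux

/-- a computation up to the boundary `n`, cut at the marks, that gives the information `x` -/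
structure PR (S : FS A Q M) (w : List A) (n : ℕ) (x : Inf Q) (f : ℕ → ℕ) (μ : ℕ → M)
    (v : ℕ → CR Q) (st : ℕ → Nd Q) (pe : ℕ → Q) : Prop where
  hf : ∀ i j, i < j → j < x.1 → f i < f j
  hfl : ∀ i < x.1, f i < n
  hv1 : ∀ i < x.1, v (f i) = S.L2 (μ i)
  hv2 : ∀ c, (∀ i < x.1, c ≠ f i) → v c = vr S w c
  h0 : st 0 = (0, true, S.p0)
  hst : ∀ i < x.1, ∃ a d q, w[f i]? = some a ∧ S.L1 (μ i) a (pe i) d q ∧
    st (i + 1) = (if d = true then f i + 1 else f i, d, q)
  hp : ∀ i < x.1, RF v S.E0 0 (f i) (st i) (f i, true, pe i)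
  hK : RF v S.E0 0 n (st x.1) (n, true, x.2.1)
  hT : x.2.2 ⊆ tab v S.E0 0 n

theorem pr_zero {S : FS A Q M} {w : List A} {x : Inf Q} (m0 : M) (h : Sle (ini S) x) :
    PR S w 0 x (fun _ => 0) (fun _ => m0) (vr S w) (fun _ => (0, true, S.p0)) (fun _ => S.p0) := by
  obtain ⟨h1, h2, h3⟩ := h
  simp only [ini] at h1 h2 h3
  refine ⟨?_, ?_, ?_, fun _ _ => rfl, rfl, ?_, ?_, ?_, ?_⟩
  · intro i j _ hj
    omega
  · intro i hi
    omega
  · intro i hi
    omega
  · intro i hi
    omega
  · intro i hi
    omega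
  · rw [h2]
    exact ReflTransGen.refl
  · intro t ht
    exact ReflTransGen.single (Or.inr ⟨t.1, t.2, rfl, rfl, h3 ht⟩)

theorem pr_un {S : FS A Q M} {w : List A} {n : ℕ} {z y : Inf Q} {f : ℕ → ℕ} {μ : ℕ → M}
    {v : ℕ → CR Q} {st : ℕ → Nd Q} {pe : ℕ → Q} {c : A} (hc : w[n]? = some c)
    (h : PR S w n z f μ v st pe) (hs : Sg (fun _ => S.L0 c) 0 1 z y) :
    PR S w (n + 1) y f μ v st pe := by
  have hvn : v n = S.L0 c := by
    rw [h.hv2 n fun i hi => (h.hfl i hi).ne']
    simp only [vr, hc]
  have h1 : Sg v (n + 0) (n + 1) z y := by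
    rw [← sg_shift]
    refine (sg_congr fun i _ hi => ?_).1 hs
    have hi0 : i = 0 := by omega
    subst hi0
    exact hvn.symm
  rw [Nat.add_zero] at h1
  obtain ⟨g1, g2, g3⟩ := h1
  refine ⟨?_, ?_, ?_, ?_, h.h0, ?_, ?_, ?_, ?_⟩
  · rw [g1]
    exact h.hf
  · rw [g1]
    intro i hi
    exact (h.hfl i hi).trans (Nat.lt_succ_self n)
  · rw [g1]
    exact h.hv1
  · rw [g1]
    exact h.hv2
  · rw [g1]
    exact h.hst
  · rw [g1]
    exact h.hp
  · rw [g1]
    exact ReflTransGen.trans (rf_wide (Nat.le_succ n) h.hK)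
      (rf_back (Nat.zero_le n) (Nat.le_succ n) (rf_mono h.hT g2))
  · rw [← tab_tab (Nat.zero_le n) (Nat.le_succ n)]
    exact g3.trans (tab_mono h.hT _ _)

theorem pr_mk {S : FS A Q M} {w : List A} {n : ℕ} {z y : Inf Q} {f : ℕ → ℕ} {μ : ℕ → M}
    {v : ℕ → CR Q} {st : ℕ → Nd Q} {pe : ℕ → Q} {c : A} {m : M} (hc : w[n]? = some c)
    (h : PR S w n z f μ v st pe) (hs : Mc S c m z y) :
    ∃ s : Nd Q, PR S w (n + 1) y (Function.update f z.1 n) (Function.update μ z.1 m)
      (Function.update v n (S.L2 m)) (Function.update st (z.1 + 1) s)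
      (Function.update pe z.1 z.2.1) := by
  obtain ⟨g1, ⟨d, q, g2, g3⟩, g4⟩ := hs
  -- the behaviour is the same left of `n`
  have hcg : ∀ {T : Set (Q × Q)} {b : ℕ}, b ≤ n → ∀ {x x' : Nd Q},
      RF v T 0 b x x' → RF (Function.update v n (S.L2 m)) T 0 b x x' := by
    intro T b hb x x' hr
    refine (rf_congr fun i _ hi => ?_).1 hr
    rw [Function.update_of_ne (by omega)]
  have hT' : z.2.2 ⊆ tab (Function.update v n (S.L2 m)) S.E0 0 n := fun t ht =>
    hcg le_rfl (h.hT ht)
  have hsh : ∀ {T : Set (Q × Q)} {x x' : Nd Q}, RF (fun _ => S.L2 m) T 0 1 x x' →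
      RF (Function.update v n (S.L2 m)) T n (n + 1) (n + x.1, x.2) (n + x'.1, x'.2) := by
    intro T x x' hr
    have h5 : RF (Function.update v n (S.L2 m)) T (n + 0) (n + 1) (n + x.1, x.2)
        (n + x'.1, x'.2) := by
      rw [← rf_shift]
      refine (rf_congr fun i _ hi => ?_).1 hr
      have hi0 : i = 0 := by omega
      subst hi0
      simp only [Nat.add_zero, Function.update_self]
    exact h5
  refine ⟨(if d = true then n + 1 else n, d, q), ?_, ?_, ?_, ?_, ?_, ?_, ?_, ?_, ?_⟩
  · intro i j hij hj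
    rw [g1] at hj
    rcases Nat.lt_succ_iff_lt_or_eq.1 hj with hj | rfl
    · rw [Function.update_of_ne (by omega), Function.update_of_ne (by omega)]
      exact h.hf i j hij hj
    · rw [Function.update_self, Function.update_of_ne (by omega)]
      exact h.hfl i hij
  · intro i hi
    rw [g1] at hi
    rcases Nat.lt_succ_iff_lt_or_eq.1 hi with hi | rfl
    · rw [Function.update_of_ne (by omega)]
      exact (h.hfl i hi).trans (Nat.lt_succ_self n)
    · rw [Function.update_self]
      exact Nat.lt_succ_self n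
  · intro i hi
    rw [g1] at hi
    rcases Nat.lt_succ_iff_lt_or_eq.1 hi with hi | rfl
    · have h6 := h.hfl i hi
      rw [Function.update_of_ne (a := i) (by omega), Function.update_of_ne (by omega),
        Function.update_of_ne (by omega)]
      exact h.hv1 i hi
    · simp only [Function.update_self]
  · intro c' hc'
    rw [g1] at hc'
    have h7 := hc' z.1 (Nat.lt_succ_self _)
    rw [Function.update_self] at h7
    rw [Function.update_of_ne h7]
    refine h.hv2 c' fun i hi => ?_
    have h8 := hc' i (hi.trans (Nat.lt_succ_self _))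
    rwa [Function.update_of_ne (by omega)] at h8
  · rw [Function.update_of_ne (by omega)]
    exact h.h0
  · intro i hi
    rw [g1] at hi
    rcases Nat.lt_succ_iff_lt_or_eq.1 hi with hi | rfl
    · obtain ⟨a, d', q', k1, k2, k3⟩ := h.hst i hi
      refine ⟨a, d', q', ?_, ?_, ?_⟩
      · rw [Function.update_of_ne (by omega)]
        exact k1
      · rw [Function.update_of_ne (by omega), Function.update_of_ne (by omega)]
        exact k2
      · rw [Function.update_of_ne (by omega), Function.update_of_ne (by omega)]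
        exact k3
    · refine ⟨c, d, q, ?_, ?_, ?_⟩
      · rw [Function.update_self]
        exact hc
      · rw [Function.update_self, Function.update_self]
        exact g2
      · rw [Function.update_self, Function.update_self]
  · intro i hi
    rw [g1] at hi
    rcases Nat.lt_succ_iff_lt_or_eq.1 hi with hi | rfl
    · have h6 := h.hfl i hi
      rw [Function.update_of_ne (a := i) (by omega), Function.update_of_ne (a := i) (by omega),
        Function.update_of_ne (a := i) (by omega)]
      exact hcg h6.le (h.hp i hi)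
    · rw [Function.update_self, Function.update_self, Function.update_of_ne (by omega)]
      exact hcg le_rfl h.hK
  · rw [g1, Function.update_self]
    refine rf_back (Nat.zero_le n) (Nat.le_succ n) (rf_mono hT' ?_)
    have h9 := hsh g3
    cases d
    · exact h9
    · exact h9
  · rw [← tab_tab (Nat.zero_le n) (Nat.le_succ n)]
    refine Set.Subset.trans ?_ (tab_mono hT' _ _)
    intro t ht
    exact hsh (g4 ht)

theorem exists_pr {S : FS A Q M} {w : List A} (m0 : M) (n : ℕ) {x : Inf Q}
    (h : Pt S w 0 n (ini S) x) : ∃ f μ v st pe, PR S w n x f μ v st pe := by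
  induction n generalizing x with
  | zero => exact ⟨_, _, _, _, _, pr_zero m0 h⟩
  | succ n ih =>
    obtain ⟨z, h1, c, hc, hs⟩ := h
    rw [Nat.zero_add] at hc
    obtain ⟨f, μ, v, st, pe, hp⟩ := ih h1
    rcases hs with hs | ⟨m, hs⟩
    · exact ⟨f, μ, v, st, pe, pr_un hc hp hs⟩
    · obtain ⟨s, h2⟩ := pr_mk hc hp hs
      exact ⟨_, _, _, _, _, h2⟩

end ToRunAux

open ToRunAux Pool.Agent.P0036f5b.RFcAux

theorem exists_run [Nonempty M] {S : FS A Q M} {w : List A} {x : Inf Q}
    (h : Pt S w 0 w.length (ini S) x) (hA : Ac S x) : ∃ R : Run S w, R.K = x.1 := by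
  obtain ⟨f, μ, v, st, pe, hp⟩ := exists_pr (Classical.arbitrary M) w.length h
  obtain ⟨p', hF, hr⟩ := hA
  have hvn : v w.length = S.Lr := by
    rw [hp.hv2 w.length fun i hi => (hp.hfl i hi).ne']
    simp [vr]
  have h1 : RF v x.2.2 w.length (w.length + 1) (w.length, true, x.2.1)
      (w.length + 1, true, p') := by
    have h5 : RF v x.2.2 (w.length + 0) (w.length + 1) (w.length + 0, true, x.2.1)
        (w.length + 1, true, p') := by
      refine (rf_shift (x := (0, true, x.2.1)) (y := (1, true, p'))).1 ?_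
      refine (rf_congr fun i _ hi => ?_).1 hr
      have hi0 : i = 0 := by omega
      subst hi0
      exact hvn.symm
    exact h5
  refine ⟨⟨x.1, f, μ, v, fun i => if i < x.1 then f i else w.length + 1, st,
    Function.update pe x.1 p', hp.hf, hp.hfl, ?_, ?_, hp.hv1, hp.hv2, hp.h0, ?_, ?_, ?_⟩, rfl⟩
  · intro i hi
    exact if_pos hi
  · exact if_neg (lt_irrefl _)
  · intro i hi
    rw [Function.update_of_ne hi.ne]
    exact hp.hst i hi
  · rw [Function.update_self]
    exact hF
  · intro i hi
    rcases hi.lt_or_eq with hi | rfl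
    · simp only [if_pos hi, Function.update_of_ne hi.ne]
      exact hp.hp i hi
    · simp only [lt_irrefl, if_false, Function.update_self]
      exact ReflTransGen.trans (rf_wide (Nat.le_succ _) hp.hK)
        (rf_back (Nat.zero_le _) (Nat.le_succ _) (rf_mono hp.hT h1))

/-- the system with one mark symbol that is never used; for systems without mark symbols -/
def addM (S : FS A Q M) : FS A Q Unit where
  L0 := S.L0
  L1 := fun _ _ _ _ _ => False
  L2 := fun _ => S.Lr
  Lr := S.Lr
  E0 := S.E0
  p0 := S.p0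
  F := S.F

theorem st_addM [IsEmpty M] {S : FS A Q M} {a : A} {x y : Inf Q} :
    St (addM S) a x y ↔ St S a x y := by
  constructor
  · rintro (h | ⟨μ, h⟩)
    · exact Or.inl h
    · obtain ⟨_, ⟨d, q, h, _⟩, _⟩ := h
      exact False.elim h
  · rintro (h | ⟨μ, h⟩)
    · exact Or.inl h
    · exact isEmptyElim μ

theorem pt_addM [IsEmpty M] {S : FS A Q M} {w : List A} {a n : ℕ} {x y : Inf Q} :
    Pt (addM S) w a n x y ↔ Pt S w a n x y := by
  induction n generalizing y with
  | zero => exact Iff.rfl
  | succ n ih =>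
    simp only [Pt, ih, st_addM]

theorem lb_addM [IsEmpty M] {S : FS A Q M} {k : ℕ} : Lb (addM S) k = Lb S k := by
  ext w
  show (∃ x, Pt (addM S) w 0 w.length (ini S) x ∧ x.1 ≤ k ∧ Ac S x) ↔
    ∃ x, Pt S w 0 w.length (ini S) x ∧ x.1 ≤ k ∧ Ac S x
  simp only [pt_addM]

theorem spt_addM [IsEmpty M] {S : FS A Q M} {w : List A} {k m : ℕ} :
    SPt (addM S) w k m ↔ SPt S w k m := by
  unfold SPt
  simp only [st_addM]
  exact Iff.rfl

end Pool.Agent.P0036f5d
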