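import Pool.Agent.Lib.P0036f5d.TDefs
import Pool.Agent.Lib.P0036f5k.TreeB
import Pool.Agent.Lib.P0036f5k.Hall
import Pool.Agent.Lib.P0036f5b.SegP

/-!
# B7b: cost and range of the trees for segments 

Compare `P0036f5k/TreeB.lean`.
* `nd_lsT_le`, `within_lsT`: as there (`nd_pathT_le`, `within_pathT`).
* `nd_rfT_le`: `nd_pathT_le` for `rfE`, whose trees cost at most `cK 2 mx K κ`, with `2 K` nodes:
  `(2 * (2 K)) ^ κ * cK`.
* `nd_zT_le`: `nd_and_le`, `nd_andN_le`: `(1 + K * K) * …`.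
* `nd_clT_le`: `ask d fun g => ret _` has one inner subtree.
* the ranges: `within_*`.
-/

set_option autoImplicit false

namespace Pool.Agent.P0036f5d

open Relation Pool.Agent.P0036f5v2 Pool.Agent.P0036f5w Pool.Agent.P0036f5g Pool.Agent.P0036f5k
  Pool.Agent.P0036f5b Classical

variable {A Q M : Type}

namespace PD

private theorem nd_ask_ret (d : ℕ) (f : Sy A → Bool) :
    (DT.ask d fun g => DT.ret (f g)).nd ≤ 1 := by
  unfold DT.nd DT.asks
  simp [DT.asks]

private theorem nd_pcT_le (Z : PD A Q M) (h : ℕ) (p : Pc) (x y : Bool × Q) :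
    (Z.pcT h p x y).nd ≤ 1 := by
  unfold pcT
  cases p with
  | raw o => exact nd_ask_ret _ _
  | blk s u => exact nd_ask_ret _ _
  | rnd => simp [DT.nd_ret]

private theorem nd_edT_le (Z : PD A Q M) (h : ℕ) (l : List Pc) (X Y : Nd Q) :
    (Z.edT h l X Y).nd ≤ 1 := by
  unfold edT
  cases l[Pool.Agent.P0036f5k.Par.idx X]? with
  | none => simp [DT.nd_ret]
  | some p =>
    dsimp only
    split_ifs
    · exact nd_pcT_le _ _ _ _ _
    · simp [DT.nd_ret]

theorem nd_lsT_le [Finite A] (Z : PD A Q M) (h : ℕ) {l : List Pc}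
    (hlen : l.length ≤ LK 2 Z.mx Z.K) (x y : Bool × Q) :
    (Z.lsT h l x y).nd ≤ cK 2 Z.mx Z.K Z.κ := by
  unfold lsT
  refine (nd_pathT_le (Z.edT h l) _ _ (c := 1) (fun X Y => nd_edT_le Z h l X Y) _ _ _).trans ?_
  rw [Nat.mul_one]
  unfold cK VK
  exact Nat.pow_le_pow_left (Nat.mul_le_mul_left _ (Nat.mul_le_mul_right _
    (Nat.add_le_add_right hlen 1))) _

private theorem within_pcT {Z : PD A Q M} (hZ : Z.Ok) {h : ℕ} {p : Pc}
    (hp : Val (fun _ => none : ℕ → Option Unit) Z.sl Z.K Z.mx h p) (x y : Bool × Q) :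
    (Z.pcT h p x y).Within h := by
  unfold pcT
  cases p with
  | raw o =>
    have ho : o < h := hp
    exact ⟨by omega, by omega, fun _ => trivial⟩
  | blk s u =>
    obtain ⟨-, -, -, h4, -⟩ := hp
    have h1 : Z.π x * Z.K + Z.π y < Z.K * Z.K := by
      have hx := hZ.hπ x
      have hy := hZ.hπ y
      calc Z.π x * Z.K + Z.π y < Z.π x * Z.K + Z.K := Nat.add_lt_add_left hy _
        _ = (Z.π x + 1) * Z.K := by ring
        _ ≤ Z.K * Z.K := Nat.mul_le_mul_right _ hx
    have h2 : (s + 1) * (Z.K * Z.K) = s * (Z.K * Z.K) + Z.K * Z.K := by ring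
    rw [h2] at h4
    exact ⟨by omega, Nat.sub_le _ _, fun _ => trivial⟩
  | rnd => trivial

private theorem within_edT {Z : PD A Q M} (hZ : Z.Ok) {h : ℕ} {l : List Pc}
    (hval : ∀ p ∈ l, Val (fun _ => none : ℕ → Option Unit) Z.sl Z.K Z.mx h p) (X Y : Nd Q) :
    (Z.edT h l X Y).Within h := by
  unfold edT
  rcases hl : l[Pool.Agent.P0036f5k.Par.idx X]? with _ | p
  · trivial
  · dsimp only
    split_ifs
    · exact within_pcT hZ (hval p (List.mem_of_getElem? hl)) _ _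
    · trivial

theorem within_lsT {Z : PD A Q M} (hZ : Z.Ok) {h : ℕ} {l : List Pc}
    (hval : ∀ p ∈ l, Val (fun _ => none : ℕ → Option Unit) Z.sl Z.K Z.mx h p) (x y : Bool × Q) :
    (Z.lsT h l x y).Within h := by
  unfold lsT
  exact within_pathT _ _ _ (fun X Y => within_edT hZ hval X Y) _ _ _

private theorem nd_rfE_le [Finite A] (Z : PD A Q M) (h : ℕ) {l : List Pc}
    (hlen : l.length ≤ LK 2 Z.mx Z.K) (T : Set (Q × Q)) (u v : Bool × Bool × Q) :
    (Z.rfE h l T u v).nd ≤ cK 2 Z.mx Z.K Z.κ := by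
  unfold rfE
  split_ifs
  · exact nd_lsT_le Z h hlen _ _
  · simp [DT.nd_ret]
  · simp [DT.nd_ret]

private theorem within_rfE {Z : PD A Q M} (hZ : Z.Ok) {h : ℕ} {l : List Pc}
    (hval : ∀ p ∈ l, Val (fun _ => none : ℕ → Option Unit) Z.sl Z.K Z.mx h p)
    (T : Set (Q × Q)) (u v : Bool × Bool × Q) : (Z.rfE h l T u v).Within h := by
  unfold rfE
  split_ifs
  · exact within_lsT hZ hval _ _
  · trivial
  · trivial

private theorem nd_rfT_le [Finite A] (Z : PD A Q M) (h : ℕ) {l : List Pc}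
    (hlen : l.length ≤ LK 2 Z.mx Z.K) (T : Set (Q × Q)) (u v : Bool × Bool × Q) :
    (Z.rfT h l T u v).nd ≤ (2 * (2 * Z.K)) ^ Z.κ * cK 2 Z.mx Z.K Z.κ := by
  unfold rfT
  exact nd_pathT_le (Z.rfE h l T) _ _ (fun X Y => nd_rfE_le Z h hlen T X Y) _ _ _

private theorem within_rfT {Z : PD A Q M} (hZ : Z.Ok) {h : ℕ} {l : List Pc}
    (hval : ∀ p ∈ l, Val (fun _ => none : ℕ → Option Unit) Z.sl Z.K Z.mx h p)
    (T : Set (Q × Q)) (u v : Bool × Bool × Q) : (Z.rfT h l T u v).Within h := by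
  unfold rfT
  exact within_pathT _ _ _ (fun X Y => within_rfE hZ hval T X Y) _ _ _

theorem nd_zT_le [Finite A] (Z : PD A Q M) (h : ℕ) {l : List Pc}
    (hlen : l.length ≤ LK 2 Z.mx Z.K) (x y : Inf Q) :
    (Z.zT h l x y).nd ≤ zB Z.mx Z.K Z.κ := by
  unfold zT zB
  split_ifs with h0
  · refine (DT.nd_and_le _ _).trans ?_
    rw [Nat.add_mul, Nat.one_mul]
    refine Nat.add_le_add (nd_rfT_le Z h hlen _ _ _) ?_
    refine nd_andN_le _ _ _ fun c _ => ?_
    split_ifs
    · exact nd_rfT_le Z h hlen _ _ _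
    · simp [DT.nd_ret]
  · simp [DT.nd_ret]

theorem within_zT {Z : PD A Q M} (hZ : Z.Ok) {h : ℕ} {l : List Pc}
    (hval : ∀ p ∈ l, Val (fun _ => none : ℕ → Option Unit) Z.sl Z.K Z.mx h p) (x y : Inf Q) :
    (Z.zT h l x y).Within h := by
  unfold zT
  split_ifs with h0
  · refine DT.within_and (within_rfT hZ hval _ _ _) ?_
    refine within_andN _ _ fun c _ => ?_
    split_ifs
    · exact within_rfT hZ hval _ _ _
    · trivial
  · trivial

theorem nd_clT_le (Z : PD A Q M) (h o : ℕ) (μ : M) (x y : Inf Q) :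
    (Z.clT h o μ x y).nd ≤ 1 := by
  unfold clT
  exact nd_ask_ret _ _

theorem within_clT (Z : PD A Q M) {h o : ℕ} (ho : o < h) (μ : M) (x y : Inf Q) :
    (Z.clT h o μ x y).Within h := by
  unfold clT
  exact ⟨by omega, by omega, fun _ => trivial⟩

theorem nd_mkT_le [Finite A] {Z : PD A Q M} (hZ : Z.Ok) (h : ℕ) : ∀ (d lo hi : ℕ) (x y : Inf Q),
    (Z.mkT h d lo hi x y).nd ≤ mD Z.N Z.mx Z.K Z.κ Z.μ d := by
  have hℓ : 0 < Z.sl := Nat.mul_pos (Nat.succ_pos _) (Nat.mul_pos hZ.hK hZ.hK)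
  intro d
  induction d with
  | zero =>
    intro lo hi x y
    rw [mkT, mD]
    exact nd_zT_le Z h (length_sgP hℓ) x y
  | succ d ih =>
    intro lo hi x y
    rw [mkT, mD]
    refine (DT.nd_or_le _ _).trans ?_
    refine Nat.add_le_add (nd_zT_le Z h (length_sgP hℓ) x y) ?_
    refine DT.nd_orN_le _ _ _ fun o _ => ?_
    refine DT.nd_orN_le _ _ _ fun m _ => ?_
    refine DT.nd_orN_le _ _ _ fun z _ => ?_
    refine DT.nd_orN_le _ _ _ fun z' _ => ?_
    split_ifs
    · refine (DT.nd_and_le _ _).trans ?_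
      have h1 := ih lo o x (Z.info z)
      have h2 := DT.nd_and_le (Z.clT h o (Z.mks m) (Z.info z) (Z.info z'))
        (Z.mkT h d (o + 1) hi (Z.info z') y)
      have h3 := nd_clT_le Z h o (Z.mks m) (Z.info z) (Z.info z')
      have h4 := ih (o + 1) hi (Z.info z') y
      omega
    · simp [DT.nd_ret]

theorem within_mkT {Z : PD A Q M} (hZ : Z.Ok) (h : ℕ) : ∀ (d lo hi : ℕ) (x y : Inf Q), hi ≤ h →
    (Z.mkT h d lo hi x y).Within h := by
  intro d
  induction d with
  | zero =>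
    intro lo hi x y hh
    rw [mkT]
    exact within_zT hZ (val_sgP rfl) x y
  | succ d ih =>
    intro lo hi x y hh
    rw [mkT]
    refine DT.within_or (within_zT hZ (val_sgP rfl) x y) ?_
    refine DT.within_orN _ _ fun o _ => ?_
    refine DT.within_orN _ _ fun m _ => ?_
    refine DT.within_orN _ _ fun z _ => ?_
    refine DT.within_orN _ _ fun z' _ => ?_
    split_ifs with h0
    · have ho : o < h := lt_of_lt_of_le h0.2 hh
      exact DT.within_and (ih lo o x (Z.info z) ho.le)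
        (DT.within_and (within_clT Z ho _ _ _) (ih (o + 1) hi (Z.info z') y hh))
    · trivial

end PD

end Pool.Agent.P0036f5d
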